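import Mathlib

set_option autoImplicit false

namespace Pool.Agent.Helper598.Cells

/-- Abstract cell lemma: consecutive blocks of size `a` are handled by one parameter each. -/
theorem cells {T : Type} [Fintype T] (idx ω : T → ℕ)
    (hidx : Function.Injective idx) (hω : ∀ c c', idx c < idx c' → ω c < ω c')
    (a : ℕ) (ε : T → Fin a → ℝ → ℝ) (hε : ∀ c ν, Continuous (ε c ν))
    (hloc : ∀ q : ℕ, ∀ g : T → ℝ, (∀ c, ¬ (q ≤ idx c ∧ idx c < q + a) → g c = 0) →
      (∀ ν, ∑ c, g c * ε c ν 0 = 0) → g = 0) :
    ∀ (n q : ℕ), (∀ c, idx c < q + n * a) →
      ∃ t : Fin n → ℝ, (∀ j, t j ≠ 0) ∧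
        ∀ g : T → ℝ, (∀ c, idx c < q → g c = 0) →
          (∀ j ν, ∑ c, g c * ((t j) ^ (ω c) * ε c ν (t j)) = 0) → g = 0 := by
  classical
  intro n
  induction n with
  | zero =>
    intro q hq
    refine ⟨Fin.elim0, fun j => j.elim0, fun g hg _ => ?_⟩
    funext c
    exact hg c (by simpa using hq c)
  | succ n ih =>
    intro q hq
    obtain ⟨t', ht', hinj⟩ := ih (q + a) (by intro c; have := hq c; rw [Nat.succ_mul] at this; omega)
    -- the top weight of the block
    set S : Finset T := Finset.univ.filter (fun c => idx c < q + a) with hS
    set top : ℕ := S.sup ω with htop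
    have htop1 : ∀ c, idx c < q + a → ω c ≤ top := by
      intro c hc
      exact Finset.le_sup (f := ω) (by simp [hS, hc])
    have htop2 : ∀ c, q ≤ idx c → ¬ idx c < q + a → (∃ c', q ≤ idx c' ∧ idx c' < q + a) →
        top < ω c := by
      intro c hc hc' hex
      rw [htop, Finset.sup_lt_iff]
      · intro c'' hc''
        simp only [hS, Finset.mem_filter, Finset.mem_univ, true_and] at hc''
        exact hω _ _ (by omega)
      · obtain ⟨c', h1, h2⟩ := hex
        have := hω c' c (by omega)
        exact lt_of_le_of_lt (Nat.zero_le _) this
    by_cases hex : ∃ c', q ≤ idx c' ∧ idx c' < q + a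
    · -- scaled family
      let R := {c : T // q ≤ idx c}
      let u : ℝ → R → (Option (Fin n) × Fin a → ℝ) := fun t c p =>
        p.1.elim
          (if idx c.1 < q + a then ε c.1 p.2 t else t ^ (ω c.1 - top) * ε c.1 p.2 t)
          (fun j => (if idx c.1 < q + a then t ^ (top - ω c.1) else 1)
            * ((t' j) ^ (ω c.1) * ε c.1 p.2 (t' j)))
      have hcont : Continuous u := by
        refine continuous_pi fun c => continuous_pi fun p => ?_
        rcases p with ⟨_ | j, ν⟩
        · by_cases h : idx c.1 < q + a
          · simpa [u, h] using hε c.1 ν
          · have h5 : Continuous (fun t : ℝ => t ^ (ω c.1 - top) * ε c.1 ν t) :=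
              (continuous_pow _).mul (hε c.1 ν)
            simpa [u, h] using h5
        · by_cases h : idx c.1 < q + a
          · have h5 : Continuous (fun t : ℝ => t ^ (top - ω c.1)
                * ((t' j) ^ (ω c.1) * ε c.1 ν (t' j))) :=
              (continuous_pow _).mul continuous_const
            simpa [u, h] using h5
          · simpa [u, h] using continuous_const
      have h0 : LinearIndependent ℝ (u 0) := by
        rw [Fintype.linearIndependent_iff]
        intro g hg
        have hrow : ∀ p, ∑ c, g c * u 0 c p = 0 := by
          intro p
          have := congrFun hg p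
          simpa [Finset.sum_apply] using this
        -- block part
        let g1 : T → ℝ := fun c => if h : q ≤ idx c then (if idx c < q + a then g ⟨c, h⟩ else 0) else 0
        have hsum1 : ∀ f : T → ℝ, ∑ c, g1 c * f c = ∑ c : R, (if idx c.1 < q + a then g c * f c.1 else 0) := by
          intro f
          have e1 : ∑ c : R, (if idx c.1 < q + a then g c * f c.1 else 0)
              = ∑ c : R, g1 c.1 * f c.1 := by
            refine Finset.sum_congr rfl fun c _ => ?_
            by_cases h : idx c.1 < q + a
            · simp [g1, h, c.2]
            · simp [g1, h]
          rw [e1]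
          have e2 : ∑ c : R, g1 c.1 * f c.1 = ∑ c ∈ Finset.univ.filter (fun c => q ≤ idx c), g1 c * f c := by
            rw [← Finset.sum_subtype_eq_sum_filter]
            rw [Finset.subtype_univ]
          rw [e2]
          symm
          rw [Finset.sum_filter]
          refine Finset.sum_congr rfl fun c _ => ?_
          by_cases h : q ≤ idx c
          · simp [h]
          · simp [g1, h]
        have hg1 : g1 = 0 := by
          apply hloc q g1
          · intro c hc
            by_cases h : q ≤ idx c
            · have : ¬ idx c < q + a := fun h2 => hc ⟨h, h2⟩
              simp [g1, this]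
            · simp [g1, h]
          · intro ν
            rw [hsum1 (fun c => ε c ν 0)]
            refine Eq.trans ?_ (hrow (none, ν))
            refine Finset.sum_congr rfl fun c _ => ?_
            by_cases h : idx c.1 < q + a
            · simp [u, h]
            · have : ω c.1 - top ≠ 0 := by
                have := htop2 c.1 c.2 h hex
                omega
              simp [u, h, this]
        have hblock : ∀ c : R, idx c.1 < q + a → g c = 0 := by
          intro c hc
          have := congrFun hg1 c.1
          simpa [g1, hc, c.2] using this
        -- rest
        let g2 : T → ℝ := fun c => if h : q ≤ idx c then (if idx c < q + a then 0 else g ⟨c, h⟩) else 0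
        have hg2 : g2 = 0 := by
          apply hinj g2
          · intro c hc
            simp [g2, hc]
          · intro j ν
            refine Eq.trans ?_ (hrow (some j, ν))
            have e2 : ∑ c : R, g c * u 0 c (some j, ν)
                = ∑ c : R, g2 c.1 * ((t' j) ^ (ω c.1) * ε c.1 ν (t' j)) := by
              refine Finset.sum_congr rfl fun c _ => ?_
              by_cases h : idx c.1 < q + a
              · simp [g2, h, hblock c h]
              · simp [g2, h, c.2, u]
            rw [e2]
            have e3 : ∑ c : R, g2 c.1 * ((t' j) ^ (ω c.1) * ε c.1 ν (t' j))
                = ∑ c ∈ Finset.univ.filter (fun c => q ≤ idx c),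
                    g2 c * ((t' j) ^ (ω c) * ε c ν (t' j)) := by
              rw [← Finset.sum_subtype_eq_sum_filter]
              rw [Finset.subtype_univ]
            rw [e3, Finset.sum_filter]
            refine Finset.sum_congr rfl fun c _ => ?_
            by_cases h : q ≤ idx c
            · simp [h]
            · simp [g2, h]
        intro c
        by_cases h : idx c.1 < q + a
        · exact hblock c h
        · have := congrFun hg2 c.1
          simpa [g2, h, c.2] using this
      -- openness
      have hopen := isOpen_setOfPred_linearIndependent (𝕜 := ℝ) (E := Option (Fin n) × Fin a → ℝ)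
        (ι := R)
      have hev : ∀ᶠ t in nhds (0 : ℝ), LinearIndependent ℝ (u t) :=
        hcont.continuousAt.eventually (hopen.mem_nhds h0)
      have hev' : ∀ᶠ t in nhdsWithin (0 : ℝ) {0}ᶜ, LinearIndependent ℝ (u t) ∧ t ≠ 0 := by
        refine (hev.filter_mono nhdsWithin_le_nhds).and ?_
        exact eventually_mem_nhdsWithin
      obtain ⟨t0, ht0, ht0ne⟩ := hev'.exists
      refine ⟨Fin.cons t0 t', ?_, ?_⟩
      · intro j
        refine Fin.cases ?_ (fun j => ?_) j
        · simpa using ht0ne
        · simpa using ht' j
      · intro g hg hsum
        rw [Fintype.linearIndependent_iff] at ht0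
        have hall := ht0 (fun c : R => g c.1 * (if idx c.1 < q + a then (t0 ^ (top - ω c.1))⁻¹ else 1)) (by
          funext p
          rw [Finset.sum_apply]
          have hfil : ∀ f : T → ℝ, ∑ c : R, g c.1 * f c.1 = ∑ c, g c * f c := by
            intro f
            have e3 : ∑ c : R, g c.1 * f c.1
                = ∑ c ∈ Finset.univ.filter (fun c => q ≤ idx c), g c * f c := by
              rw [← Finset.sum_subtype_eq_sum_filter]
              rw [Finset.subtype_univ]
            rw [e3, Finset.sum_filter]
            refine Finset.sum_congr rfl fun c _ => ?_
            by_cases h : q ≤ idx c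
            · simp [h]
            · simp [h, hg c (by omega)]
          rcases p with ⟨_ | j, ν⟩
          · have h1 := hsum 0 ν
            simp only [Fin.cons_zero] at h1
            have e : ∑ c : R, ((g c.1 * (if idx c.1 < q + a then (t0 ^ (top - ω c.1))⁻¹ else 1)) •
                u t0 c) (none, ν)
                = (t0 ^ top)⁻¹ * ∑ c : R, g c.1 * (t0 ^ (ω c.1) * ε c.1 ν t0) := by
              rw [Finset.mul_sum]
              refine Finset.sum_congr rfl fun c _ => ?_
              by_cases h : idx c.1 < q + a
              · have hle := htop1 c.1 h
                have hpow : t0 ^ top = t0 ^ (top - ω c.1) * t0 ^ (ω c.1) := by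
                  rw [← pow_add]; congr 1; omega
                simp only [u, Pi.smul_apply, smul_eq_mul, h, if_true, Option.elim_none]
                rw [hpow]
                have h2 : t0 ^ (ω c.1) ≠ 0 := pow_ne_zero _ ht0ne
                have h3 : t0 ^ (top - ω c.1) ≠ 0 := pow_ne_zero _ ht0ne
                field_simp
              · have hlt := htop2 c.1 c.2 h hex
                have hpow : t0 ^ (ω c.1) = t0 ^ top * t0 ^ (ω c.1 - top) := by
                  rw [← pow_add]; congr 1; omega
                simp only [u, Pi.smul_apply, smul_eq_mul, h, if_false, Option.elim_none]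
                rw [hpow]
                have h2 : t0 ^ top ≠ 0 := pow_ne_zero _ ht0ne
                field_simp
            rw [e, hfil (fun c => t0 ^ (ω c) * ε c ν t0), h1, mul_zero]
            rfl
          · have h1 := hsum j.succ ν
            simp only [Fin.cons_succ] at h1
            have e : ∑ c : R, ((g c.1 * (if idx c.1 < q + a then (t0 ^ (top - ω c.1))⁻¹ else 1)) •
                u t0 c) (some j, ν)
                = ∑ c : R, g c.1 * ((t' j) ^ (ω c.1) * ε c.1 ν (t' j)) := by
              refine Finset.sum_congr rfl fun c _ => ?_
              by_cases h : idx c.1 < q + a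
              · simp only [u, Pi.smul_apply, smul_eq_mul, h, if_true, Option.elim_some]
                have h3 : t0 ^ (top - ω c.1) ≠ 0 := pow_ne_zero _ ht0ne
                field_simp
              · simp only [u, Pi.smul_apply, smul_eq_mul, h, if_false, Option.elim_some]
                ring
            rw [e, hfil (fun c => (t' j) ^ (ω c) * ε c ν (t' j)), h1]
            rfl)
        funext c
        by_cases h : q ≤ idx c
        · have := hall ⟨c, h⟩
          simp only at this
          rcases mul_eq_zero.1 this with h1 | h1
          · exact h1
          · exfalso
            by_cases h2 : idx c < q + a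
            · simp only [h2, if_true] at h1
              exact (inv_ne_zero (pow_ne_zero _ ht0ne)) h1
            · simp [h2] at h1
        · exact hg c (by omega)
    · -- no element in the block
      refine ⟨Fin.cons 1 t', ?_, ?_⟩
      · intro j
        refine Fin.cases ?_ (fun j => ?_) j
        · simp
        · simpa using ht' j
      · intro g hg hsum
        apply hinj g
        · intro c hc
          by_cases h : idx c < q
          · exact hg c h
          · exact absurd ⟨c, by omega, hc⟩ hex
        · intro j ν
          have := hsum j.succ ν
          simpa using this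

end Pool.Agent.Helper598.Cells
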