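import Mathlib

set_option autoImplicit false

namespace Pool.Agent.Helper598.LocalCells

open Polynomial

/-- A nonzero real polynomial divisible by `(X + 1)^k` has more than `k` monomials. -/
theorem card_support_of_dvd (k : ℕ) : ∀ P : ℝ[X], P ≠ 0 → (X + C 1) ^ k ∣ P → k < P.support.card := by
  induction k with
  | zero =>
    intro P hP _
    rw [Finset.card_pos, Polynomial.support_nonempty]
    exact hP
  | succ k ih =>
    intro P hP hdvd
    -- remove the power of X
    obtain ⟨j, Q, hPQ, hQ0⟩ : ∃ (j : ℕ) (Q : ℝ[X]), P = Q * X ^ j ∧ Q.coeff 0 ≠ 0 := by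
      obtain ⟨Q, hQ1, hQ2⟩ := Polynomial.exists_eq_pow_rootMultiplicity_mul_and_not_dvd P hP 0
      refine ⟨P.rootMultiplicity 0, Q, ?_, ?_⟩
      · rw [C_0, sub_zero] at hQ1
        rw [mul_comm]; exact hQ1
      · intro h0
        apply hQ2
        rw [C_0, sub_zero, X_dvd_iff]
        exact h0
    have hQne : Q ≠ 0 := by
      rintro rfl
      simp at hQ0
    have hcop : IsCoprime ((X + C 1 : ℝ[X]) ^ (k + 1)) (X ^ j) := by
      apply IsCoprime.pow
      refine ⟨1, -1, ?_⟩
      simp
    have hdvdQ : (X + C 1 : ℝ[X]) ^ (k + 1) ∣ Q := by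
      apply hcop.dvd_of_dvd_mul_right
      rw [← hPQ]; exact hdvd
    have hder : (X + C 1 : ℝ[X]) ^ k ∣ derivative Q := by
      obtain ⟨R, hR⟩ := hdvdQ
      rw [hR, derivative_mul, derivative_pow]
      refine dvd_add ?_ ?_
      · refine Dvd.dvd.mul_right ?_ _
        simp only [Nat.add_sub_cancel]
        exact Dvd.dvd.mul_right (Dvd.dvd.mul_left dvd_rfl _) _
      · exact Dvd.dvd.mul_right (pow_dvd_pow _ (Nat.le_succ k)) _
    have hderne : derivative Q ≠ 0 := by
      intro h0
      have hdeg := Polynomial.derivative_eq_zero.1 h0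
      obtain ⟨c, hc⟩ := Polynomial.natDegree_eq_zero.1 hdeg
      have hroot : Q.eval (-1) = 0 := by
        obtain ⟨R, hR⟩ := hdvdQ
        rw [hR]; simp
      rw [← hc] at hroot hQ0
      simp at hroot hQ0
      exact hQ0 hroot
    have hlt := ih _ hderne hder
    -- compare supports
    have hsuppP : Q.support.card ≤ P.support.card := by
      apply Finset.card_le_card_of_injOn (fun i => i + j)
      · intro i hi
        rw [Finset.mem_coe, Polynomial.mem_support_iff] at hi ⊢
        rw [hPQ, Polynomial.coeff_mul_X_pow]
        exact hi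
      · intro i _ i' _ h
        simpa using h
    have hsub : (derivative Q).support.map ⟨Nat.succ, Nat.succ_injective⟩ ⊆ Q.support.erase 0 := by
      intro i hi
      rw [Finset.mem_map] at hi
      obtain ⟨i', hi', rfl⟩ := hi
      rw [Finset.mem_erase]
      refine ⟨Nat.succ_ne_zero i', ?_⟩
      rw [Polynomial.mem_support_iff] at hi' ⊢
      intro h0
      apply hi'
      rw [Polynomial.coeff_derivative]
      simp only [Function.Embedding.coeFn_mk, Nat.succ_eq_add_one] at h0
      rw [h0, zero_mul]
    have hc1 := Finset.card_le_card hsub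
    rw [Finset.card_map, Finset.card_erase_of_mem (Polynomial.mem_support_iff.2 hQ0)] at hc1
    omega

/-- offset of level `k` -/
def off (a k : ℕ) : ℕ := ∑ i ∈ Finset.range k, (a + i)

lemma off_succ (a k : ℕ) : off a (k + 1) = off a k + (a + k) := by
  simp [off, Finset.sum_range_succ]

lemma off_mono (a : ℕ) : Monotone (off a) := by
  apply monotone_nat_of_le_succ
  intro k
  rw [off_succ]; omega

/-- index set: pairs (level, position) -/
abbrev T (s a : ℕ) : Type := Σ k : Fin (s + 1), Fin (a + (k : ℕ))

/-- level -/
def lev {s a : ℕ} (c : T s a) : ℕ := c.1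

/-- position within the level -/
def pos {s a : ℕ} (c : T s a) : ℕ := c.2

lemma pos_lt {s a : ℕ} (c : T s a) : pos c < a + lev c := c.2.2

lemma lev_lt {s a : ℕ} (c : T s a) : lev c < s + 1 := c.1.2

lemma lev_pos_inj {s a : ℕ} (c c' : T s a) (h1 : lev c = lev c') (h2 : pos c = pos c') :
    c = c' := by
  obtain ⟨k, μ⟩ := c
  obtain ⟨k', μ'⟩ := c'
  have hk' : k = k' := Fin.ext h1
  subst hk'
  have : μ = μ' := Fin.ext h2
  rw [this]

/-- position in the total order -/
def idx (s a : ℕ) (c : T s a) : ℕ := off a (lev c) + pos c

lemma idx_lt (s a : ℕ) (c : T s a) : idx s a c < off a (lev c + 1) := by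
  rw [off_succ]; have := pos_lt c; unfold idx; omega

lemma level_eq_or (s a : ℕ) (c : T s a) (q k0 : ℕ) (h1 : off a k0 ≤ q) (h2 : q < off a (k0 + 1))
    (hc1 : q ≤ idx s a c) (hc2 : idx s a c < q + a) : (lev c) = k0 ∨ (lev c) = k0 + 1 := by
  have hlt := idx_lt s a c
  have hge : off a (lev c) ≤ idx s a c := Nat.le_add_right _ _
  by_contra hne
  push Not at hne
  rcases lt_or_gt_of_ne hne.1 with h | h
  · have := off_mono a (show (lev c) + 1 ≤ k0 by omega)
    omega
  · have h3 : k0 + 2 ≤ (lev c) := by omega
    have := off_mono a h3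
    have e := off_succ a (k0 + 1)
    have e2 : k0 + 1 + 1 = k0 + 2 := rfl
    rw [e2] at e
    omega

lemma idx_injective (s a : ℕ) : Function.Injective (idx s a) := by
  intro c c' h
  have h1 := idx_lt s a c
  have h2 := idx_lt s a c'
  have g1 : off a (lev c) ≤ idx s a c := Nat.le_add_right _ _
  have g2 : off a (lev c') ≤ idx s a c' := Nat.le_add_right _ _
  have hk : (lev c) = (lev c') := by
    rcases lt_trichotomy (lev c) (lev c') with h3 | h3 | h3
    · have := off_mono a (show (lev c) + 1 ≤ lev c' by omega)
      omega
    · exact h3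
    · have := off_mono a (show (lev c') + 1 ≤ lev c by omega)
      omega
  apply lev_pos_inj c c' hk
  unfold idx at h
  rw [hk] at h
  omega

/-- local matrix entry -/
def B (s a : ℕ) (c : T s a) (ν : ℕ) : ℝ :=
  if ν ≤ (pos c) then (((lev c).choose ((pos c) - ν) : ℕ) : ℝ) else 0

theorem local_indep (s a : ℕ) (q : ℕ) (g : T s a → ℝ)
    (hg : ∀ c, ¬ (q ≤ idx s a c ∧ idx s a c < q + a) → g c = 0)
    (h : ∀ ν : Fin a, ∑ c, g c * B s a c ν = 0) : g = 0 := by
  classical
  by_contra hne
  obtain ⟨c0, hc0⟩ : ∃ c, g c ≠ 0 := by
    by_contra hall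
    push Not at hall
    exact hne (funext hall)
  have hc0' : q ≤ idx s a c0 ∧ idx s a c0 < q + a := by
    by_contra hh
    exact hc0 (hg c0 hh)
  -- the level of q
  obtain ⟨k0, hk1, hk2⟩ : ∃ k0, off a k0 ≤ q ∧ q < off a (k0 + 1) := by
    have hex : ∃ k, q < off a (k + 1) := ⟨lev c0, lt_of_le_of_lt hc0'.1 (idx_lt s a c0)⟩
    refine ⟨Nat.find hex, ?_, Nat.find_spec hex⟩
    by_contra hlt
    push Not at hlt
    rcases Nat.eq_zero_or_pos (Nat.find hex) with h0 | hpos
    · rw [h0] at hlt
      simp [off] at hlt
    · have := Nat.find_min hex (show Nat.find hex - 1 < Nat.find hex by omega)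
      apply this
      rw [Nat.sub_add_cancel hpos]
      exact hlt
  have hlev : ∀ c, g c ≠ 0 → (lev c) = k0 ∨ (lev c) = k0 + 1 := by
    intro c hc
    have hc' : q ≤ idx s a c ∧ idx s a c < q + a := by
      by_contra hh; exact hc (hg c hh)
    exact level_eq_or s a c q k0 hk1 hk2 hc'.1 hc'.2
  have hblk : ∀ c, g c ≠ 0 → q ≤ idx s a c ∧ idx s a c < q + a := by
    intro c hc
    by_contra hh; exact hc (hg c hh)
  rw [off_succ] at hk2
  obtain ⟨e, he⟩ : ∃ e, q = off a k0 + e := ⟨q - off a k0, by omega⟩
  by_cases hcase : e ≤ k0
  · -- all in one level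
    have hone : ∀ c, g c ≠ 0 → (lev c) = k0 ∧ e ≤ (pos c) ∧ (pos c) < e + a := by
      intro c hc
      have h1 := hblk c hc
      rcases hlev c hc with h2 | h2
      · refine ⟨h2, ?_, ?_⟩
        · unfold idx at h1; rw [h2] at h1; omega
        · unfold idx at h1; rw [h2] at h1; omega
      · exfalso
        unfold idx at h1
        rw [h2, off_succ] at h1
        omega
    set P : ℝ[X] := ∑ c, C (g c) * X ^ (pos c) with hP
    set Fp : ℝ[X] := P * (X + C 1) ^ k0 with hF
    have hFc : ∀ n, Fp.coeff n = ∑ c, g c *
        (if (pos c) ≤ n then ((k0.choose (n - (pos c)) : ℕ) : ℝ) else 0) := by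
      intro n
      rw [hF, hP, Finset.sum_mul, Polynomial.finsetSum_coeff]
      refine Finset.sum_congr rfl fun c _ => ?_
      rw [mul_assoc, Polynomial.coeff_C_mul, mul_comm (X ^ (pos c)), Polynomial.coeff_mul_X_pow']
      split_ifs with h1
      · rw [Polynomial.coeff_X_add_C_pow]; simp
      · rfl
    have hz1 : ∀ n, n < e → Fp.coeff n = 0 := by
      intro n hn
      rw [hFc]
      refine Finset.sum_eq_zero fun c _ => ?_
      by_cases hc : g c = 0
      · rw [hc, zero_mul]
      · have := hone c hc
        rw [if_neg (by omega), mul_zero]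
    have hz2 : ∀ n, e + a + k0 ≤ n → Fp.coeff n = 0 := by
      intro n hn
      rw [hFc]
      refine Finset.sum_eq_zero fun c _ => ?_
      by_cases hc : g c = 0
      · rw [hc, zero_mul]
      · have := hone c hc
        rw [if_pos (by omega), Nat.choose_eq_zero_of_lt (by omega)]
        simp
    have hz3 : ∀ n, k0 ≤ n → n < k0 + a → Fp.coeff n = 0 := by
      intro n hn1 hn2
      rw [hFc]
      refine Eq.trans ?_ (h ⟨n - k0, by omega⟩)
      refine Finset.sum_congr rfl fun c _ => ?_
      by_cases hc : g c = 0
      · rw [hc, zero_mul, zero_mul]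
      · have hc1 := hone c hc
        unfold B
        simp only
        rw [hc1.1]
        by_cases h3 : (pos c) ≤ n
        · rw [if_pos h3]
          by_cases h4 : n - k0 ≤ (pos c)
          · rw [if_pos h4, ← Nat.choose_symm (show n - (pos c) ≤ k0 by omega)]
            congr 3
            omega
          · rw [if_neg h4, Nat.choose_eq_zero_of_lt (by omega)]
            simp
        · rw [if_neg h3, if_pos (by omega), Nat.choose_eq_zero_of_lt (by omega)]
          simp
    have hsupp : Fp.support ⊆ (Finset.Ico e k0) ∪ (Finset.Ico (k0 + a) (e + a + k0)) := by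
      intro n hn
      rw [Polynomial.mem_support_iff] at hn
      rw [Finset.mem_union, Finset.mem_Ico, Finset.mem_Ico]
      by_contra hcon
      apply hn
      by_cases h1 : n < e
      · exact hz1 n h1
      · by_cases h2 : e + a + k0 ≤ n
        · exact hz2 n h2
        · exact hz3 n (by omega) (by omega)
    have hcard : Fp.support.card ≤ k0 := by
      refine le_trans (Finset.card_le_card hsupp) (le_trans (Finset.card_union_le _ _) ?_)
      rw [Nat.card_Ico, Nat.card_Ico]
      omega
    have hF0 : Fp = 0 := by
      by_contra hFne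
      have := card_support_of_dvd k0 Fp hFne (Dvd.intro_left P rfl)
      omega
    have hP0 : P = 0 := by
      rcases mul_eq_zero.1 (hF ▸ hF0) with h1 | h1
      · exact h1
      · exfalso
        exact pow_ne_zero k0 (Polynomial.X_add_C_ne_zero (1 : ℝ)) h1
    have hcoef : P.coeff (pos c0) = g c0 := by
      rw [hP, Polynomial.finsetSum_coeff]
      rw [Finset.sum_eq_single c0]
      · simp
      · intro c _ hcc
        rw [Polynomial.coeff_C_mul, Polynomial.coeff_X_pow]
        by_cases hc : g c = 0
        · rw [hc, zero_mul]
        · by_cases h5 : (pos c0) = (pos c)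
          · exfalso
            apply hcc
            apply idx_injective s a
            unfold idx
            rw [(hone c hc).1, (hone c0 hc0).1, h5]
          · rw [if_neg h5, mul_zero]
      · intro h6; exact absurd (Finset.mem_univ _) h6
    rw [hP0, Polynomial.coeff_zero] at hcoef
    exact hc0 hcoef.symm
  · -- two levels
    push Not at hcase
    -- elements of the upper level vanish
    have hup : ∀ c, (lev c) = k0 + 1 → g c = 0 := by
      by_contra hcon
      push Not at hcon
      obtain ⟨c1, hc1k, hc1⟩ := hcon
      -- choose with maximal position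
      obtain ⟨c2, hc2mem, hc2max⟩ := Finset.exists_max_image
        (Finset.univ.filter (fun c : T s a => (lev c) = k0 + 1 ∧ g c ≠ 0))
        (fun c => (pos c)) ⟨c1, by simp [hc1k, hc1]⟩
      simp only [Finset.mem_filter, Finset.mem_univ, true_and] at hc2mem hc2max
      have hb2 := hblk c2 hc2mem.2
      have hpos2 : (pos c2) < e - k0 := by
        unfold idx at hb2
        rw [hc2mem.1, off_succ] at hb2
        omega
      have hlt : (pos c2) < a := by omega
      have heq := h ⟨(pos c2), hlt⟩
      rw [Finset.sum_eq_single c2] at heq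
      · unfold B at heq
        simp only [le_refl, if_true, Nat.sub_self, Nat.choose_zero_right, Nat.cast_one,
          mul_one] at heq
        exact hc2mem.2 heq
      · intro c _ hcc
        by_cases hc : g c = 0
        · rw [hc, zero_mul]
        · have hb := hblk c hc
          rcases hlev c hc with h7 | h7
          · -- lower level
            have : e ≤ (pos c) := by
              unfold idx at hb; rw [h7] at hb; omega
            unfold B
            simp only
            rw [if_pos (by omega), h7, Nat.choose_eq_zero_of_lt (by omega)]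
            simp
          · have hle := hc2max c ⟨h7, hc⟩
            have hne2 : (pos c) ≠ (pos c2) := by
              intro h8
              apply hcc
              apply idx_injective s a
              unfold idx
              rw [h7, hc2mem.1, h8]
            unfold B
            simp only
            rw [if_neg (by omega), mul_zero]
      · intro h6; exact absurd (Finset.mem_univ _) h6
    -- lower level
    have hlow : ∀ c, (lev c) = k0 → g c = 0 := by
      by_contra hcon
      push Not at hcon
      obtain ⟨c1, hc1k, hc1⟩ := hcon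
      obtain ⟨c2, hc2mem, hc2min⟩ := Finset.exists_min_image
        (Finset.univ.filter (fun c : T s a => (lev c) = k0 ∧ g c ≠ 0))
        (fun c => (pos c)) ⟨c1, by simp [hc1k, hc1]⟩
      simp only [Finset.mem_filter, Finset.mem_univ, true_and] at hc2mem hc2min
      have hb2 := hblk c2 hc2mem.2
      have hpos2 : e ≤ (pos c2) := by
        unfold idx at hb2; rw [hc2mem.1] at hb2; omega
      have hpos3 : (pos c2) < a + k0 := by
        have := pos_lt c2
        rw [hc2mem.1] at this
        exact this
      have hlt : (pos c2) - k0 < a := by omega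
      have heq := h ⟨(pos c2) - k0, hlt⟩
      rw [Finset.sum_eq_single c2] at heq
      · unfold B at heq
        simp only at heq
        rw [if_pos (by omega), hc2mem.1, show (pos c2) - ((pos c2) - k0) = k0 by omega,
          Nat.choose_self] at heq
        simp at heq
        exact hc2mem.2 heq
      · intro c _ hcc
        by_cases hc : g c = 0
        · rw [hc, zero_mul]
        · rcases hlev c hc with h7 | h7
          · have hle := hc2min c ⟨h7, hc⟩
            have hne2 : (pos c) ≠ (pos c2) := by
              intro h8
              apply hcc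
              apply idx_injective s a
              unfold idx
              rw [h7, hc2mem.1, h8]
            unfold B
            simp only
            rw [if_pos (by omega), h7, Nat.choose_eq_zero_of_lt (by omega)]
            simp
          · exact absurd (hup c h7) hc
      · intro h6; exact absurd (Finset.mem_univ _) h6
    rcases hlev c0 hc0 with h9 | h9
    · exact hc0 (hlow c0 h9)
    · exact hc0 (hup c0 h9)

end Pool.Agent.Helper598.LocalCells
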