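import Mathlib
import Pool.Agent.Helper598.Cells
import Pool.Agent.Helper598.LocalCells

set_option autoImplicit false

namespace Pool.Agent.Helper598.BipCells

open Polynomial Pool.Agent.Helper598.LocalCells

/-- coefficient of the remainder of a monomial -/
noncomputable def rr (s a : ℕ) (M : ℝ[X]) (ν σ : ℕ) : ℝ := ((X ^ σ : ℝ[X]) %ₘ M).coeff (s + a - ν)

/-- scaled coefficient functions -/
noncomputable def eps (s a : ℕ) (M : ℝ[X]) (c : T s a) (ν : Fin a) (t : ℝ) : ℝ :=
  ∑ d ∈ Finset.range (lev c + 1),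
    (((lev c).choose d : ℕ) : ℝ) * rr s a M ν (s + a - pos c + d) * t ^ (d + (ν : ℕ) - pos c)

lemma eps_continuous (s a : ℕ) (M : ℝ[X]) (c : T s a) (ν : Fin a) : Continuous (eps s a M c ν) := by
  unfold eps
  exact continuous_finsetSum _ fun d _ => continuous_const.mul (continuous_pow _)

lemma pos_le {s a : ℕ} (c : T s a) : pos c < s + a := by
  have h1 := pos_lt c
  have h2 := lev_lt c
  omega

lemma rr_small (s a : ℕ) (M : ℝ[X]) (hM : M.Monic) (hdeg : M.natDegree = s + 1 + a) (ν σ : ℕ)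
    (hσ : σ < s + 1 + a) : rr s a M ν σ = if σ = s + a - ν then 1 else 0 := by
  unfold rr
  have hself : (X ^ σ : ℝ[X]) %ₘ M = X ^ σ := by
    rw [modByMonic_eq_self_iff hM, degree_X_pow, Polynomial.degree_eq_natDegree hM.ne_zero, hdeg]
    exact_mod_cast hσ
  rw [hself, coeff_X_pow]
  by_cases h : σ = s + a - ν
  · simp [h]
  · rw [if_neg (fun h' => h h'.symm), if_neg h]

lemma eps_zero (s a : ℕ) (M : ℝ[X]) (hM : M.Monic) (hdeg : M.natDegree = s + 1 + a) (c : T s a)
    (ν : Fin a) : eps s a M c ν 0 = B s a c ν := by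
  unfold eps B
  have hp := pos_le c
  have hν := ν.2
  by_cases h : (ν : ℕ) ≤ pos c
  · rw [if_pos h]
    by_cases h2 : pos c - ν ≤ lev c
    · rw [Finset.sum_eq_single (pos c - ν)]
      · rw [rr_small s a M hM hdeg ν _ (by omega), if_pos (by omega)]
        rw [show pos c - (ν : ℕ) + (ν : ℕ) - pos c = 0 by omega]
        simp
      · intro d hd hne
        by_cases h3 : d + (ν : ℕ) - pos c = 0
        · rw [rr_small s a M hM hdeg ν _ (by omega), if_neg (by omega)]
          ring
        · rw [zero_pow h3, mul_zero]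
      · intro h4
        exact absurd (Finset.mem_range.2 (by omega)) h4
    · rw [Nat.choose_eq_zero_of_lt (by omega), Nat.cast_zero]
      refine Finset.sum_eq_zero fun d hd => ?_
      rw [Finset.mem_range] at hd
      by_cases h3 : d + (ν : ℕ) - pos c = 0
      · rw [rr_small s a M hM hdeg ν _ (by omega), if_neg (by omega)]
        ring
      · rw [zero_pow h3, mul_zero]
  · rw [if_neg h]
    refine Finset.sum_eq_zero fun d hd => ?_
    rw [zero_pow (by omega), mul_zero]

/-- polynomial attached to `c` at the parameter `t` -/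
noncomputable def pol (s a : ℕ) (c : T s a) (t : ℝ) : ℝ[X] :=
  X ^ (s + a - pos c) * (C t * X + 1) ^ (lev c)

lemma pol_rem (s a : ℕ) (M : ℝ[X]) (hM : M.Monic) (hdeg : M.natDegree = s + 1 + a) (c : T s a)
    (ν : Fin a) (t : ℝ) :
    t ^ (ν : ℕ) * ((pol s a c t) %ₘ M).coeff (s + a - ν) = t ^ (pos c) * eps s a M c ν t := by
  have hexp : pol s a c t = ∑ d ∈ Finset.range (lev c + 1),
      C ((((lev c).choose d : ℕ) : ℝ) * t ^ d) * X ^ (s + a - pos c + d) := by
    unfold pol
    rw [add_pow, Finset.mul_sum]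
    refine Finset.sum_congr rfl fun d _ => ?_
    rw [mul_pow, one_pow, mul_one, C_mul, C_pow, pow_add]
    simp only [map_natCast]
    ring
  have hp := pos_le c
  have hν := ν.2
  have hlin : ((pol s a c t) %ₘ M) = ∑ d ∈ Finset.range (lev c + 1),
      C ((((lev c).choose d : ℕ) : ℝ) * t ^ d) * ((X ^ (s + a - pos c + d) : ℝ[X]) %ₘ M) := by
    rw [hexp]
    have := map_sum (modByMonicHom M) (fun d => C ((((lev c).choose d : ℕ) : ℝ) * t ^ d)
      * X ^ (s + a - pos c + d)) (Finset.range (lev c + 1))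
    simp only [modByMonicHom_apply] at this
    rw [this]
    refine Finset.sum_congr rfl fun d _ => ?_
    rw [← smul_eq_C_mul, smul_modByMonic, smul_eq_C_mul]
  rw [hlin, finsetSum_coeff, Finset.mul_sum]
  unfold eps
  rw [Finset.mul_sum]
  refine Finset.sum_congr rfl fun d _ => ?_
  rw [coeff_C_mul]
  change t ^ (ν : ℕ) * ((((lev c).choose d : ℕ) : ℝ) * t ^ d * rr s a M ν (s + a - pos c + d)) = _
  by_cases h : pos c ≤ d + ν
  · have hpow : t ^ (pos c) * t ^ (d + (ν : ℕ) - pos c) = t ^ (ν : ℕ) * t ^ d := by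
      rw [← pow_add, ← pow_add]; congr 1; omega
    calc t ^ (ν : ℕ) * ((((lev c).choose d : ℕ) : ℝ) * t ^ d * rr s a M ν (s + a - pos c + d))
        = (((lev c).choose d : ℕ) : ℝ) * rr s a M ν (s + a - pos c + d) * (t ^ (ν : ℕ) * t ^ d) := by ring
      _ = _ := by rw [← hpow]; ring
  · rw [rr_small s a M hM hdeg ν _ (by omega), if_neg (by omega)]
    ring

/-- weights -/
def wt (s a : ℕ) (c : T s a) : ℕ := (a + s + 1) * lev c + pos c

lemma wt_mono (s a : ℕ) (c c' : T s a) (h : idx s a c < idx s a c') : wt s a c < wt s a c' := by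
  have h1 := idx_lt s a c'
  have h2 : off a (lev c) ≤ idx s a c := Nat.le_add_right _ _
  have hp := pos_le c
  unfold wt
  rcases lt_trichotomy (lev c) (lev c') with h3 | h3 | h3
  · have : (a + s + 1) * (lev c + 1) ≤ (a + s + 1) * lev c' := Nat.mul_le_mul_left _ h3
    rw [Nat.mul_succ] at this
    omega
  · unfold idx at h
    rw [h3] at h ⊢
    omega
  · exfalso
    have := off_mono a (show lev c' + 1 ≤ lev c by omega)
    omega

/-- Good parameters exist. -/
theorem exists_good (s a n : ℕ) (M : ℝ[X]) (hM : M.Monic) (hdeg : M.natDegree = s + 1 + a)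
    (hn : off a (s + 1) ≤ n * a) :
    ∃ t : Fin n → ℝ, (∀ j, t j ≠ 0) ∧ ∀ γ : T s a → ℝ,
      (∀ (j : Fin n) (τ : ℕ), s < τ → τ ≤ s + a →
        ((∑ c, C (γ c) * (X ^ (s + a - pos c) *
          (C (t j ^ (a + s + 2)) * X + C (t j ^ (a + s + 1))) ^ (lev c))) %ₘ M).coeff τ = 0) →
      γ = 0 := by
  obtain ⟨t, ht, hinj⟩ := Pool.Agent.Helper598.Cells.cells (idx s a) (wt s a) (idx_injective s a)
    (wt_mono s a) a (fun c ν => eps s a M c ν) (fun c ν => eps_continuous s a M c ν)
    (by
      intro q g hg h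
      apply local_indep s a q g hg
      intro ν
      refine Eq.trans ?_ (h ν)
      refine Finset.sum_congr rfl fun c _ => ?_
      rw [eps_zero s a M hM hdeg])
    n 0 (by
      intro c
      have h1 := idx_lt s a c
      have h2 := off_mono a (show lev c + 1 ≤ s + 1 by have := lev_lt c; omega)
      omega)
  refine ⟨t, ht, fun γ hγ => hinj γ (fun c hc => absurd hc (Nat.not_lt_zero _)) ?_⟩
  intro j ν
  have hν := ν.2
  have h1 := hγ j (s + a - ν) (by omega) (by omega)
  have hfac : ∀ c : T s a, (C (t j ^ (a + s + 2)) * X + C (t j ^ (a + s + 1)) : ℝ[X]) ^ (lev c)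
      = C (t j ^ ((a + s + 1) * lev c)) * (C (t j) * X + 1) ^ (lev c) := by
    intro c
    rw [pow_mul (t j) (a + s + 1) (lev c), C_pow (n := lev c), ← mul_pow]
    congr 1
    simp only [C_pow]
    ring
  have hlin : ((∑ c, C (γ c) * (X ^ (s + a - pos c) *
          (C (t j ^ (a + s + 2)) * X + C (t j ^ (a + s + 1))) ^ (lev c))) %ₘ M)
      = ∑ c, C (γ c * t j ^ ((a + s + 1) * lev c)) * ((pol s a c (t j)) %ₘ M) := by
    have := map_sum (modByMonicHom M) (fun c : T s a => C (γ c) * (X ^ (s + a - pos c) *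
          (C (t j ^ (a + s + 2)) * X + C (t j ^ (a + s + 1))) ^ (lev c))) Finset.univ
    simp only [modByMonicHom_apply] at this
    rw [this]
    refine Finset.sum_congr rfl fun c _ => ?_
    rw [hfac]
    have e : (C (γ c) * (X ^ (s + a - pos c) *
        (C (t j ^ ((a + s + 1) * lev c)) * (C (t j) * X + 1) ^ (lev c))) : ℝ[X])
        = (γ c * t j ^ ((a + s + 1) * lev c)) • pol s a c (t j) := by
      rw [smul_eq_C_mul, C_mul]; unfold pol; ring
    rw [e, smul_modByMonic, smul_eq_C_mul]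
  rw [hlin, finsetSum_coeff] at h1
  have h2 : t j ^ (ν : ℕ) * ∑ c : T s a, (C (γ c * t j ^ ((a + s + 1) * lev c)) *
      ((pol s a c (t j)) %ₘ M)).coeff (s + a - ν) = 0 := by rw [h1, mul_zero]
  rw [Finset.mul_sum] at h2
  refine Eq.trans ?_ h2
  refine Finset.sum_congr rfl fun c _ => ?_
  rw [coeff_C_mul]
  have h3 := pol_rem s a M hM hdeg c ν (t j)
  calc γ c * (t j ^ (wt s a c) * eps s a M c ν (t j))
      = γ c * t j ^ ((a + s + 1) * lev c) * (t j ^ (pos c) * eps s a M c ν (t j)) := by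
        unfold wt; rw [pow_add]; ring
    _ = _ := by rw [← h3]; ring

end Pool.Agent.Helper598.BipCells
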