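import Mathlib

/-!
Central elements of integral group rings: norms, torsion units, class sums.
-/

namespace Pool.Agent.Helper598.CenterZG

open Finset

set_option linter.unusedVariables false
set_option linter.unusedSectionVars false
set_option linter.deprecated false

/-! ### The abstract positivity lemma -/

section positivity

variable {Z : Type*} [CommRing Z] (st : Z →+* Z) (T : Z →+ ℤ)

lemma torsion_free (hpos : ∀ a, T (a * st a) = 0 → a = 0) {n : ℤ} (hn : n ≠ 0) {a : Z}
    (h : n • a = 0) : a = 0 := by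
  apply hpos
  have h1 : T ((n • a) * st (n • a)) = 0 := by rw [h]; simp
  have h2 : (n • a) * st (n • a) = (n * n) • (a * st a) := by
    rw [map_zsmul, smul_mul_smul_comm]
  rw [h2, map_zsmul, smul_eq_mul] at h1
  rcases mul_eq_zero.1 h1 with h3 | h3
  · exact absurd h3 (mul_ne_zero hn hn)
  · exact h3

lemma norm_eq (hst : ∀ a, st (st a) = a) (hnn : ∀ a, 0 ≤ T (a * st a))
    (hpos : ∀ a, T (a * st a) = 0 → a = 0) {n : ℤ} (hn : n ≠ 0) {o : ℕ} (ho : 0 < o) {y F : Z}
    (hF : F * F = n • F) (hyF : y * F = n • y) (hy : y ^ o = n ^ (o - 1) • F) :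
    y * st y = n • F := by
  have tf : ∀ a : Z, n • a = 0 → a = 0 := fun a h => torsion_free st T hpos hn h
  have hF' : st F * st F = n • st F := by rw [← map_mul, hF, map_zsmul]
  -- `F` is self-adjoint
  have hd : n • F - F * st F = 0 := by
    apply hpos
    have e : (n • F - F * st F) * st (n • F - F * st F) = 0 := by
      rw [map_sub, map_zsmul, map_mul, hst]
      simp only [zsmul_eq_mul] at hF hF' ⊢
      linear_combination (-(n : Z) * st F + st F * st F) * hF
    rw [e, map_zero]
  have hd2 : n • st F - st F * F = 0 := by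
    have := congrArg st hd
    rw [map_sub, map_zsmul, map_mul, hst, map_zero] at this
    exact this
  have hsF : st F = F := by
    have h1 : n • (st F - F) = 0 := by
      rw [smul_sub]
      rw [sub_eq_zero] at hd hd2
      rw [hd, hd2, mul_comm, sub_self]
    exact sub_eq_zero.1 (tf _ h1)
  -- powers of `F`
  have hFp : ∀ k : ℕ, F ^ (k + 1) = n ^ k • F := by
    intro k
    induction k with
    | zero => simp
    | succ k ih =>
      rw [pow_succ, ih, smul_mul_assoc, hF, smul_smul, pow_succ]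
  set p := y * st y with hp
  set P := n • F with hP
  have hsp : st p = p := by rw [hp, map_mul, hst, mul_comm]
  have hsP : st P = P := by rw [hP, map_zsmul, hsF]
  have hPF : P = F * st F := by rw [hsF, hF]
  obtain ⟨m, rfl⟩ : ∃ m, o = m + 1 := ⟨o - 1, by omega⟩
  rw [Nat.add_sub_cancel] at hy
  have hpo : p ^ (m + 1) = P ^ (m + 1) := by
    have h1 : st y ^ (m + 1) = n ^ m • F := by
      rw [← map_pow, hy, map_zsmul, hsF]
    rw [hp, mul_pow, hy, h1, hP, smul_pow, hFp m, smul_mul_smul_comm, hF, smul_smul, smul_smul]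
    congr 1
    ring
  set q := p - P with hq
  have hsq : st q = q := by rw [hq, map_sub, hsp, hsP]
  have hsum : (∑ i ∈ range (m + 1), p ^ i * P ^ (m - i)) * q = 0 := by
    have := (Commute.all p P).geom_sum₂_mul (m + 1)
    rw [hpo, sub_self] at this
    simpa using this
  have hterm : ∀ i, q * q * (p ^ i * P ^ (m - i)) =
      (q * y ^ i * F ^ (m - i)) * st (q * y ^ i * F ^ (m - i)) := by
    intro i
    rw [map_mul, map_mul, map_pow, map_pow, hsq, hp, hPF, mul_pow, mul_pow]
    ring
  have hT : ∑ i ∈ range (m + 1), T (q * q * (p ^ i * P ^ (m - i))) = 0 := by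
    rw [← map_sum, ← mul_sum]
    have : q * q * ∑ i ∈ range (m + 1), p ^ i * P ^ (m - i) = 0 := by
      rw [mul_assoc, mul_comm q (∑ i ∈ range (m + 1), _), hsum, mul_zero]
    rw [this, map_zero]
  have hT0 := (sum_eq_zero_iff_of_nonneg (fun i _ => by rw [hterm]; exact hnn _)).1 hT 0
    (mem_range.2 (Nat.succ_pos m))
  rw [hterm] at hT0
  have hq0 := hpos _ hT0
  rw [pow_zero, mul_one, Nat.sub_zero] at hq0
  have hqF : q * F = n • q := by
    rw [hq, sub_mul, smul_sub]
    congr 1
    · rw [hp, mul_comm y, mul_assoc, hyF, mul_smul_comm]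
    · rw [hP, smul_mul_assoc, hF]
  have hqFm : ∀ k : ℕ, q * F ^ k = n ^ k • q := by
    intro k
    induction k with
    | zero => simp
    | succ k ih =>
      rw [pow_succ, ← mul_assoc, ih, smul_mul_assoc, hqF, smul_smul, pow_succ]
  rw [hqFm] at hq0
  have := torsion_free st T hpos (pow_ne_zero m hn) hq0
  rwa [hq, sub_eq_zero] at this

end positivity

/-! ### Group rings -/

section group

open MonoidAlgebra

variable {G : Type} [Group G] [Fintype G]

/-- The centre of the integral group ring. -/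
noncomputable abbrev ZG (G : Type) [Group G] : Subring (MonoidAlgebra ℤ G) :=
  Subring.center (MonoidAlgebra ℤ G)

lemma coeff_mul_fintype (a b : MonoidAlgebra ℤ G) (g : G) :
    (a * b).coeff g = ∑ h, a.coeff h * b.coeff (h⁻¹ * g) := by
  rw [coeff_mul_apply_left, Finsupp.sum_fintype]
  simp

/-- The involution. -/
noncomputable def stA (a : MonoidAlgebra ℤ G) : MonoidAlgebra ℤ G :=
  ofCoeff (a.coeff.equivMapDomain (Equiv.inv G))

lemma coeff_stA (a : MonoidAlgebra ℤ G) (g : G) : (stA a).coeff g = a.coeff g⁻¹ := by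
  simp [stA, Finsupp.equivMapDomain_apply]

lemma ext' {a b : MonoidAlgebra ℤ G} (h : ∀ g, a.coeff g = b.coeff g) : a = b :=
  coeff_injective (Finsupp.ext h)

lemma stA_mul (a b : MonoidAlgebra ℤ G) : stA (a * b) = stA b * stA a := by
  apply ext'
  intro g
  rw [coeff_stA, coeff_mul_fintype, coeff_mul_fintype]
  refine Fintype.sum_equiv (Equiv.mulLeft g) _ _ (fun h => ?_)
  simp only [coeff_stA, Equiv.coe_mulLeft, mul_inv_rev, inv_inv, inv_mul_cancel_left]
  ring

lemma stA_stA (a : MonoidAlgebra ℤ G) : stA (stA a) = a := by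
  apply ext'
  intro g
  rw [coeff_stA, coeff_stA, inv_inv]

lemma stA_add (a b : MonoidAlgebra ℤ G) : stA (a + b) = stA a + stA b := by
  apply ext'
  intro g
  rw [coeff_stA, coeff_add, coeff_add, Finsupp.add_apply, Finsupp.add_apply, coeff_stA, coeff_stA]

lemma stA_one : stA (1 : MonoidAlgebra ℤ G) = 1 := by
  classical
  apply ext'
  intro g
  rw [coeff_stA, one_def, coeff_single_apply, coeff_single_apply]
  congr 1
  simp only [eq_iff_iff]
  constructor
  · intro h; rw [← inv_inv g, ← h, inv_one]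
  · intro h; rw [← h, inv_one]

lemma stA_mem {a : MonoidAlgebra ℤ G} (ha : a ∈ ZG G) : stA a ∈ ZG G := by
  rw [Subring.mem_center_iff] at ha ⊢
  intro b
  have := congrArg stA (ha (stA b))
  rw [stA_mul, stA_mul, stA_stA] at this
  exact this.symm

/-- The involution on the centre. -/
noncomputable def st : ↥(ZG G) →+* ↥(ZG G) where
  toFun a := ⟨stA a.1, stA_mem a.2⟩
  map_one' := Subtype.ext stA_one
  map_mul' a b := by
    rw [mul_comm a b]
    exact Subtype.ext (stA_mul b.1 a.1)
  map_zero' := by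
    apply Subtype.ext
    apply ext'
    intro g
    show (stA (0 : MonoidAlgebra ℤ G)).coeff g = (0 : MonoidAlgebra ℤ G).coeff g
    rw [coeff_stA]
    rfl
  map_add' a b := Subtype.ext (stA_add a.1 b.1)

/-- The trace on the centre. -/
noncomputable def T : ↥(ZG G) →+ ℤ where
  toFun a := a.1.coeff 1
  map_zero' := rfl
  map_add' a b := rfl

/-- The sum of the squares of the coefficients. -/
def N2 (a : MonoidAlgebra ℤ G) : ℤ := ∑ g, a.coeff g ^ 2

lemma T_mul_st (a : ↥(ZG G)) : T (a * st a) = N2 a.1 := by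
  show (a.1 * stA a.1).coeff 1 = _
  rw [coeff_mul_fintype]
  refine Finset.sum_congr rfl (fun g _ => ?_)
  rw [coeff_stA, mul_one, inv_inv, sq]

lemma T_nonneg (a : ↥(ZG G)) : 0 ≤ T (a * st a) := by
  rw [T_mul_st]
  exact Finset.sum_nonneg (fun g _ => sq_nonneg _)

lemma T_pos (a : ↥(ZG G)) (h : T (a * st a) = 0) : a = 0 := by
  rw [T_mul_st, N2, Finset.sum_eq_zero_iff_of_nonneg (fun g _ => sq_nonneg _)] at h
  apply Subtype.ext
  apply ext'
  intro g
  have := h g (mem_univ g)
  rw [pow_eq_zero_iff two_ne_zero] at this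
  rw [this]
  rfl

lemma norm_formula {n : ℤ} (hn : n ≠ 0) {o : ℕ} (ho : 0 < o) {y F : ↥(ZG G)}
    (hF : F * F = n • F) (hyF : y * F = n • y) (hy : y ^ o = n ^ (o - 1) • F) :
    N2 y.1 = n * T F := by
  have h := norm_eq st T (fun a => Subtype.ext (stA_stA a.1)) T_nonneg T_pos hn ho hF hyF hy
  rw [← T_mul_st, h, map_zsmul, smul_eq_mul]

/-- Central torsion units have norm one. -/
lemma torsion_unit {u : ↥(ZG G)} {o : ℕ} (ho : 0 < o) (hu : u ^ o = 1) : N2 u.1 = 1 := by
  have := norm_formula (n := 1) one_ne_zero ho (y := u) (F := 1) (by simp) (by simp)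
    (by simp [hu])
  rw [this]
  show 1 * ((1 : MonoidAlgebra ℤ G)).coeff 1 = 1
  simp

/-- A central torsion unit different from `± 1` has trace zero. -/
lemma torsion_unit_trace {u : ↥(ZG G)} {o : ℕ} (ho : 0 < o) (hu : u ^ o = 1) (h1 : u ≠ 1)
    (h2 : u ≠ -1) : T u = 0 := by
  classical
  by_contra hT
  have hN := torsion_unit ho hu
  have hsq : 1 ≤ u.1.coeff 1 ^ 2 := by
    have : 0 < u.1.coeff 1 ^ 2 := by
      rw [sq_pos_iff]
      exact hT
    omega
  have hrest : ∑ g ∈ univ.erase (1 : G), u.1.coeff g ^ 2 = 0 ∧ u.1.coeff 1 ^ 2 = 1 := by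
    have h3 : u.1.coeff 1 ^ 2 + ∑ g ∈ univ.erase (1 : G), u.1.coeff g ^ 2 = 1 := by
      rw [← hN, N2]
      exact add_sum_erase univ (fun g => u.1.coeff g ^ 2) (mem_univ _)
    have h4 : 0 ≤ ∑ g ∈ univ.erase (1 : G), u.1.coeff g ^ 2 := sum_nonneg (fun g _ => sq_nonneg _)
    constructor <;> omega
  have hz : ∀ g : G, g ≠ 1 → u.1.coeff g = 0 := by
    intro g hg
    have := (sum_eq_zero_iff_of_nonneg (fun g _ => sq_nonneg _)).1 hrest.1 g
      (mem_erase.2 ⟨hg, mem_univ _⟩)
    exact pow_eq_zero_iff two_ne_zero |>.1 this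
  have hone : ∀ g : G, g ≠ 1 → (1 : MonoidAlgebra ℤ G).coeff g = 0 := by
    intro g hg
    rw [one_def, coeff_single_apply, if_neg (Ne.symm hg)]
  have hcases : (u.1.coeff 1 - 1) * (u.1.coeff 1 + 1) = 0 := by linarith [hrest.2]
  rcases mul_eq_zero.1 hcases with h | h
  · apply h1
    apply Subtype.ext
    apply ext'
    intro g
    by_cases hg : g = 1
    · subst hg
      show u.1.coeff 1 = (1 : MonoidAlgebra ℤ G).coeff 1
      rw [coeff_one_one]
      omega
    · rw [hz g hg]
      exact (hone g hg).symm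
  · apply h2
    apply Subtype.ext
    apply ext'
    intro g
    show u.1.coeff g = - (1 : MonoidAlgebra ℤ G).coeff g
    by_cases hg : g = 1
    · subst hg
      rw [coeff_one_one]
      omega
    · rw [hz g hg, hone g hg, neg_zero]

/-- Membership in the centre. -/
lemma mem_ZG_iff {a : MonoidAlgebra ℤ G} :
    a ∈ ZG G ↔ ∀ k h : G, a.coeff (k * h * k⁻¹) = a.coeff h := by
  rw [Subring.mem_center_iff]
  constructor
  · intro ha k h
    have h1 := congrArg (fun b : MonoidAlgebra ℤ G => b.coeff (k * h)) (ha (single k 1))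
    simp only [coeff_single_mul_apply, coeff_mul_single_apply, one_mul, mul_one,
      inv_mul_cancel_left] at h1
    exact h1.symm
  · intro ha b
    apply ext'
    intro g
    rw [coeff_mul_fintype, coeff_mul_apply_right, Finsupp.sum_fintype _ _ (by simp)]
    refine Finset.sum_congr rfl (fun h _ => ?_)
    have := ha h (h⁻¹ * g)
    rw [mul_inv_cancel_left] at this
    rw [this, mul_comm]

lemma coeff_eq_of_conj {a : MonoidAlgebra ℤ G} (ha : a ∈ ZG G) {g h : G}
    (hgh : ConjClasses.mk g = ConjClasses.mk h) : a.coeff g = a.coeff h := by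
  rw [ConjClasses.mk_eq_mk_iff_isConj, isConj_iff] at hgh
  obtain ⟨k, rfl⟩ := hgh
  exact (mem_ZG_iff.1 ha k g).symm

open Classical in
/-- Class sums. -/
noncomputable def classSum (c : ConjClasses G) : MonoidAlgebra ℤ G :=
  ∑ g ∈ Finset.univ.filter (fun g : G => ConjClasses.mk g = c), MonoidAlgebra.single g (1 : ℤ)

open Classical in
lemma coeff_sum_single (p : G → Prop) [DecidablePred p] (h : G) :
    (∑ g ∈ Finset.univ.filter p, MonoidAlgebra.single g (1 : ℤ)).coeff h = if p h then 1 else 0 := by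
  rw [coeff_sum, Finsupp.finsetSum_apply]
  simp only [coeff_single_apply]
  rw [Finset.sum_ite_eq' (Finset.univ.filter p) h]
  simp

open Classical in
lemma coeff_classSum (c : ConjClasses G) (h : G) :
    (classSum c).coeff h = if ConjClasses.mk h = c then 1 else 0 := coeff_sum_single _ h

lemma classSum_mem (c : ConjClasses G) : classSum c ∈ ZG G := by
  classical
  rw [mem_ZG_iff]
  intro k h
  rw [coeff_classSum, coeff_classSum]
  have : ConjClasses.mk (k * h * k⁻¹) = ConjClasses.mk h := by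
    rw [ConjClasses.mk_eq_mk_iff_isConj]
    exact (isConj_iff.2 ⟨k, rfl⟩).symm
  rw [this]

/-- Class sums as central elements. -/
noncomputable def csZ (c : ConjClasses G) : ↥(ZG G) := ⟨classSum c, classSum_mem c⟩

open Classical in
/-- The central group elements as elements of the centre of the group ring. -/
noncomputable def uZ (z : G) : ↥(ZG G) :=
  if h : z ∈ Subgroup.center G then ⟨single z 1, mem_ZG_iff.2 (fun k x => by
    rw [coeff_single_apply, coeff_single_apply]
    congr 1
    rw [eq_iff_iff]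
    have hz := Subgroup.mem_center_iff.1 h
    constructor
    · intro h1
      rw [h1]
      have h2 := hz k
      rw [h1] at h2
      have : k * (k * x * k⁻¹) = k * x := by rw [h2]; group
      have h3 := mul_left_cancel this
      exact h3
    · rintro rfl
      rw [hz k]
      group)⟩ else 0

lemma uZ_val {z : G} (h : z ∈ Subgroup.center G) : (uZ z).1 = single z 1 := by
  simp [uZ, h]

lemma uZ_one : uZ (1 : G) = 1 := by
  apply Subtype.ext
  rw [uZ_val (Subgroup.one_mem _)]
  rfl

lemma uZ_mul {z w : G} (hz : z ∈ Subgroup.center G) (hw : w ∈ Subgroup.center G) :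
    uZ z * uZ w = uZ (z * w) := by
  apply Subtype.ext
  rw [uZ_val (Subgroup.mul_mem _ hz hw)]
  show (uZ z).1 * (uZ w).1 = _
  rw [uZ_val hz, uZ_val hw, single_mul_single, one_mul]

lemma uZ_pow {z : G} (hz : z ∈ Subgroup.center G) (k : ℕ) : uZ z ^ k = uZ (z ^ k) := by
  induction k with
  | zero => rw [pow_zero, pow_zero, uZ_one]
  | succ k ih => rw [pow_succ, ih, uZ_mul (Subgroup.pow_mem _ hz k) hz, pow_succ]

lemma uZ_inj {z : G} (hz : z ∈ Subgroup.center G) (h : uZ z = 1) : z = 1 := by
  have h1 := congrArg Subtype.val h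
  rw [uZ_val hz] at h1
  have h2 : (single z (1 : ℤ) : MonoidAlgebra ℤ G) = single 1 1 := h1
  rwa [single_left_inj one_ne_zero] at h2

lemma uZ_ne_neg_one {z : G} (hz : z ∈ Subgroup.center G) : uZ z ≠ -1 := by
  classical
  intro h
  have h1 : (uZ z).1.coeff 1 = ((-1 : ↥(ZG G)).1).coeff 1 := by rw [h]
  rw [uZ_val hz, coeff_single_apply] at h1
  have h2 : ((-1 : ↥(ZG G)).1).coeff 1 = -1 := by
    show - (1 : MonoidAlgebra ℤ G).coeff 1 = -1
    rw [coeff_one_one]
  rw [h2] at h1
  split_ifs at h1 <;> omega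

/-- The central elements that move `g` inside its conjugacy class. -/
def NS (g : G) : Subgroup G where
  carrier := {z | z ∈ Subgroup.center G ∧ IsConj g (z * g)}
  one_mem' := ⟨Subgroup.one_mem _, by rw [one_mul]⟩
  mul_mem' := by
    rintro z w ⟨hz, hz'⟩ ⟨hw, hw'⟩
    refine ⟨Subgroup.mul_mem _ hz hw, ?_⟩
    rw [isConj_iff] at hz' hw' ⊢
    obtain ⟨a, ha⟩ := hz'
    obtain ⟨b, hb⟩ := hw'
    refine ⟨a * b, ?_⟩
    have h1 : a * b * g * (a * b)⁻¹ = a * (b * g * b⁻¹) * a⁻¹ := by group
    have h2 := Subgroup.mem_center_iff.1 hw a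
    rw [h1, hb, ← mul_assoc a w g, h2, mul_assoc w a g, mul_assoc w (a * g), ha, ← mul_assoc,
      Subgroup.mem_center_iff.1 hz w]
  inv_mem' := by
    rintro z ⟨hz, hz'⟩
    refine ⟨Subgroup.inv_mem _ hz, ?_⟩
    rw [isConj_iff] at hz' ⊢
    obtain ⟨a, ha⟩ := hz'
    refine ⟨a⁻¹, ?_⟩
    have h1 : g = a⁻¹ * (z * g) * a := by rw [← ha]; group
    have h2 := Subgroup.mem_center_iff.1 hz a⁻¹
    have h3 : g = z * (a⁻¹ * g * a) := by
      conv_lhs => rw [h1]
      rw [← mul_assoc a⁻¹ z g, h2]
      group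
    rw [inv_inv, eq_inv_mul_iff_mul_eq]
    exact h3.symm

open Classical in
/-- The sum of the elements of `NS g`. -/
noncomputable def FZ (g : G) : ↥(ZG G) := ∑ z ∈ Finset.univ.filter (fun z => z ∈ NS g), uZ z

lemma uZ_mul_FZ {g z : G} (hz : z ∈ NS g) : uZ z * FZ g = FZ g := by
  classical
  unfold FZ
  rw [mul_sum]
  refine Finset.sum_bij' (fun w _ => z * w) (fun w _ => z⁻¹ * w) ?_ ?_ ?_ ?_ ?_
  · intro w hw
    rw [mem_filter] at hw ⊢
    exact ⟨mem_univ _, (NS g).mul_mem hz hw.2⟩
  · intro w hw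
    rw [mem_filter] at hw ⊢
    exact ⟨mem_univ _, (NS g).mul_mem ((NS g).inv_mem hz) hw.2⟩
  · intro w _; simp
  · intro w _; simp
  · intro w hw
    rw [mem_filter] at hw
    exact uZ_mul hz.1 hw.2.1

open Classical in
/-- The order of `NS g`. -/
noncomputable def nn (g : G) : ℤ := ((Finset.univ.filter (fun z => z ∈ NS g)).card : ℤ)

lemma nn_pos (g : G) : 0 < nn g := by
  classical
  unfold nn
  have : (Finset.univ.filter (fun z => z ∈ NS g)).Nonempty :=
    ⟨1, mem_filter.2 ⟨mem_univ _, (NS g).one_mem⟩⟩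
  exact_mod_cast this.card_pos

lemma FZ_sq (g : G) : FZ g * FZ g = nn g • FZ g := by
  classical
  have h0 : FZ g * FZ g = (∑ z ∈ Finset.univ.filter (fun z => z ∈ NS g), uZ z) * FZ g := rfl
  rw [h0, sum_mul]
  rw [Finset.sum_congr rfl (fun z hz => uZ_mul_FZ (mem_filter.1 hz).2), sum_const, nn,
    natCast_zsmul]

lemma FZ_pow (g : G) (k : ℕ) : FZ g ^ (k + 1) = nn g ^ k • FZ g := by
  induction k with
  | zero => simp
  | succ k ih => rw [pow_succ, ih, smul_mul_assoc, FZ_sq, smul_smul, pow_succ]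

open Classical in
lemma coeff_FZ (g h : G) : (FZ g).1.coeff h = if h ∈ NS g then 1 else 0 := by
  have : (FZ g).1 = ∑ z ∈ Finset.univ.filter (fun z => z ∈ NS g), MonoidAlgebra.single z (1 : ℤ) := by
    unfold FZ
    rw [AddSubmonoidClass.coe_finsetSum]
    refine Finset.sum_congr rfl (fun z hz => ?_)
    exact uZ_val (mem_filter.1 hz).2.1
  rw [this, coeff_sum_single]

end group

end Pool.Agent.Helper598.CenterZG
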