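import Pool.Agent.Helper598.CenterZG

/-!
Isomorphisms between centres of integral group rings of groups of class at most two.
-/

namespace Pool.Agent.Helper598.CenterZG

open Finset MonoidAlgebra
open scoped commutatorElement

set_option linter.unusedVariables false
set_option linter.unusedSectionVars false
set_option linter.deprecated false

variable {G H : Type} [Group G] [Fintype G] [Group H] [Fintype H]

lemma mem_NS_iff (hG : commutator G ≤ Subgroup.center G) (g h : G) :
    g⁻¹ * h ∈ NS g ↔ ConjClasses.mk h = ConjClasses.mk g := by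
  constructor
  · rintro ⟨h1, h2⟩
    have h3 := Subgroup.mem_center_iff.1 h1 g
    rw [← h3, mul_inv_cancel_left] at h2
    exact (ConjClasses.mk_eq_mk_iff_isConj.2 h2).symm
  · intro h1
    have h2 : IsConj g h := ConjClasses.mk_eq_mk_iff_isConj.1 h1.symm
    have h2' := h2
    rw [isConj_iff] at h2
    obtain ⟨k, rfl⟩ := h2
    have h3 : g⁻¹ * (k * g * k⁻¹) ∈ Subgroup.center G := by
      apply hG
      have e : g⁻¹ * (k * g * k⁻¹) = ⁅g⁻¹, k⁆ := by
        rw [commutatorElement_def]
        group
      rw [e, commutator_def]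
      exact Subgroup.commutator_mem_commutator (Subgroup.mem_top _) (Subgroup.mem_top _)
    refine ⟨h3, ?_⟩
    have h4 := Subgroup.mem_center_iff.1 h3 g
    rw [← h4, mul_inv_cancel_left]
    exact h2'

lemma classSum_eq (hG : commutator G ≤ Subgroup.center G) (g : G) :
    classSum (ConjClasses.mk g) = single g 1 * (FZ g).1 := by
  classical
  apply ext'
  intro h
  rw [coeff_classSum, coeff_single_mul_apply, one_mul, coeff_FZ]
  simp only [mem_NS_iff hG g h]

lemma norm_pres (hG : commutator G ≤ Subgroup.center G) (σ : ↥(ZG G) ≃+* ↥(ZG H)) (g : G) :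
    N2 (σ (csZ (ConjClasses.mk g))).1 = nn g := by
  classical
  set x := csZ (ConjClasses.mk g) with hx
  have hx1 : x.1 = single g 1 * (FZ g).1 := classSum_eq hG g
  have hcomm : Commute (single g (1 : ℤ)) (FZ g).1 :=
    (Subring.mem_center_iff.1 (FZ g).2 (single g 1))
  have hFF : (FZ g).1 * (FZ g).1 = nn g • (FZ g).1 := congrArg Subtype.val (FZ_sq g)
  have hxF : x * FZ g = nn g • x := by
    apply Subtype.ext
    show x.1 * (FZ g).1 = nn g • x.1
    rw [hx1, mul_assoc, hFF, mul_smul_comm]
  have ho : 0 < orderOf g := orderOf_pos g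
  obtain ⟨m, hm⟩ : ∃ m, orderOf g = m + 1 := ⟨orderOf g - 1, by omega⟩
  have hxo : x ^ (orderOf g) = nn g ^ (orderOf g - 1) • FZ g := by
    have h1 : x ^ (orderOf g) = FZ g ^ (orderOf g) := by
      apply Subtype.ext
      rw [SubmonoidClass.coe_pow, SubmonoidClass.coe_pow, hx1, hcomm.mul_pow, single_pow,
        pow_orderOf_eq_one, one_pow, ← one_def, one_mul]
    rw [h1, hm, FZ_pow, Nat.add_sub_cancel]
  have hF : σ (FZ g) * σ (FZ g) = nn g • σ (FZ g) := by
    rw [← map_mul, FZ_sq, map_zsmul]
  have hyF : σ x * σ (FZ g) = nn g • σ x := by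
    rw [← map_mul, hxF, map_zsmul]
  have hy : (σ x) ^ (orderOf g) = nn g ^ (orderOf g - 1) • σ (FZ g) := by
    rw [← map_pow, hxo, map_zsmul]
  rw [norm_formula (nn_pos g).ne' ho hF hyF hy]
  have hT : T (σ (FZ g)) = 1 := by
    rw [FZ, map_sum, map_sum, Finset.sum_eq_single 1]
    · rw [uZ_one, map_one]
      show (1 : MonoidAlgebra ℤ H).coeff 1 = 1
      rw [coeff_one_one]
    · intro z hz hz1
      have hzc : z ∈ Subgroup.center G := (mem_filter.1 hz).2.1
      apply torsion_unit_trace (orderOf_pos z)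
      · rw [← map_pow, uZ_pow hzc, pow_orderOf_eq_one, uZ_one, map_one]
      · intro h
        apply hz1
        apply uZ_inj hzc
        apply σ.injective
        rw [h, map_one]
      · intro h
        apply uZ_ne_neg_one hzc
        apply σ.injective
        rw [h, map_neg, map_one]
    · intro h
      exact absurd (mem_filter.2 ⟨mem_univ _, (NS g).one_mem⟩) h
  rw [hT, mul_one]

lemma norm_pres' (hG : commutator G ≤ Subgroup.center G) (σ : ↥(ZG G) ≃+* ↥(ZG H))
    (c : ConjClasses G) : N2 (σ (csZ c)).1 = N2 (classSum c) := by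
  obtain ⟨g, rfl⟩ := ConjClasses.exists_rep c
  rw [norm_pres hG σ g]
  exact (norm_pres hG (RingEquiv.refl _) g).symm

lemma N2_le {y : MonoidAlgebra ℤ H} (hy : y ∈ ZG H) {h0 : H} (h : y.coeff h0 ≠ 0) :
    N2 (classSum (ConjClasses.mk h0)) ≤ N2 y ∧
      (N2 (classSum (ConjClasses.mk h0)) = N2 y →
        ∃ ε : ℤ, (ε = 1 ∨ ε = -1) ∧ y = ε • classSum (ConjClasses.mk h0)) := by
  classical
  have hpt : ∀ x ∈ (univ : Finset H),
      (classSum (ConjClasses.mk h0)).coeff x ^ 2 ≤ y.coeff x ^ 2 := by
    intro x _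
    rw [coeff_classSum]
    split_ifs with hx
    · rw [coeff_eq_of_conj hy hx]
      have : 0 < y.coeff h0 ^ 2 := by rw [sq_pos_iff]; exact h
      linarith
    · simp only [ne_eq, OfNat.ofNat_ne_zero, not_false_eq_true, zero_pow]
      exact sq_nonneg _
  refine ⟨sum_le_sum hpt, fun heq => ?_⟩
  have hpt2 := (sum_eq_sum_iff_of_le hpt).1 heq
  have h1 := hpt2 h0 (mem_univ _)
  rw [coeff_classSum, if_pos rfl] at h1
  refine ⟨y.coeff h0, ?_, ?_⟩
  · have : (y.coeff h0 - 1) * (y.coeff h0 + 1) = 0 := by linarith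
    rcases mul_eq_zero.1 this with h2 | h2
    · left; omega
    · right; omega
  · apply ext'
    intro x
    rw [coeff_smul_apply, coeff_classSum, smul_eq_mul]
    split_ifs with hx
    · rw [mul_one]
      exact coeff_eq_of_conj hy hx
    · have h2 := hpt2 x (mem_univ _)
      rw [coeff_classSum, if_neg hx] at h2
      rw [mul_zero]
      exact pow_eq_zero_iff two_ne_zero |>.1 h2.symm

lemma mk_out (c : ConjClasses G) : ConjClasses.mk (Quotient.out c : G) = c := Quotient.out_eq c

lemma sum_classSums [Fintype (ConjClasses H)] (y : ↥(ZG H)) :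
    y = ∑ d : ConjClasses H, y.1.coeff (Quotient.out d : H) • csZ d := by
  classical
  apply Subtype.ext
  rw [AddSubmonoidClass.coe_finsetSum]
  apply ext'
  intro h
  rw [coeff_sum, Finsupp.finsetSum_apply, Finset.sum_eq_single (ConjClasses.mk h)]
  · show _ = (y.1.coeff _ • classSum _).coeff h
    rw [coeff_smul_apply, coeff_classSum, if_pos rfl, smul_eq_mul, mul_one]
    exact coeff_eq_of_conj y.2 (mk_out _).symm
  · intro d _ hd
    show (y.1.coeff _ • classSum _).coeff h = 0
    rw [coeff_smul_apply, coeff_classSum, if_neg (Ne.symm hd), smul_zero]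
  · intro h'; exact absurd (mem_univ _) h'

theorem main_ind : ∀ (t : ℕ) (G H : Type) [Group G] [Fintype G] [Group H] [Fintype H],
    commutator G ≤ Subgroup.center G → commutator H ≤ Subgroup.center H →
    ∀ (σ : ↥(ZG G) ≃+* ↥(ZG H)) (c : ConjClasses G), N2 (classSum c) = t →
    ∃ d : ConjClasses H, ∃ ε : ℤ, (ε = 1 ∨ ε = -1) ∧ σ (csZ c) = ε • csZ d ∧
      N2 (classSum d) = t := by
  intro t
  induction t using Nat.strong_induction_on with
  | _ t ih =>
    intro G H _ _ _ _ hG hH σ c hc
    classical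
    have hN : N2 (σ (csZ c)).1 = t := by rw [norm_pres' hG, hc]
    by_cases hcase : ∃ h0, (σ (csZ c)).1.coeff h0 ≠ 0 ∧ N2 (classSum (ConjClasses.mk h0)) = t
    · obtain ⟨h0, h1, h2⟩ := hcase
      obtain ⟨ε, hε, hy⟩ := (N2_le (σ (csZ c)).2 h1).2 (by rw [h2, hN])
      exact ⟨_, ε, hε, Subtype.ext hy, h2⟩
    · exfalso
      push Not at hcase
      haveI : Fintype (ConjClasses H) := Fintype.ofFinite _
      have h1 := congrArg σ.symm (sum_classSums (σ (csZ c)))
      rw [RingEquiv.symm_apply_apply, map_sum] at h1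
      have h2 : (csZ c).1.coeff (Quotient.out c : G) = 1 := by
        show (classSum c).coeff _ = 1
        rw [coeff_classSum, if_pos (mk_out c)]
      have h3 : ∀ d : ConjClasses H,
          (σ.symm ((σ (csZ c)).1.coeff (Quotient.out d : H) • csZ d)).1.coeff
            (Quotient.out c : G) = 0 := by
        intro d
        by_cases h0 : (σ (csZ c)).1.coeff (Quotient.out d : H) = 0
        · rw [h0, zero_smul, map_zero]
          rfl
        · have h4 := (N2_le (σ (csZ c)).2 h0).1
          have h5 := hcase _ h0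
          rw [mk_out] at h4 h5
          rw [hN] at h4
          have h6 : N2 (classSum d) < t := lt_of_le_of_ne h4 h5
          have h7 : 0 ≤ N2 (classSum d) := sum_nonneg (fun g _ => sq_nonneg _)
          obtain ⟨c', ε, hε, hc', hN'⟩ := ih (N2 (classSum d)).toNat (by omega) H G hH hG σ.symm d
            (by rw [Int.toNat_of_nonneg h7])
          rw [map_zsmul, hc']
          have hne : c ≠ c' := by
            rintro rfl
            rw [hc, Int.toNat_of_nonneg h7] at hN'
            omega
          show ((σ (csZ c)).1.coeff (Quotient.out d : H) • (ε • classSum c')).coeff _ = 0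
          rw [coeff_smul_apply, coeff_smul_apply, coeff_classSum, mk_out, if_neg hne, smul_zero,
            smul_zero]
      have h4 : (csZ c).1.coeff (Quotient.out c : G) = 0 := by
        rw [h1, AddSubmonoidClass.coe_finsetSum, coeff_sum, Finsupp.finsetSum_apply]
        exact Finset.sum_eq_zero (fun d _ => h3 d)
      rw [h2] at h4
      exact one_ne_zero h4

lemma csZ_inj {c d : ConjClasses G} {ε : ℤ} (h : csZ c = ε • csZ d) (hε : ε ≠ 0) : c = d := by
  classical
  by_contra hne
  have h1 : (classSum c).coeff (Quotient.out d : G) =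
      (ε • classSum d).coeff (Quotient.out d : G) := by
    rw [show classSum c = ε • classSum d from congrArg Subtype.val h]
  rw [coeff_smul_apply, coeff_classSum, coeff_classSum, mk_out, if_neg (Ne.symm hne), if_pos rfl,
    smul_eq_mul, mul_one] at h1
  exact hε h1.symm

theorem main (hG : commutator G ≤ Subgroup.center G) (hH : commutator H ≤ Subgroup.center H)
    (σ : ↥(ZG G) ≃+* ↥(ZG H)) :
    ∃ π : ConjClasses G ≃ ConjClasses H, ∃ ε : ConjClasses G → ℤ,
      (∀ c, ε c = 1 ∨ ε c = -1) ∧ ∀ c, σ (csZ c) = ε c • csZ (π c) := by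
  classical
  have key : ∀ c : ConjClasses G, ∃ d : ConjClasses H, ∃ ε : ℤ, (ε = 1 ∨ ε = -1) ∧
      σ (csZ c) = ε • csZ d := by
    intro c
    have h7 : 0 ≤ N2 (classSum c) := sum_nonneg (fun g _ => sq_nonneg _)
    obtain ⟨d, ε, h1, h2, -⟩ := main_ind (N2 (classSum c)).toNat G H hG hH σ c
      (by rw [Int.toNat_of_nonneg h7])
    exact ⟨d, ε, h1, h2⟩
  have key' : ∀ d : ConjClasses H, ∃ c : ConjClasses G, ∃ ε : ℤ, (ε = 1 ∨ ε = -1) ∧
      σ.symm (csZ d) = ε • csZ c := by
    intro d
    have h7 : 0 ≤ N2 (classSum d) := sum_nonneg (fun g _ => sq_nonneg _)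
    obtain ⟨c, ε, h1, h2, -⟩ := main_ind (N2 (classSum d)).toNat H G hH hG σ.symm d
      (by rw [Int.toNat_of_nonneg h7])
    exact ⟨c, ε, h1, h2⟩
  choose π ε hε hπ using key
  have hne : ∀ c, ε c ≠ 0 := fun c => by rcases hε c with h | h <;> rw [h] <;> norm_num
  have hbij : Function.Bijective π := by
    constructor
    · intro c c' hcc
      have h1 := hπ c
      have h2 := hπ c'
      rw [hcc] at h1
      have h3 : σ (csZ c) = σ ((ε c * ε c') • csZ c') := by
        rw [map_zsmul, h1, h2, smul_smul]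
        congr 1
        rcases hε c' with h | h <;> rw [h] <;> ring
      exact csZ_inj (σ.injective h3) (mul_ne_zero (hne c) (hne c'))
    · intro d
      obtain ⟨c, ε', hε', hc⟩ := key' d
      refine ⟨c, ?_⟩
      have h1 : csZ d = ε' • σ (csZ c) := by
        rw [← map_zsmul, ← hc, RingEquiv.apply_symm_apply]
      rw [hπ c, smul_smul] at h1
      have hne' : ε' ≠ 0 := by rcases hε' with h | h <;> rw [h] <;> norm_num
      exact (csZ_inj h1 (mul_ne_zero hne' (hne c))).symm
  exact ⟨Equiv.ofBijective π hbij, ε, hε, hπ⟩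

end Pool.Agent.Helper598.CenterZG
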