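import Pool.Agent.Helper598.CenterZG2

/-!
Every isomorphism between centres of integral group rings commutes with the involution.
-/

namespace Pool.Agent.Helper598.CenterZG

open Finset MonoidAlgebra

set_option linter.unusedVariables false
set_option linter.unusedSectionVars false
set_option linter.deprecated false

section frobenius

variable {G : Type} [Group G] [Fintype G]

/-- The regular representation modulo `p`. -/
noncomputable def MM (p : ℕ) (a : MonoidAlgebra ℤ G) : Matrix G G (ZMod p) :=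
  Matrix.of fun g h => ((a.coeff (g * h⁻¹) : ℤ) : ZMod p)

lemma MM_mul (p : ℕ) (a b : MonoidAlgebra ℤ G) : MM p (a * b) = MM p a * MM p b := by
  ext g h
  simp only [MM, Matrix.of_apply, Matrix.mul_apply]
  rw [coeff_mul_fintype]
  push_cast
  refine Fintype.sum_equiv ((Equiv.inv G).trans (Equiv.mulRight g)) _ _ (fun k => ?_)
  simp only [Equiv.trans_apply, Equiv.inv_apply, Equiv.coe_mulRight, mul_inv_rev, inv_inv,
    mul_inv_cancel_left, mul_assoc]

lemma MM_pow [DecidableEq G] (p : ℕ) (a : MonoidAlgebra ℤ G) (k : ℕ) :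
    MM p (a ^ k) = MM p a ^ k := by
  induction k with
  | zero =>
    rw [pow_zero, pow_zero]
    ext g h
    simp only [MM, Matrix.of_apply, Matrix.one_apply]
    rw [one_def, coeff_single_apply]
    by_cases hgh : g = h
    · subst hgh
      simp
    · rw [if_neg, if_neg hgh]
      · simp
      · intro h1
        apply hgh
        rw [← mul_inv_eq_one]
        exact h1.symm
  | succ k ih => rw [pow_succ, MM_mul, ih, pow_succ]

lemma trace_MM (p : ℕ) (a : MonoidAlgebra ℤ G) :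
    (MM p a).trace = (Fintype.card G : ZMod p) * ((a.coeff 1 : ℤ) : ZMod p) := by
  simp [Matrix.trace, MM]

lemma coeff_one_pow {p : ℕ} [Fact p.Prime] (hp : ((Fintype.card G : ℕ) : ZMod p) ≠ 0)
    (a : MonoidAlgebra ℤ G) : (((a ^ p).coeff 1 : ℤ) : ZMod p) = ((a.coeff 1 : ℤ) : ZMod p) := by
  classical
  have h1 := ZMod.trace_pow_card (MM p a)
  rw [← MM_pow, trace_MM, trace_MM, ZMod.pow_card] at h1
  exact mul_left_cancel₀ hp h1

lemma pow_p_coeff {p : ℕ} [Fact p.Prime] (hp : Fintype.card G ∣ p + 1)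
    {x : MonoidAlgebra ℤ G} (hx : x ∈ ZG G) (h : G) :
    (((x ^ p).coeff h : ℤ) : ZMod p) = ((x.coeff h⁻¹ : ℤ) : ZMod p) := by
  have hpr : p.Prime := Fact.out
  have hcard : ((Fintype.card G : ℕ) : ZMod p) ≠ 0 := by
    intro h0
    rw [ZMod.natCast_eq_zero_iff] at h0
    have h1 : p ∣ p + 1 := h0.trans hp
    have h2 : p ∣ 1 := (Nat.dvd_add_right (dvd_refl p)).1 h1
    exact hpr.one_lt.ne' (Nat.dvd_one.1 h2)
  have hh : h ^ p = h⁻¹ := by
    obtain ⟨m, hm⟩ := hp
    rw [eq_inv_iff_mul_eq_one, ← pow_succ, hm, pow_mul, pow_card_eq_one, one_pow]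
  have h1 := coeff_one_pow hcard (single h 1 * x)
  have hcomm : Commute (single h (1 : ℤ)) x := Subring.mem_center_iff.1 hx (single h 1)
  rw [hcomm.mul_pow, single_pow, one_pow, hh, coeff_single_mul_apply, coeff_single_mul_apply,
    one_mul, one_mul, inv_inv, mul_one, mul_one] at h1
  exact h1

/-- Divisibility in the centre. -/
lemma exists_div {p : ℕ} (hp : 0 < p) (z : ↥(ZG G)) (hz : ∀ g, (p : ℤ) ∣ z.1.coeff g) :
    ∃ w : ↥(ZG G), z = (p : ℤ) • w := by
  have hp' : (p : ℤ) ≠ 0 := by exact_mod_cast hp.ne'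
  let w0 : MonoidAlgebra ℤ G := ofCoeff (z.1.coeff.mapRange (fun t => t / p) (by simp))
  have hw0 : ∀ g, w0.coeff g = z.1.coeff g / p := fun g => rfl
  have hw : w0 ∈ ZG G := by
    rw [mem_ZG_iff]
    intro k h
    rw [hw0, hw0, mem_ZG_iff.1 z.2]
  refine ⟨⟨w0, hw⟩, ?_⟩
  apply Subtype.ext
  apply ext'
  intro g
  show z.1.coeff g = ((p : ℤ) • w0).coeff g
  rw [coeff_smul_apply, hw0, smul_eq_mul, Int.mul_ediv_cancel' (hz g)]

lemma dvd_coeff_zsmul (p : ℕ) (w : ↥(ZG G)) (g : G) : (p : ℤ) ∣ ((p : ℤ) • w).1.coeff g := by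
  show (p : ℤ) ∣ ((p : ℤ) • w.1).coeff g
  rw [coeff_smul_apply, smul_eq_mul]
  exact dvd_mul_right _ _

/-- `x ^ p` is congruent to `st x`. -/
lemma st_sub_pow {p : ℕ} [Fact p.Prime] (hp : Fintype.card G ∣ p + 1) (x : ↥(ZG G)) (g : G) :
    (p : ℤ) ∣ (st x - x ^ p).1.coeff g := by
  show (p : ℤ) ∣ (stA x.1 - (x ^ p).1).coeff g
  rw [SubmonoidClass.coe_pow]
  have h1 := pow_p_coeff hp x.2 g
  rw [← coeff_stA] at h1
  rw [← ZMod.intCast_zmod_eq_zero_iff_dvd]
  show (((stA x.1).coeff g - (x.1 ^ p).coeff g : ℤ) : ZMod p) = 0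
  push_cast
  rw [h1, sub_self]

end frobenius

variable {G H : Type} [Group G] [Fintype G] [Group H] [Fintype H]

/-- Every isomorphism commutes with the involution. -/
theorem map_st (σ : ↥(ZG G) ≃+* ↥(ZG H)) (x : ↥(ZG G)) : σ (st x) = st (σ x) := by
  rw [← sub_eq_zero]
  apply Subtype.ext
  apply ext'
  intro h
  show (σ (st x) - st (σ x)).1.coeff h = 0
  set D := (σ (st x) - st (σ x)).1.coeff h with hD
  by_contra hne
  have hq : Fintype.card G * Fintype.card H ≠ 0 :=
    mul_ne_zero Fintype.card_ne_zero Fintype.card_ne_zero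
  haveI : NeZero (Fintype.card G * Fintype.card H) := ⟨hq⟩
  obtain ⟨p, hpD, hpp, hpm⟩ := Nat.forall_exists_prime_gt_and_eq_mod
    (q := Fintype.card G * Fintype.card H) (a := -1) isUnit_one.neg D.natAbs
  haveI : Fact p.Prime := ⟨hpp⟩
  have hdiv : Fintype.card G * Fintype.card H ∣ p + 1 := by
    rw [← ZMod.natCast_eq_zero_iff]
    push_cast
    rw [hpm]
    simp
  have hG : Fintype.card G ∣ p + 1 := (dvd_mul_right _ _).trans hdiv
  have hH : Fintype.card H ∣ p + 1 := (dvd_mul_left _ _).trans hdiv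
  obtain ⟨w, hw⟩ := exists_div hpp.pos (st x - x ^ p) (st_sub_pow hG x)
  obtain ⟨w', hw'⟩ := exists_div hpp.pos (st (σ x) - (σ x) ^ p) (st_sub_pow hH (σ x))
  have h1 : σ (st x) - st (σ x) = (p : ℤ) • (σ w - w') := by
    have h2 : σ (st x) - (σ x) ^ p = (p : ℤ) • σ w := by
      rw [← map_zsmul, ← hw, map_sub, map_pow]
    rw [smul_sub, ← h2, ← hw']
    ring
  have h3 : (p : ℤ) ∣ D := by
    rw [hD, h1]
    exact dvd_coeff_zsmul p _ h
  have h4 := Int.natAbs_dvd_natAbs.2 h3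
  rw [Int.natAbs_natCast] at h4
  have h5 := Nat.le_of_dvd (Int.natAbs_pos.2 hne) h4
  omega

end Pool.Agent.Helper598.CenterZG
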