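import Pool.Agent.Helper598.CenterZG3

/-!
Good classes: the class sums that are mapped to plus or minus class sums.
-/

namespace Pool.Agent.Helper598.CenterZG

open Finset MonoidAlgebra
open scoped commutatorElement

set_option linter.unusedVariables false
set_option linter.unusedSectionVars false
set_option linter.deprecated false

variable {G H : Type} [Group G] [Fintype G] [Group H] [Fintype H]

/-- The sum of the absolute values of the coefficients. -/
def N1 (a : MonoidAlgebra ℤ G) : ℤ := ∑ g, |a.coeff g|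

lemma sum_mul_coeff (f f' : G → ℤ) :
    ∑ g, ∑ h, f h * f' (h⁻¹ * g) = (∑ g, f g) * ∑ g, f' g := by
  rw [Finset.sum_comm, Finset.sum_mul]
  refine Finset.sum_congr rfl (fun h _ => ?_)
  rw [← Finset.mul_sum]
  congr 1
  exact Fintype.sum_equiv (Equiv.mulLeft h⁻¹) _ _ (fun g => rfl)

lemma aug_mul (a b : MonoidAlgebra ℤ G) :
    ∑ g, (a * b).coeff g = (∑ g, a.coeff g) * ∑ g, b.coeff g := by
  rw [← sum_mul_coeff]
  exact Finset.sum_congr rfl (fun g _ => coeff_mul_fintype a b g)

lemma sum_stA (f : ℤ → ℤ) (a : MonoidAlgebra ℤ G) :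
    ∑ g, f ((stA a).coeff g) = ∑ g, f (a.coeff g) := by
  refine Fintype.sum_equiv (Equiv.inv G) _ _ (fun g => ?_)
  rw [coeff_stA]
  rfl

lemma N1_le_N2 (a : MonoidAlgebra ℤ G) : N1 a ≤ N2 a := by
  refine Finset.sum_le_sum (fun g _ => ?_)
  rw [← sq_abs]
  have h0 := abs_nonneg (a.coeff g)
  rcases h0.lt_or_eq with h | h
  · nlinarith
  · rw [← h]; norm_num

lemma abs_coeff_mul_le (a b : MonoidAlgebra ℤ G) (g : G) :
    |(a * b).coeff g| ≤ ∑ h, |a.coeff h| * |b.coeff (h⁻¹ * g)| := by
  rw [coeff_mul_fintype]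
  refine (Finset.abs_sum_le_sum_abs _ _).trans (Finset.sum_le_sum (fun h _ => ?_))
  rw [abs_mul]

lemma N2_classSum (c : ConjClasses G) : N2 (classSum c) = ∑ g, (classSum c).coeff g := by
  classical
  refine Finset.sum_congr rfl (fun g _ => ?_)
  rw [coeff_classSum]
  split_ifs <;> norm_num

lemma N1_classSum (c : ConjClasses G) : N1 (classSum c) = N2 (classSum c) := by
  classical
  rw [N2_classSum]
  refine Finset.sum_congr rfl (fun g _ => ?_)
  rw [coeff_classSum]
  split_ifs <;> norm_num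

lemma N2_classSum_pos (g : G) : 0 < N2 (classSum (ConjClasses.mk g)) := by
  classical
  refine Finset.sum_pos' (fun x _ => sq_nonneg _) ⟨g, mem_univ _, ?_⟩
  rw [coeff_classSum, if_pos rfl]
  norm_num

lemma csZ_one : csZ (ConjClasses.mk (1 : G)) = 1 := by
  classical
  apply Subtype.ext
  apply ext'
  intro g
  show (classSum _).coeff g = (1 : MonoidAlgebra ℤ G).coeff g
  rw [coeff_classSum, one_def, coeff_single_apply]
  congr 1
  rw [eq_iff_iff, ConjClasses.mk_eq_mk_iff_isConj]
  constructor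
  · intro h
    exact (isConj_one_left.1 h).symm
  · rintro rfl
    exact IsConj.refl _

/-- `σ` maps the class sum of `c` to plus or minus a class sum of the same size. -/
def GoodC (σ : ↥(ZG G) ≃+* ↥(ZG H)) (c : ConjClasses G) : Prop :=
  ∃ d : ConjClasses H, ∃ ε : ℤ, (ε = 1 ∨ ε = -1) ∧ σ (csZ c) = ε • csZ d ∧
    N2 (classSum d) = N2 (classSum c)

lemma goodC_symm {σ : ↥(ZG G) ≃+* ↥(ZG H)} {c : ConjClasses G} {d : ConjClasses H} {ε : ℤ}
    (hε : ε = 1 ∨ ε = -1) (h : σ (csZ c) = ε • csZ d)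
    (hN : N2 (classSum d) = N2 (classSum c)) : GoodC σ.symm d := by
  refine ⟨c, ε, hε, ?_, hN.symm⟩
  rw [RingEquiv.symm_apply_eq, map_zsmul, h, smul_smul]
  rcases hε with h | h <;> simp [h]

lemma abs_sum_single {ι : Type*} [Fintype ι] (f : ι → ℤ)
    (h : ∀ i j, f i ≠ 0 → f j ≠ 0 → i = j) : |∑ i, f i| = ∑ i, |f i| := by
  classical
  by_cases h0 : ∃ i, f i ≠ 0
  · obtain ⟨i, hi⟩ := h0
    have h1 : ∀ j, j ≠ i → f j = 0 := by
      intro j hj
      by_contra hcon
      exact hj (h j i hcon hi)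
    rw [Finset.sum_eq_single i (fun j _ hj => h1 j hj) (fun h' => absurd (mem_univ _) h'),
      Finset.sum_eq_single i (fun j _ hj => by rw [h1 j hj, abs_zero])
        (fun h' => absurd (mem_univ _) h')]
  · push Not at h0
    simp [h0]

/-- The main estimate. -/
lemma key (σ : ↥(ZG G) ≃+* ↥(ZG H)) (g : G)
    (hgood : ∀ k : G, GoodC σ (ConjClasses.mk (g * k * g⁻¹ * k⁻¹))) :
    N1 (σ (csZ (ConjClasses.mk g))).1 = N2 (classSum (ConjClasses.mk g)) ∧
    N2 (σ (csZ (ConjClasses.mk g))).1 = N2 (classSum (ConjClasses.mk g)) ∧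
    ∀ s s' : H, (σ (csZ (ConjClasses.mk g))).1.coeff s ≠ 0 →
      (σ (csZ (ConjClasses.mk g))).1.coeff s' ≠ 0 →
      GoodC σ.symm (ConjClasses.mk (s * s'⁻¹)) := by
  classical
  haveI : Fintype (ConjClasses G) := Fintype.ofFinite _
  set x := csZ (ConjClasses.mk g) with hx
  set y := σ x with hy
  set t := N2 (classSum (ConjClasses.mk g)) with ht
  set u := x * st x with hu
  have hxcoeff : ∀ h, x.1.coeff h = if ConjClasses.mk h = ConjClasses.mk g then 1 else 0 :=
    fun h => coeff_classSum _ h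
  have hucoeff : ∀ h, u.1.coeff h = ∑ k, x.1.coeff k * x.1.coeff (h⁻¹ * k) := by
    intro h
    show (x.1 * stA x.1).coeff h = _
    rw [coeff_mul_fintype]
    refine Finset.sum_congr rfl (fun k _ => ?_)
    rw [coeff_stA, mul_inv_rev, inv_inv]
  have hunn : ∀ h, 0 ≤ u.1.coeff h := by
    intro h
    rw [hucoeff]
    refine Finset.sum_nonneg (fun k _ => ?_)
    rw [hxcoeff, hxcoeff]
    split_ifs <;> norm_num
  let a : ConjClasses G → ℤ := fun d => u.1.coeff (Quotient.out d : G)
  have ha0 : ∀ d, 0 ≤ a d := fun d => hunn _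
  have hga : ∀ d, a d ≠ 0 → GoodC σ d := by
    intro d hd
    have h1 : ∃ k, x.1.coeff k * x.1.coeff ((Quotient.out d : G)⁻¹ * k) ≠ 0 := by
      by_contra hcon
      push Not at hcon
      apply hd
      show u.1.coeff _ = 0
      rw [hucoeff]
      exact Finset.sum_eq_zero (fun k _ => hcon k)
    obtain ⟨k, hk⟩ := h1
    rw [hxcoeff, hxcoeff] at hk
    have hk1 : ConjClasses.mk k = ConjClasses.mk g := by
      by_contra hcon
      rw [if_neg hcon, zero_mul] at hk
      exact hk rfl
    have hk2 : ConjClasses.mk ((Quotient.out d : G)⁻¹ * k) = ConjClasses.mk g := by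
      by_contra hcon
      rw [if_neg hcon, mul_zero] at hk
      exact hk rfl
    rw [ConjClasses.mk_eq_mk_iff_isConj] at hk1 hk2
    obtain ⟨w, hw⟩ := isConj_iff.1 hk1.symm
    obtain ⟨v, hv⟩ := isConj_iff.1 hk2.symm
    have h2 : (Quotient.out d : G) = k * ((Quotient.out d : G)⁻¹ * k)⁻¹ := by group
    have h3 : (Quotient.out d : G) =
        w * (g * (w⁻¹ * v) * g⁻¹ * (w⁻¹ * v)⁻¹) * w⁻¹ := by
      rw [h2, ← hv, ← hw]
      group
    have h4 : d = ConjClasses.mk (g * (w⁻¹ * v) * g⁻¹ * (w⁻¹ * v)⁻¹) := by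
      rw [← mk_out d, h3, ConjClasses.mk_eq_mk_iff_isConj]
      exact (isConj_iff.2 ⟨w, rfl⟩).symm
    rw [h4]
    exact hgood _
  have hga' : ∀ d, ∃ (δ : ConjClasses H) (ε : ℤ), (ε = 1 ∨ ε = -1) ∧
      (a d ≠ 0 → σ (csZ d) = ε • csZ δ ∧ N2 (classSum δ) = N2 (classSum d)) := by
    intro d
    by_cases h : a d ≠ 0
    · obtain ⟨δ, ε, h1, h2, h3⟩ := hga d h
      exact ⟨δ, ε, h1, fun _ => ⟨h2, h3⟩⟩
    · exact ⟨ConjClasses.mk 1, 1, Or.inl rfl, fun h' => absurd h' h⟩
  choose δ ε hε hδ using hga'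
  have hεne : ∀ d, ε d ≠ 0 := fun d => by rcases hε d with h | h <;> rw [h] <;> norm_num
  have hεabs : ∀ d, |ε d| = 1 := fun d => by rcases hε d with h | h <;> rw [h] <;> norm_num
  have hδinj : ∀ d d', a d ≠ 0 → a d' ≠ 0 → δ d = δ d' → d = d' := by
    intro d d' h h' hdd
    have h1 := (hδ d h).1
    have h2 := (hδ d' h').1
    rw [hdd] at h1
    have h3 : σ (csZ d) = σ ((ε d * ε d') • csZ d') := by
      rw [map_zsmul, h1, h2, smul_smul]
      congr 1
      rcases hε d' with h | h <;> rw [h] <;> ring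
    exact csZ_inj (σ.injective h3) (mul_ne_zero (hεne d) (hεne d'))
  -- the image of `u`
  have hσu : ∀ m : H, (σ u).1.coeff m =
      ∑ d : ConjClasses G, a d * (ε d * (classSum (δ d)).coeff m) := by
    intro m
    have h1 : σ u = ∑ d : ConjClasses G, a d • (ε d • csZ (δ d)) := by
      rw [sum_classSums u, map_sum]
      refine Finset.sum_congr rfl (fun d _ => ?_)
      rw [map_zsmul]
      show a d • σ (csZ d) = a d • (ε d • csZ (δ d))
      by_cases h : a d ≠ 0
      · rw [(hδ d h).1]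
      · push Not at h
        rw [h, zero_smul, zero_smul]
    rw [h1, AddSubmonoidClass.coe_finsetSum, coeff_sum, Finsupp.finsetSum_apply]
    refine Finset.sum_congr rfl (fun d _ => ?_)
    show (a d • (ε d • classSum (δ d))).coeff m = _
    rw [coeff_smul_apply, coeff_smul_apply, smul_eq_mul, smul_eq_mul]
  have hyst : y * st y = σ u := by rw [hy, ← map_st, ← map_mul]
  -- the trace
  have haug : ∑ h, x.1.coeff h = t := (N2_classSum _).symm
  have hN2y : N2 y.1 = t := by
    rw [← T_mul_st, hyst]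
    show (σ u).1.coeff 1 = t
    rw [hσu, Finset.sum_eq_single (ConjClasses.mk (1 : G))]
    · have h1 : a (ConjClasses.mk 1) = t := by
        show u.1.coeff _ = t
        have h2 : u.1.coeff (Quotient.out (ConjClasses.mk (1 : G)) : G) = u.1.coeff 1 :=
          coeff_eq_of_conj u.2 (mk_out _)
        rw [h2]
        show T (x * st x) = t
        rw [T_mul_st]
        rfl
      have ht0 : a (ConjClasses.mk 1) ≠ 0 := by
        rw [h1]
        exact (N2_classSum_pos g).ne'
      have h3 := (hδ _ ht0).1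
      rw [csZ_one, map_one] at h3
      have h4 : (ε (ConjClasses.mk 1) • csZ (δ (ConjClasses.mk 1))).1.coeff 1 = 1 := by
        rw [← h3]
        show (1 : MonoidAlgebra ℤ H).coeff 1 = 1
        rw [coeff_one_one]
      have h5 : ε (ConjClasses.mk 1) * (classSum (δ (ConjClasses.mk 1))).coeff 1 = 1 := by
        rw [← h4]
        show _ = (ε (ConjClasses.mk 1) • classSum (δ (ConjClasses.mk 1))).coeff 1
        rw [coeff_smul_apply, smul_eq_mul]
      rw [h5, h1, mul_one]
    · intro d _ hd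
      by_cases h : a d ≠ 0
      · rw [coeff_classSum, if_neg, mul_zero, mul_zero]
        intro hcon
        apply hd
        have h3 := (hδ d h).1
        rw [← hcon, csZ_one] at h3
        have h4 : σ (csZ d) = σ (ε d • csZ (ConjClasses.mk 1)) := by
          rw [map_zsmul, csZ_one, map_one, h3]
        exact csZ_inj (σ.injective h4) (hεne d)
      · push Not at h
        rw [h, zero_mul]
    · intro h; exact absurd (mem_univ _) h
  -- the `ℓ^1` norm of `σ u`
  have hN1u : N1 (σ u).1 = t * t := by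
    have h1 : ∀ m, |(σ u).1.coeff m| = ∑ d : ConjClasses G, a d * (classSum (δ d)).coeff m := by
      intro m
      rw [hσu, abs_sum_single]
      · refine Finset.sum_congr rfl (fun d _ => ?_)
        rw [abs_mul, abs_mul, hεabs, one_mul, abs_of_nonneg (ha0 d)]
        congr 1
        rw [coeff_classSum]
        split_ifs <;> norm_num
      · intro d d' h h'
        have hd : a d ≠ 0 := fun h0 => h (by rw [h0, zero_mul])
        have hd' : a d' ≠ 0 := fun h0 => h' (by rw [h0, zero_mul])
        apply hδinj d d' hd hd'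
        have e1 : ConjClasses.mk m = δ d := by
          by_contra hcon
          apply h
          rw [coeff_classSum, if_neg hcon, mul_zero, mul_zero]
        have e2 : ConjClasses.mk m = δ d' := by
          by_contra hcon
          apply h'
          rw [coeff_classSum, if_neg hcon, mul_zero, mul_zero]
        rw [← e1, ← e2]
    have h2 : N1 (σ u).1 = ∑ d : ConjClasses G, a d * N2 (classSum (δ d)) := by
      unfold N1
      simp only [h1]
      rw [Finset.sum_comm]
      refine Finset.sum_congr rfl (fun d _ => ?_)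
      rw [← Finset.mul_sum, N2_classSum]
    have h3 : ∑ d : ConjClasses G, a d * N2 (classSum (δ d)) =
        ∑ d : ConjClasses G, a d * N2 (classSum d) := by
      refine Finset.sum_congr rfl (fun d _ => ?_)
      by_cases h : a d ≠ 0
      · rw [(hδ d h).2]
      · push Not at h
        rw [h, zero_mul, zero_mul]
    have h4 : ∑ d : ConjClasses G, a d * N2 (classSum d) = ∑ h, u.1.coeff h := by
      have h5 : ∀ h, u.1.coeff h = ∑ d : ConjClasses G, a d * (classSum d).coeff h := by
        intro h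
        rw [Finset.sum_eq_single (ConjClasses.mk h)]
        · rw [coeff_classSum, if_pos rfl, mul_one]
          exact coeff_eq_of_conj u.2 (mk_out _).symm
        · intro d _ hd
          rw [coeff_classSum, if_neg (Ne.symm hd), mul_zero]
        · intro h'; exact absurd (mem_univ _) h'
      simp only [h5]
      rw [Finset.sum_comm]
      refine Finset.sum_congr rfl (fun d _ => ?_)
      rw [← Finset.mul_sum, N2_classSum]
    rw [h2, h3, h4]
    show ∑ h, (x.1 * stA x.1).coeff h = t * t
    rw [aug_mul, sum_stA (fun z => z), haug]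
  -- upper bounds
  have hN1y : N1 y.1 ≤ t := by rw [← hN2y]; exact N1_le_N2 _
  have hN1y0 : 0 ≤ N1 y.1 := Finset.sum_nonneg (fun h _ => abs_nonneg _)
  let P : H → ℤ := fun m => ∑ h, |y.1.coeff h| * |(stA y.1).coeff (h⁻¹ * m)|
  have hP : ∑ m, P m = N1 y.1 * N1 y.1 := by
    show ∑ m, ∑ h, |y.1.coeff h| * |(stA y.1).coeff (h⁻¹ * m)| = _
    rw [sum_mul_coeff (fun h => |y.1.coeff h|) (fun h => |(stA y.1).coeff h|)]
    rw [sum_stA (fun z => |z|)]
    rfl
  have hPle : ∀ m, |(σ u).1.coeff m| ≤ P m := by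
    intro m
    rw [← hyst]
    exact abs_coeff_mul_le y.1 (stA y.1) m
  have hPnn : ∀ m, 0 ≤ P m := fun m => (abs_nonneg _).trans (hPle m)
  have ht0 : 0 < t := N2_classSum_pos g
  have hN1 : N1 y.1 = t := by
    have h1 : t * t ≤ N1 y.1 * N1 y.1 := by
      rw [← hN1u, ← hP]
      exact Finset.sum_le_sum (fun m _ => hPle m)
    nlinarith
  refine ⟨hN1, hN2y, ?_⟩
  intro s s' hs hs'
  have hPs : 0 < P (s * s'⁻¹) := by
    have h1 : 0 < |y.1.coeff s| * |(stA y.1).coeff (s⁻¹ * (s * s'⁻¹))| := by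
      rw [coeff_stA]
      have e : (s⁻¹ * (s * s'⁻¹))⁻¹ = s' := by group
      rw [e]
      exact mul_pos (abs_pos.2 hs) (abs_pos.2 hs')
    refine lt_of_lt_of_le h1 ?_
    exact Finset.single_le_sum (f := fun h => |y.1.coeff h| * |(stA y.1).coeff (h⁻¹ * (s * s'⁻¹))|)
      (fun h _ => mul_nonneg (abs_nonneg _) (abs_nonneg _)) (mem_univ s)
  have hne : (σ u).1.coeff (s * s'⁻¹) ≠ 0 := by
    intro h0
    have h1 : N1 (σ u).1 < ∑ m, P m := by
      refine Finset.sum_lt_sum (fun m _ => hPle m) ⟨s * s'⁻¹, mem_univ _, ?_⟩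
      rw [h0, abs_zero]
      exact hPs
    rw [hN1u, hP, hN1] at h1
    exact lt_irrefl _ h1
  rw [hσu] at hne
  obtain ⟨d, -, hd⟩ := Finset.exists_ne_zero_of_sum_ne_zero hne
  have hda : a d ≠ 0 := fun h0 => hd (by rw [h0, zero_mul])
  have hdδ : ConjClasses.mk (s * s'⁻¹) = δ d := by
    by_contra hcon
    apply hd
    rw [coeff_classSum, if_neg hcon, mul_zero, mul_zero]
  rw [hdδ]
  exact goodC_symm (hε d) (hδ d hda).1 (hδ d hda).2

end Pool.Agent.Helper598.CenterZG
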