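import Pool.Agent.Helper598.CenterZG4

/-!
Classes in the hypercentre are good; nilpotent groups.
-/

namespace Pool.Agent.Helper598.CenterZG

open Finset MonoidAlgebra
open scoped commutatorElement

set_option linter.unusedVariables false
set_option linter.unusedSectionVars false
set_option linter.deprecated false

variable {G H : Type} [Group G] [Fintype G] [Group H] [Fintype H]

/-- If all the classes of the commutators of `g` are good then the class of `g` is good. -/
theorem good_step (σ : ↥(ZG G) ≃+* ↥(ZG H)) (g : G)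
    (hgood : ∀ k : G, GoodC σ (ConjClasses.mk (g * k * g⁻¹ * k⁻¹))) :
    GoodC σ (ConjClasses.mk g) := by
  classical
  haveI : Fintype (ConjClasses H) := Fintype.ofFinite _
  obtain ⟨h1, h2, h3⟩ := key σ g hgood
  set x := csZ (ConjClasses.mk g) with hx
  set y := σ x with hy
  set t := N2 (classSum (ConjClasses.mk g)) with ht
  have ht0 : 0 < t := N2_classSum_pos g
  have hs2 : ∀ s : H, y.1.coeff s ≠ 0 →
      N1 (σ.symm (csZ (ConjClasses.mk s))).1 = N2 (classSum (ConjClasses.mk s)) ∧
      N2 (σ.symm (csZ (ConjClasses.mk s))).1 = N2 (classSum (ConjClasses.mk s)) := by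
    intro s hs
    have h4 := key σ.symm s (fun k => by
      have h5 : y.1.coeff (k * s * k⁻¹) ≠ 0 := by
        rw [mem_ZG_iff.1 y.2]
        exact hs
      have h6 := h3 s (k * s * k⁻¹) hs h5
      have e : s * (k * s * k⁻¹)⁻¹ = s * k * s⁻¹ * k⁻¹ := by group
      rwa [e] at h6)
    exact ⟨h4.1, h4.2.1⟩
  -- the expansion of the class sum of `g`
  have hexp : ∀ h : G, (classSum (ConjClasses.mk g)).coeff h =
      ∑ d : ConjClasses H, y.1.coeff (Quotient.out d : H) * (σ.symm (csZ d)).1.coeff h := by
    intro h
    have e1 : x = ∑ d : ConjClasses H, y.1.coeff (Quotient.out d : H) • σ.symm (csZ d) := by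
      have e2 : x = σ.symm y := by rw [hy, RingEquiv.symm_apply_apply]
      rw [e2, sum_classSums y, map_sum]
      refine Finset.sum_congr rfl (fun d _ => ?_)
      rw [map_zsmul]
      rw [← sum_classSums y]
    have e3 : (classSum (ConjClasses.mk g)).coeff h = x.1.coeff h := rfl
    rw [e3, e1, AddSubmonoidClass.coe_finsetSum, coeff_sum, Finsupp.finsetSum_apply]
    refine Finset.sum_congr rfl (fun d _ => ?_)
    show (y.1.coeff (Quotient.out d : H) • (σ.symm (csZ d)).1).coeff h = _
    rw [coeff_smul_apply, smul_eq_mul]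
  let Q : G → ℤ := fun h =>
    ∑ d : ConjClasses H, |y.1.coeff (Quotient.out d : H)| * |(σ.symm (csZ d)).1.coeff h|
  have hQle : ∀ h, |(classSum (ConjClasses.mk g)).coeff h| ≤ Q h := by
    intro h
    rw [hexp]
    refine (Finset.abs_sum_le_sum_abs _ _).trans (Finset.sum_le_sum (fun d _ => ?_))
    rw [abs_mul]
  have hQsum : ∑ h, Q h = t := by
    have e1 : ∑ h, Q h =
        ∑ d : ConjClasses H, |y.1.coeff (Quotient.out d : H)| * N1 (σ.symm (csZ d)).1 := by
      show ∑ h, ∑ d : ConjClasses H, _ = _
      rw [Finset.sum_comm]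
      refine Finset.sum_congr rfl (fun d _ => ?_)
      rw [← Finset.mul_sum]
      rfl
    have e2 : ∑ d : ConjClasses H, |y.1.coeff (Quotient.out d : H)| * N1 (σ.symm (csZ d)).1 =
        ∑ d : ConjClasses H, |y.1.coeff (Quotient.out d : H)| * N2 (classSum d) := by
      refine Finset.sum_congr rfl (fun d _ => ?_)
      by_cases h0 : y.1.coeff (Quotient.out d : H) = 0
      · rw [h0, abs_zero, zero_mul, zero_mul]
      · have := (hs2 _ h0).1
        rw [mk_out] at this
        rw [this]
    have e3 : ∀ h, |y.1.coeff h| =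
        ∑ d : ConjClasses H, |y.1.coeff (Quotient.out d : H)| * (classSum d).coeff h := by
      intro h
      rw [Finset.sum_eq_single (ConjClasses.mk h)]
      · rw [coeff_classSum, if_pos rfl, mul_one]
        rw [coeff_eq_of_conj y.2 (mk_out (ConjClasses.mk h))]
      · intro d _ hd
        rw [coeff_classSum, if_neg (Ne.symm hd), mul_zero]
      · intro h'; exact absurd (mem_univ _) h'
    have e4 : N1 y.1 = ∑ h, ∑ d : ConjClasses H,
        |y.1.coeff (Quotient.out d : H)| * (classSum d).coeff h :=
      Finset.sum_congr rfl (fun h _ => e3 h)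
    rw [e1, e2, ← h1, e4, Finset.sum_comm]
    refine Finset.sum_congr rfl (fun d _ => ?_)
    rw [← Finset.mul_sum, N2_classSum]
  -- some element of the support
  obtain ⟨s, hs⟩ : ∃ s, y.1.coeff s ≠ 0 := by
    by_contra hcon
    push Not at hcon
    have : N1 y.1 = 0 := Finset.sum_eq_zero (fun h _ => by rw [hcon h, abs_zero])
    rw [h1] at this
    omega
  set w := σ.symm (csZ (ConjClasses.mk s)) with hw
  have hsupp : ∀ h, w.1.coeff h ≠ 0 → ConjClasses.mk h = ConjClasses.mk g := by
    intro h hh
    by_contra hcon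
    have e1 : N1 (classSum (ConjClasses.mk g)) < ∑ h, Q h := by
      refine Finset.sum_lt_sum (fun h _ => hQle h) ⟨h, mem_univ _, ?_⟩
      rw [coeff_classSum, if_neg hcon, abs_zero]
      have e2 : 0 < |y.1.coeff (Quotient.out (ConjClasses.mk s) : H)| *
          |(σ.symm (csZ (ConjClasses.mk s))).1.coeff h| := by
        apply mul_pos (abs_pos.2 _) (abs_pos.2 hh)
        rw [coeff_eq_of_conj y.2 (mk_out (ConjClasses.mk s))]
        exact hs
      refine lt_of_lt_of_le e2 ?_
      exact Finset.single_le_sum (f := fun d : ConjClasses H =>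
        |y.1.coeff (Quotient.out d : H)| * |(σ.symm (csZ d)).1.coeff h|)
        (fun d _ => mul_nonneg (abs_nonneg _) (abs_nonneg _)) (mem_univ (ConjClasses.mk s))
    rw [hQsum, N1_classSum] at e1
    exact lt_irrefl _ e1
  set b := w.1.coeff g with hb
  have hwb : w = b • x := by
    apply Subtype.ext
    apply ext'
    intro h
    show w.1.coeff h = (b • classSum (ConjClasses.mk g)).coeff h
    rw [coeff_smul_apply, coeff_classSum, smul_eq_mul]
    split_ifs with hh
    · rw [mul_one]
      exact coeff_eq_of_conj w.2 hh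
    · rw [mul_zero]
      by_contra hcon
      exact hh (hsupp h hcon)
  have hN1w : N1 w.1 = |b| * t := by
    rw [hwb]
    show ∑ h, |(b • classSum (ConjClasses.mk g)).coeff h| = _
    rw [ht, ← N1_classSum]
    unfold N1
    rw [Finset.mul_sum]
    refine Finset.sum_congr rfl (fun h _ => ?_)
    rw [coeff_smul_apply, smul_eq_mul, abs_mul]
  have hN2w : N2 w.1 = b ^ 2 * t := by
    rw [hwb]
    show ∑ h, (b • classSum (ConjClasses.mk g)).coeff h ^ 2 = _
    rw [ht]
    unfold N2
    rw [Finset.mul_sum]
    refine Finset.sum_congr rfl (fun h _ => ?_)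
    rw [coeff_smul_apply, smul_eq_mul, mul_pow]
  obtain ⟨h4, h5⟩ := hs2 s hs
  rw [← hw, hN1w] at h4
  rw [← hw, hN2w] at h5
  have hspos : 0 < N2 (classSum (ConjClasses.mk s)) := N2_classSum_pos s
  have hbb : |b| = 1 := by
    have e1 : b ^ 2 * t = |b| * t := by rw [h4, h5]
    have e2 : b ^ 2 = |b| := mul_right_cancel₀ ht0.ne' e1
    rw [← sq_abs] at e2
    have e3 : |b| * (|b| - 1) = 0 := by linarith [sq (|b|)]
    rcases mul_eq_zero.1 e3 with h | h
    · rw [h, zero_mul] at h4
      omega
    · omega
  have hb1 : b = 1 ∨ b = -1 := by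
    rcases abs_eq (by norm_num : (0 : ℤ) ≤ 1) |>.1 hbb with h | h
    · left; exact h
    · right; exact h
  refine ⟨ConjClasses.mk s, b, hb1, ?_, ?_⟩
  · have e1 : csZ (ConjClasses.mk s) = b • σ x := by
      rw [← map_zsmul, ← hwb, hw, RingEquiv.apply_symm_apply]
    rw [e1, smul_smul]
    have e2 : b * b = 1 := by rcases hb1 with h | h <;> rw [h] <;> norm_num
    rw [e2, one_smul]
  · rw [← h4, hbb, one_mul]

lemma N2_classSum_one : N2 (classSum (ConjClasses.mk (1 : G))) = 1 := by
  have h := congrArg (fun z : ↥(ZG G) => N2 z.1) (csZ_one (G := G))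
  have h1 := torsion_unit (G := G) (u := 1) one_pos (one_pow 1)
  exact h.trans h1

/-- All the classes in the hypercentre are good. -/
theorem good_upper (σ : ↥(ZG G) ≃+* ↥(ZG H)) : ∀ n : ℕ, ∀ g ∈ Subgroup.upperCentralSeries G n,
    GoodC σ (ConjClasses.mk g) := by
  intro n
  induction n with
  | zero =>
    intro g hg
    rw [Subgroup.upperCentralSeries_zero, Subgroup.mem_bot] at hg
    subst hg
    refine ⟨ConjClasses.mk 1, 1, Or.inl rfl, ?_, ?_⟩
    · rw [csZ_one, csZ_one, map_one, one_smul]
    · rw [N2_classSum_one, N2_classSum_one]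
  | succ n ih =>
    intro g hg
    apply good_step
    intro k
    apply ih
    exact hg k

/-- Groups all of whose classes are good. -/
theorem monomial_of_good (σ : ↥(ZG G) ≃+* ↥(ZG H)) (hgood : ∀ c, GoodC σ c) :
    ∃ π : ConjClasses G ≃ ConjClasses H, ∃ ε : ConjClasses G → ℤ,
      (∀ c, ε c = 1 ∨ ε c = -1) ∧ ∀ c, σ (csZ c) = ε c • csZ (π c) := by
  classical
  haveI : Fintype (ConjClasses G) := Fintype.ofFinite _
  choose π ε hε hπ hN using hgood
  have hne : ∀ c, ε c ≠ 0 := fun c => by rcases hε c with h | h <;> rw [h] <;> norm_num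
  have hbij : Function.Bijective π := by
    constructor
    · intro c c' hcc
      have h1 := hπ c
      have h2 := hπ c'
      rw [hcc] at h1
      have h3 : σ (csZ c) = σ ((ε c * ε c') • csZ c') := by
        rw [map_zsmul, h1, h2, smul_smul]
        congr 1
        rcases hε c' with h | h <;> rw [h] <;> ring
      exact csZ_inj (σ.injective h3) (mul_ne_zero (hne c) (hne c'))
    · intro d
      by_contra hcon
      push Not at hcon
      have h1 : csZ d = ∑ c : ConjClasses G,
          (σ.symm (csZ d)).1.coeff (Quotient.out c : G) • (ε c • csZ (π c)) := by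
        have h2 := congrArg σ (sum_classSums (σ.symm (csZ d)))
        rw [RingEquiv.apply_symm_apply, map_sum] at h2
        refine h2.trans (Finset.sum_congr rfl (fun c _ => ?_))
        rw [map_zsmul, hπ c]
      have h3 : (classSum d).coeff (Quotient.out d : H) = 0 := by
        have h4 : (classSum d).coeff (Quotient.out d : H) =
            (csZ d).1.coeff (Quotient.out d : H) := rfl
        rw [h4, h1, AddSubmonoidClass.coe_finsetSum, coeff_sum, Finsupp.finsetSum_apply]
        refine Finset.sum_eq_zero (fun c _ => ?_)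
        show ((σ.symm (csZ d)).1.coeff (Quotient.out c : G) •
          (ε c • classSum (π c))).coeff _ = 0
        rw [coeff_smul_apply, coeff_smul_apply, coeff_classSum, mk_out,
          if_neg (Ne.symm (hcon c)), smul_zero, smul_zero]
      rw [coeff_classSum, if_pos (mk_out d)] at h3
      exact one_ne_zero h3
  exact ⟨Equiv.ofBijective π hbij, ε, hε, hπ⟩

end Pool.Agent.Helper598.CenterZG
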