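import Mathlib
import Pool.Agent.Helper598.BipCells

set_option autoImplicit false
set_option linter.unusedSectionVars false

namespace Pool.Agent.Helper598.Cofactor

open Polynomial

open Classical in
/-- the cofactor matrix, exactly as in the frozen statement -/
noncomputable def cofM {V : Type} (s : ℕ) (G : SimpleGraph V) (x y : V → ℝ) :
    Matrix (V × V) (V × Fin (s + 1)) ℝ :=
  Matrix.of fun (e : V × V) (c : V × Fin (s + 1)) =>
    if G.Adj e.1 e.2 then
      (if c.1 = e.1 then (x e.1 - x e.2) ^ (s - (c.2 : ℕ)) * (y e.1 - y e.2) ^ (c.2 : ℕ)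
       else if c.1 = e.2 then
          -((x e.1 - x e.2) ^ (s - (c.2 : ℕ)) * (y e.1 - y e.2) ^ (c.2 : ℕ))
       else 0)
    else (0 : ℝ)

/-- polynomial of a motion at a vertex -/
noncomputable def poly {V : Type} {s : ℕ} (z : V × Fin (s + 1) → ℝ) (v : V) : ℝ[X] :=
  ∑ c : Fin (s + 1), C (z (v, c)) * X ^ (c : ℕ)

lemma poly_coeff {V : Type} {s : ℕ} (z : V × Fin (s + 1) → ℝ) (v : V) (c : Fin (s + 1)) :
    (poly z v).coeff c = z (v, c) := by
  unfold poly
  rw [finsetSum_coeff, Finset.sum_eq_single c]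
  · simp
  · intro b _ hb
    rw [coeff_C_mul, coeff_X_pow, if_neg, mul_zero]
    intro h; exact hb (Fin.ext h.symm)
  · intro h; exact absurd (Finset.mem_univ _) h

lemma poly_natDegree {V : Type} {s : ℕ} (z : V × Fin (s + 1) → ℝ) (v : V) :
    (poly z v).natDegree ≤ s := by
  unfold poly
  apply natDegree_sum_le_of_forall_le
  intro c _
  refine le_trans (natDegree_C_mul_X_pow_le _ _) ?_
  have := c.2
  omega

lemma poly_eval {V : Type} {s : ℕ} (z : V × Fin (s + 1) → ℝ) (v : V) (w : ℝ) :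
    (poly z v).eval w = ∑ c : Fin (s + 1), z (v, c) * w ^ (c : ℕ) := by
  unfold poly
  rw [eval_finsetSum]
  simp

lemma poly_eq_zero {V : Type} {s : ℕ} (z : V × Fin (s + 1) → ℝ) (v : V) (h : poly z v = 0)
    (c : Fin (s + 1)) : z (v, c) = 0 := by
  rw [← poly_coeff z v c, h, coeff_zero]

variable {V : Type} [Fintype V] (s : ℕ)

lemma mulVec_apply (G : SimpleGraph V) (x y : V → ℝ) (z : V × Fin (s + 1) → ℝ) (v w : V)
    (h : G.Adj v w) :
    (cofM s G x y).mulVec z (v, w) =
      ∑ c : Fin (s + 1), (x v - x w) ^ (s - (c : ℕ)) * (y v - y w) ^ (c : ℕ)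
        * (z (v, c) - z (w, c)) := by
  classical
  have hne : v ≠ w := h.ne
  simp only [Matrix.mulVec, dotProduct, cofM, Matrix.of_apply, h, if_true]
  rw [Fintype.sum_prod_type_right]
  refine Finset.sum_congr rfl fun c _ => ?_
  rw [← Finset.add_sum_erase Finset.univ _ (Finset.mem_univ v),
    ← Finset.add_sum_erase _ _ (Finset.mem_erase.2 ⟨hne.symm, Finset.mem_univ w⟩)]
  have h0 : ∑ x_1 ∈ (Finset.univ.erase v).erase w,
      (if x_1 = v then (x v - x w) ^ (s - (c : ℕ)) * (y v - y w) ^ (c : ℕ)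
       else if x_1 = w then -((x v - x w) ^ (s - (c : ℕ)) * (y v - y w) ^ (c : ℕ)) else 0)
        * z (x_1, c) = 0 := by
    refine Finset.sum_eq_zero fun u hu => ?_
    rw [Finset.mem_erase, Finset.mem_erase] at hu
    rw [if_neg hu.2.1, if_neg hu.1, zero_mul]
  rw [h0]
  simp only [if_true, hne.symm, if_false]
  ring

lemma hom_eval (P : ℝ[X]) (hP : P.natDegree ≤ s) (dx dy : ℝ) (hdx : dx ≠ 0) :
    ∑ c : Fin (s + 1), dx ^ (s - (c : ℕ)) * dy ^ (c : ℕ) * P.coeff c
      = dx ^ s * P.eval (dy / dx) := by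
  rw [eval_eq_sum_range' (Nat.lt_succ_of_le hP), Finset.mul_sum, ← Fin.sum_univ_eq_sum_range
    (fun i => dx ^ s * (P.coeff i * (dy / dx) ^ i))]
  refine Finset.sum_congr rfl fun c _ => ?_
  have hc : (c : ℕ) ≤ s := Nat.lt_succ_iff.1 c.2
  have : dx ^ s = dx ^ (s - (c : ℕ)) * dx ^ (c : ℕ) := by
    rw [← pow_add]; congr 1; omega
  rw [this, div_pow]
  field_simp

/-- the edge condition in terms of polynomials -/
lemma edge_iff (G : SimpleGraph V) (x y : V → ℝ) (z : V × Fin (s + 1) → ℝ) (v w : V)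
    (h : G.Adj v w) (hx : x v ≠ x w) :
    (cofM s G x y).mulVec z (v, w) = 0 ↔
      (poly z v).eval ((y v - y w) / (x v - x w)) = (poly z w).eval ((y v - y w) / (x v - x w)) := by
  rw [mulVec_apply s G x y z v w h]
  have h1 : ∑ c : Fin (s + 1), (x v - x w) ^ (s - (c : ℕ)) * (y v - y w) ^ (c : ℕ)
        * (z (v, c) - z (w, c))
      = (x v - x w) ^ s * (poly z v).eval ((y v - y w) / (x v - x w))
        - (x v - x w) ^ s * (poly z w).eval ((y v - y w) / (x v - x w)) := by
    rw [← hom_eval s _ (poly_natDegree z v) _ _ (sub_ne_zero.2 hx),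
      ← hom_eval s _ (poly_natDegree z w) _ _ (sub_ne_zero.2 hx), ← Finset.sum_sub_distrib]
    refine Finset.sum_congr rfl fun c _ => ?_
    rw [poly_coeff, poly_coeff]; ring
  rw [h1, ← mul_sub, mul_eq_zero, sub_eq_zero]
  constructor
  · rintro (h2 | h2)
    · exact absurd h2 (pow_ne_zero _ (sub_ne_zero.2 hx))
    · exact h2
  · intro h2; exact Or.inr h2

/-- rank-nullity -/
lemma rank_add_ker (G : SimpleGraph V) (x y : V → ℝ) :
    (cofM s G x y).rank + Module.finrank ℝ (LinearMap.ker (cofM s G x y).mulVecLin)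
      = (s + 1) * Fintype.card V := by
  have h := LinearMap.finrank_range_add_finrank_ker (cofM s G x y).mulVecLin
  rw [Matrix.rank, h]
  simp [Fintype.card_prod, mul_comm]

/-- upper bound on the kernel from an injective map -/
lemma ker_le {ι : Type} [Fintype ι] (G : SimpleGraph V) (x y : V → ℝ)
    (Λ : (V × Fin (s + 1) → ℝ) →ₗ[ℝ] (ι → ℝ))
    (h : ∀ z, (cofM s G x y).mulVec z = 0 → Λ z = 0 → z = 0) :
    Module.finrank ℝ (LinearMap.ker (cofM s G x y).mulVecLin) ≤ Fintype.card ι := by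
  have hinj : Function.Injective (Λ.comp (LinearMap.ker (cofM s G x y).mulVecLin).subtype) := by
    rw [← LinearMap.ker_eq_bot, LinearMap.ker_eq_bot']
    intro z hz
    have hz1 : (cofM s G x y).mulVec z.1 = 0 := by
      have := z.2
      rw [LinearMap.mem_ker, Matrix.mulVecLin_apply] at this
      exact this
    have := h z.1 hz1 hz
    exact Subtype.ext this
  have := LinearMap.finrank_le_finrank_of_injective hinj
  simpa using this

end Pool.Agent.Helper598.Cofactor
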