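import Mathlib
import Pool.Agent.Helper598.Cofactor

set_option autoImplicit false
set_option linter.unusedSectionVars false

namespace Pool.Agent.Helper598.CofactorAB

open Polynomial Pool.Agent.Helper598.Cofactor

/-- pairs with sum at most `s` -/
abbrev Idx (s : ℕ) : Type := {p : Fin (s + 1) × Fin (s + 1) // (p.1 : ℕ) + (p.2 : ℕ) ≤ s}

lemma card_Idx (s : ℕ) : Fintype.card (Idx s) = (s + 2).choose 2 := by
  rw [Fintype.card_subtype]
  have h1 : (Finset.univ.filter (fun p : Fin (s + 1) × Fin (s + 1) => (p.1 : ℕ) + (p.2 : ℕ) ≤ s)).card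
      = ∑ i : Fin (s + 1), (Finset.univ.filter (fun j : Fin (s + 1) => (i : ℕ) + (j : ℕ) ≤ s)).card := by
    rw [← Finset.univ_product_univ, Finset.card_filter, Finset.sum_product]
    refine Finset.sum_congr rfl fun i _ => ?_
    rw [Finset.card_filter]
  have h2 : ∀ i : Fin (s + 1),
      (Finset.univ.filter (fun j : Fin (s + 1) => (i : ℕ) + (j : ℕ) ≤ s)).card = s + 1 - (i : ℕ) := by
    intro i
    have : (Finset.univ.filter (fun j : Fin (s + 1) => (i : ℕ) + (j : ℕ) ≤ s)).map Fin.valEmbedding
        = Finset.range (s + 1 - (i : ℕ)) := by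
      ext k
      simp only [Finset.mem_map, Finset.mem_filter, Finset.mem_univ, true_and,
        Fin.valEmbedding_apply, Finset.mem_range]
      constructor
      · rintro ⟨j, hj, rfl⟩
        omega
      · intro hk
        exact ⟨⟨k, by omega⟩, by simp; omega, rfl⟩
    rw [← Finset.card_map Fin.valEmbedding, this, Finset.card_range]
  rw [h1, Finset.sum_congr rfl (fun i _ => h2 i), Fin.sum_univ_eq_sum_range (fun i => s + 1 - i)]
  rw [← Finset.sum_range_reflect]
  have h3 : ∑ j ∈ Finset.range (s + 1), (s + 1 - (s + 1 - 1 - j)) = ∑ j ∈ Finset.range (s + 1), (j + 1) := by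
    refine Finset.sum_congr rfl fun j hj => ?_
    rw [Finset.mem_range] at hj
    omega
  rw [h3, Nat.choose_two_right, ← Finset.sum_range_id]
  rw [Finset.sum_range_succ' (fun i => i) (s + 1)]
  simp

variable {V : Type} [Fintype V] (s : ℕ)

/-- Part B: on a parabola the complete graph has a small kernel. -/
theorem parabola_ker (N : ℕ) (e : V ≃ Fin N) :
    Module.finrank ℝ (LinearMap.ker
      (cofM s (⊤ : SimpleGraph V) (fun v => ((e v : ℕ) : ℝ)) (fun v => ((e v : ℕ) : ℝ) ^ 2)).mulVecLin)
      ≤ (s + 2).choose 2 := by
  classical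
  rw [← card_Idx s]
  let Λ : (V × Fin (s + 1) → ℝ) →ₗ[ℝ] (Idx s → ℝ) :=
    { toFun := fun z p => if h : (p.1.1 : ℕ) < N then
        ∑ c : Fin (s + 1), z (e.symm ⟨p.1.1, h⟩, c) * (((p.1.1 : ℕ) + ((p.1.1 : ℕ) + (p.1.2 : ℕ)) : ℕ) : ℝ) ^ (c : ℕ)
        else 0
      map_add' := by
        intro z z'
        funext p
        by_cases h : (p.1.1 : ℕ) < N
        · simp [h, add_mul, Finset.sum_add_distrib]
        · simp [h]
      map_smul' := by
        intro r z
        funext p
        by_cases h : (p.1.1 : ℕ) < N
        · simp [h, Finset.mul_sum, mul_assoc]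
        · simp [h] }
  apply ker_le s _ _ _ Λ
  intro z hz hΛ
  have hmain : ∀ k : ℕ, ∀ hk : k < N, poly z (e.symm ⟨k, hk⟩) = 0 := by
    intro k
    induction k using Nat.strong_induction_on with
    | _ k ih =>
      intro hk
      -- zero at k + r for r ≤ s
      have hroot : ∀ r : ℕ, r ≤ s → (poly z (e.symm ⟨k, hk⟩)).eval ((k : ℝ) + (r : ℝ)) = 0 := by
        intro r hr
        by_cases hrk : r < k
        · have hr' : r < N := lt_trans hrk hk
          have hne : (e.symm ⟨k, hk⟩) ≠ (e.symm ⟨r, hr'⟩) := by
            intro h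
            have := e.symm.injective h
            rw [Fin.mk.injEq] at this
            omega
          have hadj : (⊤ : SimpleGraph V).Adj (e.symm ⟨k, hk⟩) (e.symm ⟨r, hr'⟩) := hne
          have hrow := congrFun hz (e.symm ⟨k, hk⟩, e.symm ⟨r, hr'⟩)
          rw [Pi.zero_apply, edge_iff s _ _ _ z _ _ hadj (by
            simp only [Equiv.apply_symm_apply]
            exact_mod_cast (ne_of_gt hrk))] at hrow
          simp only [Equiv.apply_symm_apply] at hrow
          have hsl : (((k : ℕ) : ℝ) ^ 2 - ((r : ℕ) : ℝ) ^ 2) / (((k : ℕ) : ℝ) - ((r : ℕ) : ℝ))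
              = (k : ℝ) + (r : ℝ) := by
            have : ((k : ℕ) : ℝ) - ((r : ℕ) : ℝ) ≠ 0 := by
              rw [sub_ne_zero]; exact_mod_cast (ne_of_gt hrk)
            field_simp
            ring
          rw [hsl, ih r hrk hr'] at hrow
          rw [hrow]; simp
        · push Not at hrk
          have hks : k ≤ s := le_trans hrk hr
          have hp : (k : ℕ) + (r - k) ≤ s := by omega
          have := congrFun hΛ ⟨(⟨k, by omega⟩, ⟨r - k, by omega⟩), hp⟩
          simp only [Λ, LinearMap.coe_mk, AddHom.coe_mk, Pi.zero_apply] at this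
          rw [dif_pos hk] at this
          rw [poly_eval]
          have hcast : (((k : ℕ) + ((k : ℕ) + (r - k)) : ℕ) : ℝ) = (k : ℝ) + (r : ℝ) := by
            rw [show k + (k + (r - k)) = k + r by omega]; push_cast; ring
          rw [hcast] at this
          exact this
      by_contra hne0
      have hdeg := poly_natDegree z (e.symm ⟨k, hk⟩)
      have hsub : (Finset.range (s + 1)).image (fun r : ℕ => (k : ℝ) + (r : ℝ))
          ⊆ (poly z (e.symm ⟨k, hk⟩)).roots.toFinset := by
        intro w hw
        rw [Finset.mem_image] at hw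
        obtain ⟨r, hr, rfl⟩ := hw
        rw [Multiset.mem_toFinset, mem_roots hne0, IsRoot.def]
        exact hroot r (by rw [Finset.mem_range] at hr; omega)
      have hc := Finset.card_le_card hsub
      rw [Finset.card_image_of_injective _ (by
        intro r r' h
        have : (r : ℝ) = (r' : ℝ) := by linarith
        exact_mod_cast this), Finset.card_range] at hc
      have h1 := Multiset.toFinset_card_le (poly z (e.symm ⟨k, hk⟩)).roots
      have h2 := Polynomial.card_roots' (poly z (e.symm ⟨k, hk⟩))
      omega
  funext p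
  obtain ⟨v, c⟩ := p
  have := hmain (e v) (e v).2
  have hv : e.symm ⟨(e v : ℕ), (e v).2⟩ = v := by simp
  rw [hv] at this
  exact poly_eq_zero z v this c

/-- a motion built from bivariate data -/
noncomputable def triv (g : Idx s → ℝ) (a b : ℝ) : ℝ[X] :=
  ∑ p : Idx s, C (g p) * ((C a * X - C b) ^ (p.1.1 : ℕ) * X ^ (p.1.2 : ℕ))

lemma triv_natDegree (g : Idx s → ℝ) (a b : ℝ) : (triv s g a b).natDegree ≤ s := by
  unfold triv
  apply natDegree_sum_le_of_forall_le
  intro p _
  refine le_trans (natDegree_C_mul_le _ _) ?_
  refine le_trans natDegree_mul_le ?_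
  rw [natDegree_X_pow]
  have h1 : ((C a * X - C b : ℝ[X]) ^ (p.1.1 : ℕ)).natDegree ≤ (p.1.1 : ℕ) := by
    refine le_trans natDegree_pow_le ?_
    have : (C a * X - C b : ℝ[X]).natDegree ≤ 1 := by
      rw [sub_eq_add_neg, ← C_neg]
      exact natDegree_linear_le
    nlinarith
  have := p.2
  omega

lemma triv_eval (g : Idx s → ℝ) (a b w : ℝ) :
    (triv s g a b).eval w = ∑ p : Idx s, g p * ((a * w - b) ^ (p.1.1 : ℕ) * w ^ (p.1.2 : ℕ)) := by
  unfold triv
  rw [eval_finsetSum]
  simp

/-- Part A: the trivial motions. -/
theorem ker_ge (x y : V → ℝ) (hx : Function.Injective x) (hN : s + 1 ≤ Fintype.card V) :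
    (s + 2).choose 2 ≤ Module.finrank ℝ (LinearMap.ker (cofM s (⊤ : SimpleGraph V) x y).mulVecLin) := by
  classical
  rw [← card_Idx s]
  let Θ : (Idx s → ℝ) →ₗ[ℝ] (V × Fin (s + 1) → ℝ) :=
    { toFun := fun g q => (triv s g (x q.1) (y q.1)).coeff q.2
      map_add' := by
        intro g g'
        funext q
        simp only [Pi.add_apply]
        rw [← coeff_add]
        congr 1
        unfold triv
        rw [← Finset.sum_add_distrib]
        refine Finset.sum_congr rfl fun p _ => ?_
        rw [Pi.add_apply, C_add]; ring
      map_smul' := by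
        intro r g
        funext q
        simp only [Pi.smul_apply, smul_eq_mul, RingHom.id_apply]
        rw [← coeff_C_mul]
        congr 1
        unfold triv
        rw [Finset.mul_sum]
        refine Finset.sum_congr rfl fun p _ => ?_
        rw [Pi.smul_apply, smul_eq_mul, C_mul]; ring }
  have hpoly : ∀ g v, poly (Θ g) v = triv s g (x v) (y v) := by
    intro g v
    ext n
    by_cases hn : n < s + 1
    · have := poly_coeff (Θ g) v ⟨n, hn⟩
      simp only at this
      rw [this]
      rfl
    · rw [coeff_eq_zero_of_natDegree_lt (lt_of_le_of_lt (poly_natDegree _ _) (by omega)),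
        coeff_eq_zero_of_natDegree_lt (lt_of_le_of_lt (triv_natDegree s g _ _) (by omega))]
  have hker : ∀ g, Θ g ∈ LinearMap.ker (cofM s (⊤ : SimpleGraph V) x y).mulVecLin := by
    intro g
    rw [LinearMap.mem_ker, Matrix.mulVecLin_apply]
    funext e
    obtain ⟨v, w⟩ := e
    by_cases hvw : v = w
    · subst hvw
      simp [Matrix.mulVec, dotProduct, cofM]
    · have hadj : (⊤ : SimpleGraph V).Adj v w := hvw
      have hxne : x v ≠ x w := fun h => hvw (hx h)
      rw [Pi.zero_apply, edge_iff s _ _ _ _ _ _ hadj hxne, hpoly, hpoly, triv_eval, triv_eval]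
      have hd : x v - x w ≠ 0 := sub_ne_zero.2 hxne
      have heq : x v * ((y v - y w) / (x v - x w)) - y v = x w * ((y v - y w) / (x v - x w)) - y w := by
        field_simp
        ring
      rw [heq]
  have hinj : Function.Injective Θ := by
    rw [← LinearMap.ker_eq_bot, LinearMap.ker_eq_bot']
    intro g hg
    have hz : ∀ v, triv s g (x v) (y v) = 0 := by
      intro v
      rw [← hpoly, hg]
      unfold poly
      simp
    -- bad slopes
    let bad : Finset ℝ := (Finset.univ : Finset (V × V)).image
      (fun q => (y q.1 - y q.2) / (x q.1 - x q.2))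
    let G : ℕ → ℝ[X] := fun j => ∑ p : Idx s, if (p.1.1 : ℕ) = j then C (g p) * X ^ (p.1.2 : ℕ) else 0
    have hG : ∀ w, w ∉ bad → ∀ j, j ≤ s → (G j).eval w = 0 := by
      intro w hw
      -- polynomial in the other variable
      let H : ℝ[X] := ∑ j ∈ Finset.range (s + 1), C ((G j).eval w) * X ^ j
      have hHdeg : H.natDegree ≤ s := by
        apply natDegree_sum_le_of_forall_le
        intro j hj
        refine le_trans (natDegree_C_mul_X_pow_le _ _) ?_
        rw [Finset.mem_range] at hj; omega
      have hHeval : ∀ Y, H.eval Y = ∑ p : Idx s, g p * (Y ^ (p.1.1 : ℕ) * w ^ (p.1.2 : ℕ)) := by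
        intro Y
        simp only [H, G, eval_finsetSum, eval_mul, eval_C, eval_pow, eval_X]
        have : ∀ j ∈ Finset.range (s + 1),
            (∑ p : Idx s, eval w (if (p.1.1 : ℕ) = j then C (g p) * X ^ (p.1.2 : ℕ) else 0)) * Y ^ j
            = ∑ p : Idx s, if (p.1.1 : ℕ) = j then g p * (Y ^ (p.1.1 : ℕ) * w ^ (p.1.2 : ℕ)) else 0 := by
          intro j _
          rw [Finset.sum_mul]
          refine Finset.sum_congr rfl fun p _ => ?_
          split_ifs with h
          · rw [h]; simp; ring
          · simp
        rw [Finset.sum_congr rfl this, Finset.sum_comm]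
        refine Finset.sum_congr rfl fun p _ => ?_
        rw [Finset.sum_ite_eq]
        rw [if_pos]
        rw [Finset.mem_range]
        exact p.1.1.2
      have hHroot : ∀ v, H.eval (x v * w - y v) = 0 := by
        intro v
        rw [hHeval]
        have := congrArg (eval w) (hz v)
        rw [triv_eval, eval_zero] at this
        exact this
      have hH0 : H = 0 := by
        by_contra hne0
        have hdist : Function.Injective (fun v => x v * w - y v) := by
          intro v v' h
          by_contra hvv
          apply hw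
          simp only [bad, Finset.mem_image]
          refine ⟨(v, v'), Finset.mem_univ _, ?_⟩
          simp only
          have hd : x v - x v' ≠ 0 := sub_ne_zero.2 (fun h' => hvv (hx h'))
          simp only at h
          rw [div_eq_iff hd]
          linarith
        have hsub : (Finset.univ : Finset V).image (fun v => x v * w - y v) ⊆ H.roots.toFinset := by
          intro Y hY
          rw [Finset.mem_image] at hY
          obtain ⟨v, _, rfl⟩ := hY
          rw [Multiset.mem_toFinset, mem_roots hne0, IsRoot.def]
          exact hHroot v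
        have hc := Finset.card_le_card hsub
        rw [Finset.card_image_of_injective _ hdist, Finset.card_univ] at hc
        have h1 := Multiset.toFinset_card_le H.roots
        have h2 := Polynomial.card_roots' H
        omega
      intro j hj
      have : H.coeff j = (G j).eval w := by
        simp only [H, finsetSum_coeff, coeff_C_mul, coeff_X_pow]
        rw [Finset.sum_eq_single j]
        · simp
        · intro b _ hb
          rw [if_neg (Ne.symm hb), mul_zero]
        · intro h
          exact absurd (Finset.mem_range.2 (by omega)) h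
      rw [← this, hH0, coeff_zero]
    have hG0 : ∀ j, j ≤ s → G j = 0 := by
      intro j hj
      apply Polynomial.eq_zero_of_infinite_isRoot
      apply Set.Infinite.mono (s := ((bad : Set ℝ))ᶜ)
      · intro w hw
        exact hG w hw j hj
      · exact (Finset.finite_toSet bad).infinite_compl
    funext p
    have h1 := hG0 (p.1.1 : ℕ) (by have := p.2; omega)
    have h2 : (G (p.1.1 : ℕ)).coeff (p.1.2 : ℕ) = g p := by
      simp only [G, finsetSum_coeff]
      rw [Finset.sum_eq_single p]
      · simp
      · intro p' _ hp'
        by_cases h3 : (p'.1.1 : ℕ) = (p.1.1 : ℕ)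
        · rw [if_pos h3, coeff_C_mul, coeff_X_pow, if_neg, mul_zero]
          intro h4
          apply hp'
          apply Subtype.ext
          exact Prod.ext (Fin.ext h3) (Fin.ext h4.symm)
        · rw [if_neg h3, coeff_zero]
      · intro h; exact absurd (Finset.mem_univ _) h
    rw [← h2, h1, coeff_zero]
    rfl
  have hinj' : Function.Injective (Θ.codRestrict _ hker) := by
    intro g g' h
    apply hinj
    exact congrArg Subtype.val h
  have := LinearMap.finrank_le_finrank_of_injective hinj'
  simpa using this

end Pool.Agent.Helper598.CofactorAB
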