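import Mathlib
import Pool.Agent.Helper598.CofactorAB

set_option autoImplicit false
set_option linter.unusedSectionVars false

namespace Pool.Agent.Helper598.CofactorC

open Polynomial Pool.Agent.Helper598.Cofactor Pool.Agent.Helper598.CofactorAB

variable {V : Type} [Fintype V] (s : ℕ)

/-- ranks can only go up under small perturbations -/
lemma rank_semicont (G : SimpleGraph V) (x x0 y : V → ℝ) :
    ∀ᶠ t in nhds (0 : ℝ), (cofM s G x y).rank ≤ (cofM s G (fun v => x v + t * x0 v) y).rank := by
  classical
  let f : ℝ → (V × V) → (V × Fin (s + 1) → ℝ) := fun t => (cofM s G (fun v => x v + t * x0 v) y).row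
  have hf0 : f 0 = (cofM s G x y).row := by
    simp [f]
  obtain ⟨κ, a, ha, hspan, hli⟩ := exists_linearIndependent' ℝ (f 0)
  have : Finite κ := Finite.of_injective a ha
  have : Fintype κ := Fintype.ofFinite κ
  have hrank0 : (cofM s G x y).rank = Fintype.card κ := by
    rw [Matrix.rank_eq_finrank_span_row, ← hf0, ← hspan]
    exact finrank_span_eq_card hli
  have hcont : Continuous (fun t => f t ∘ a) := by
    refine continuous_pi fun i => continuous_pi fun c => ?_
    change Continuous (fun t => cofM s G (fun v => x v + t * x0 v) y (a i) c)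
    simp only [cofM, Matrix.of_apply]
    split_ifs
    · fun_prop
    · fun_prop
    · fun_prop
    · fun_prop
  have hopen := isOpen_setOfPred_linearIndependent (𝕜 := ℝ) (E := V × Fin (s + 1) → ℝ) (ι := κ)
  have hev : ∀ᶠ t in nhds (0 : ℝ), LinearIndependent ℝ (f t ∘ a) :=
    hcont.continuousAt.eventually (hopen.mem_nhds hli)
  filter_upwards [hev] with t ht
  rw [hrank0, Matrix.rank_eq_finrank_span_row, ← finrank_span_eq_card ht]
  apply Submodule.finrank_mono
  apply Submodule.span_mono
  rintro _ ⟨i, rfl⟩
  exact ⟨a i, rfl⟩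

/-- the rank of the complete graph is at most the expected number, at every configuration -/
theorem rank_top_le (x y : V → ℝ) (hN : s + 1 ≤ Fintype.card V) :
    (cofM s (⊤ : SimpleGraph V) x y).rank + (s + 2).choose 2 ≤ (s + 1) * Fintype.card V := by
  classical
  let x0 : V → ℝ := fun v => ((Fintype.equivFin V v : ℕ) : ℝ)
  have hx0 : Function.Injective x0 := by
    intro v w h
    have h' : ((Fintype.equivFin V v : ℕ) : ℝ) = ((Fintype.equivFin V w : ℕ) : ℝ) := h
    have h1 : ((Fintype.equivFin V v : ℕ)) = (Fintype.equivFin V w : ℕ) := by exact_mod_cast h'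
    exact (Fintype.equivFin V).injective (Fin.ext h1)
  let bad : Finset ℝ := (Finset.univ : Finset (V × V)).image
      (fun q => -(x q.1 - x q.2) / (x0 q.1 - x0 q.2))
  have hbad : ∀ᶠ t in nhds (0 : ℝ), t ∉ bad.erase 0 := by
    have : IsOpen ((bad.erase 0 : Finset ℝ) : Set ℝ)ᶜ :=
      (Finset.finite_toSet _).isClosed.isOpen_compl
    apply this.mem_nhds
    simp
  have hev : ∀ᶠ t in nhdsWithin (0 : ℝ) {0}ᶜ,
      ((cofM s (⊤ : SimpleGraph V) x y).rank ≤
        (cofM s (⊤ : SimpleGraph V) (fun v => x v + t * x0 v) y).rank ∧ t ∉ bad.erase 0) ∧ t ≠ 0 :=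
    (((rank_semicont s ⊤ x x0 y).and hbad).filter_mono nhdsWithin_le_nhds).and
      eventually_mem_nhdsWithin
  obtain ⟨t, ⟨h1, h2⟩, h3⟩ := hev.exists
  have hinj : Function.Injective (fun v => x v + t * x0 v) := by
    intro v w h
    by_contra hvw
    apply h2
    rw [Finset.mem_erase]
    refine ⟨h3, ?_⟩
    simp only [bad, Finset.mem_image]
    refine ⟨(v, w), Finset.mem_univ _, ?_⟩
    have hd : x0 v - x0 w ≠ 0 := sub_ne_zero.2 (fun h' => hvw (hx0 h'))
    simp only at h ⊢
    rw [div_eq_iff hd]
    linarith
  have h4 := ker_ge s (fun v => x v + t * x0 v) y hinj hN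
  have h5 := rank_add_ker s (⊤ : SimpleGraph V) (fun v => x v + t * x0 v) y
  omega

/-- the complete graph attains the expected rank -/
theorem rank_top_attained : ∃ x y : V → ℝ,
    (s + 1) * Fintype.card V ≤ (cofM s (⊤ : SimpleGraph V) x y).rank + (s + 2).choose 2 := by
  refine ⟨fun v => ((Fintype.equivFin V v : ℕ) : ℝ),
    fun v => ((Fintype.equivFin V v : ℕ) : ℝ) ^ 2, ?_⟩
  · have h1 := parabola_ker s (Fintype.card V) (Fintype.equivFin V)
    have h2 := rank_add_ker s (⊤ : SimpleGraph V) (fun v => ((Fintype.equivFin V v : ℕ) : ℝ))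
      (fun v => ((Fintype.equivFin V v : ℕ) : ℝ) ^ 2)
    omega

/-- Part C: a configuration of the complete bipartite graph with a small kernel. -/
theorem bip_ker (a n : ℕ) (hn : LocalCells.off a (s + 1) ≤ n * a) :
    ∃ x y : Fin (s + 1 + a) ⊕ Fin n → ℝ,
      Module.finrank ℝ (LinearMap.ker
        (cofM s (completeBipartiteGraph (Fin (s + 1 + a)) (Fin n)) x y).mulVecLin)
        ≤ (s + 2).choose 2 := by
  classical
  -- red heights
  let h : Fin (s + 1 + a) → ℝ := fun i => ((i : ℕ) : ℝ)
  have hh : Function.Injective h := by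
    intro i j hij
    have h' : ((i : ℕ) : ℝ) = ((j : ℕ) : ℝ) := hij
    exact Fin.ext (by exact_mod_cast h')
  let M : ℝ[X] := Lagrange.nodal Finset.univ h
  have hM : M.Monic := Lagrange.nodal_monic
  have hdeg : M.natDegree = s + 1 + a := by
    simp [M, Lagrange.natDegree_nodal]
  obtain ⟨t, ht, hgood⟩ := BipCells.exists_good s a n M hM hdeg hn
  let α : Fin n → ℝ := fun j => t j ^ (a + s + 2)
  let β : Fin n → ℝ := fun j => t j ^ (a + s + 1)
  have hα : ∀ j, α j ≠ 0 := fun j => pow_ne_zero _ (ht j)
  refine ⟨Sum.elim (fun _ => 0) (fun j => -(α j)⁻¹), Sum.elim h (fun j => -(β j) / (α j)), ?_⟩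
  set x : Fin (s + 1 + a) ⊕ Fin n → ℝ := Sum.elim (fun _ => 0) (fun j => -(α j)⁻¹) with hxdef
  set y : Fin (s + 1 + a) ⊕ Fin n → ℝ := Sum.elim h (fun j => -(β j) / (α j)) with hydef
  rw [← card_Idx s]
  -- interpolation polynomials
  let cc : ((Fin (s + 1 + a) ⊕ Fin n) × Fin (s + 1) → ℝ) → Fin (s + 1) → ℝ[X] := fun z k =>
    Lagrange.interpolate Finset.univ h (fun i => z (Sum.inl i, k))
  let Λ : ((Fin (s + 1 + a) ⊕ Fin n) × Fin (s + 1) → ℝ) →ₗ[ℝ] (Idx s → ℝ) :=
    { toFun := fun z p => (cc z p.1.2).coeff (p.1.1 : ℕ)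
      map_add' := by
        intro z z'
        funext p
        have : (fun i => (z + z') (Sum.inl i, p.1.2))
            = (fun i => z (Sum.inl i, p.1.2)) + (fun i => z' (Sum.inl i, p.1.2)) := by
          funext i; rfl
        simp only [cc, Pi.add_apply]
        rw [← coeff_add, ← map_add]
        rfl
      map_smul' := by
        intro r z
        funext p
        simp only [cc, Pi.smul_apply, smul_eq_mul, RingHom.id_apply]
        rw [← smul_eq_mul, ← coeff_smul, ← map_smul]
        rfl }
  apply ker_le s _ _ _ Λ
  intro z hz hΛ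
  -- degree and low coefficients
  have hcdeg : ∀ k, (cc z k).degree < (s + 1 + a : ℕ) := by
    intro k
    have := Lagrange.degree_interpolate_lt (s := Finset.univ) (v := h)
      (fun i => z (Sum.inl i, k)) hh.injOn
    simpa [cc] using this
  have hceval : ∀ k i, (cc z k).eval (h i) = z (Sum.inl i, k) := by
    intro k i
    exact Lagrange.eval_interpolate_at_node _ hh.injOn (Finset.mem_univ i)
  have hclow : ∀ (k : Fin (s + 1)) (l : ℕ), l + (k : ℕ) ≤ s → (cc z k).coeff l = 0 := by
    intro k l hl
    have := congrFun hΛ ⟨(⟨l, by omega⟩, k), hl⟩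
    simpa [Λ] using this
  have hchigh : ∀ (k : Fin (s + 1)) (l : ℕ), s + 1 + a ≤ l → (cc z k).coeff l = 0 := by
    intro k l hl
    apply coeff_eq_zero_of_degree_lt
    exact lt_of_lt_of_le (hcdeg k) (by exact_mod_cast hl)
  -- coefficient vector
  let γ : LocalCells.T s a → ℝ := fun c => (cc z c.1).coeff (s + a - LocalCells.pos c)
  have hexp : ∀ (k : Fin (s + 1)),
      cc z k = ∑ μ : Fin (a + (k : ℕ)), C ((cc z k).coeff (s + a - (μ : ℕ))) * X ^ (s + a - (μ : ℕ)) := by
    intro k
    ext l
    rw [finsetSum_coeff]
    simp only [coeff_C_mul, coeff_X_pow]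
    have hk := k.2
    by_cases h1 : l + (k : ℕ) ≤ s
    · rw [hclow k l h1]
      symm
      refine Finset.sum_eq_zero fun μ _ => ?_
      have := μ.2
      rw [if_neg (by omega), mul_zero]
    · by_cases h2 : s + 1 + a ≤ l
      · rw [hchigh k l h2]
        symm
        refine Finset.sum_eq_zero fun μ _ => ?_
        rw [if_neg (by omega), mul_zero]
      · rw [Finset.sum_eq_single (⟨s + a - l, by omega⟩ : Fin (a + (k : ℕ)))]
        · simp only
          rw [if_pos (by omega), mul_one]
          congr 1
          omega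
        · intro μ _ hμ
          have := μ.2
          rw [if_neg, mul_zero]
          intro h3
          apply hμ
          apply Fin.ext
          simp only
          omega
        · intro h3; exact absurd (Finset.mem_univ _) h3
  have hγ : γ = 0 := by
    apply hgood γ
    intro j τ hτ1 hτ2
    -- the polynomial
    have hsum : (∑ c : LocalCells.T s a, C (γ c) * (X ^ (s + a - LocalCells.pos c) *
          (C (t j ^ (a + s + 2)) * X + C (t j ^ (a + s + 1))) ^ (LocalCells.lev c)))
        = ∑ k : Fin (s + 1), cc z k * (C (α j) * X + C (β j)) ^ (k : ℕ) := by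
      rw [Fintype.sum_sigma]
      refine Finset.sum_congr rfl fun k _ => ?_
      conv_rhs => rw [hexp k]
      rw [Finset.sum_mul]
      refine Finset.sum_congr rfl fun μ _ => ?_
      simp only [γ, LocalCells.pos, LocalCells.lev, α, β]
      ring
    rw [hsum]
    set g : ℝ[X] := ∑ k : Fin (s + 1), cc z k * (C (α j) * X + C (β j)) ^ (k : ℕ) with hg
    set q : ℝ[X] := (poly z (Sum.inr j)).comp (C (α j) * X + C (β j)) with hq
    have hqdeg : q.natDegree ≤ s := by
      rw [hq]
      refine le_trans natDegree_comp_le ?_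
      have h1 : (C (α j) * X + C (β j) : ℝ[X]).natDegree ≤ 1 := natDegree_linear_le
      have h2 := poly_natDegree z (Sum.inr j : Fin (s + 1 + a) ⊕ Fin n)
      nlinarith
    have hdvd : M ∣ g - q := by
      -- agreement at all nodes
      have hnode : ∀ i, (g - q).eval (h i) = 0 := by
        intro i
        have hadj : (completeBipartiteGraph (Fin (s + 1 + a)) (Fin n)).Adj (Sum.inl i) (Sum.inr j) := by
          simp [completeBipartiteGraph]
        have hrow := congrFun hz (Sum.inl i, Sum.inr j)
        have hxne : x (Sum.inl i) ≠ x (Sum.inr j) := by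
          simp only [hxdef, Sum.elim_inl, Sum.elim_inr]
          intro h0
          have := inv_ne_zero (hα j)
          apply this
          linarith
        rw [Pi.zero_apply, edge_iff s _ _ _ z _ _ hadj hxne] at hrow
        have hsl : (y (Sum.inl i) - y (Sum.inr j)) / (x (Sum.inl i) - x (Sum.inr j))
            = α j * h i + β j := by
          simp only [hxdef, hydef, Sum.elim_inl, Sum.elim_inr]
          have := hα j
          field_simp
          ring
        rw [hsl] at hrow
        rw [eval_sub, hq, eval_comp, hg, eval_finsetSum]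
        simp only [eval_mul, eval_pow, eval_add, eval_C, eval_X]
        rw [← hrow, poly_eval]
        simp only [hceval]
        exact sub_self _
      have hcop : M = ∏ i : Fin (s + 1 + a), (X - C (h i)) := rfl
      rw [hcop]
      apply Finset.prod_dvd_of_coprime
      · intro i _ i' _ hii
        exact pairwise_coprime_X_sub_C hh hii
      · intro i _
        rw [dvd_iff_isRoot, IsRoot.def]
        exact hnode i
    have hmod : g %ₘ M = q := by
      have h1 : (g - q) %ₘ M = 0 := (modByMonic_eq_zero_iff_dvd hM).2 hdvd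
      rw [sub_modByMonic, sub_eq_zero] at h1
      rw [h1, modByMonic_eq_self_iff hM]
      rw [degree_eq_natDegree hM.ne_zero, hdeg]
      refine lt_of_le_of_lt degree_le_natDegree ?_
      exact_mod_cast (by omega : q.natDegree < s + 1 + a)
    rw [hmod]
    exact coeff_eq_zero_of_natDegree_lt (by omega)
  -- conclude
  have hcc0 : ∀ k, cc z k = 0 := by
    intro k
    rw [hexp k]
    refine Finset.sum_eq_zero fun μ _ => ?_
    have := congrFun hγ (⟨k, μ⟩ : LocalCells.T s a)
    simp only [γ, LocalCells.pos, Pi.zero_apply] at this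
    rw [this]; simp
  have hred : ∀ i k, z (Sum.inl i, k) = 0 := by
    intro i k
    rw [← hceval k i, hcc0 k, eval_zero]
  have hredp : ∀ i, poly z (Sum.inl i) = 0 := by
    intro i
    unfold poly
    simp [hred]
  have hblue : ∀ j, poly z (Sum.inr j) = 0 := by
    intro j
    by_contra hne0
    have hroot : ∀ i, (poly z (Sum.inr j)).eval (α j * h i + β j) = 0 := by
      intro i
      have hadj : (completeBipartiteGraph (Fin (s + 1 + a)) (Fin n)).Adj (Sum.inl i) (Sum.inr j) := by
        simp [completeBipartiteGraph]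
      have hrow := congrFun hz (Sum.inl i, Sum.inr j)
      have hxne : x (Sum.inl i) ≠ x (Sum.inr j) := by
        simp only [hxdef, Sum.elim_inl, Sum.elim_inr]
        intro h0
        have := inv_ne_zero (hα j)
        apply this
        linarith
      rw [Pi.zero_apply, edge_iff s _ _ _ z _ _ hadj hxne, hredp, eval_zero] at hrow
      have hsl : (y (Sum.inl i) - y (Sum.inr j)) / (x (Sum.inl i) - x (Sum.inr j))
          = α j * h i + β j := by
        simp only [hxdef, hydef, Sum.elim_inl, Sum.elim_inr]
        have := hα j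
        field_simp
        ring
      rw [hsl] at hrow
      exact hrow.symm
    have hinj : Function.Injective (fun i => α j * h i + β j) := by
      intro i i' hii
      simp only at hii
      apply hh
      have := mul_left_cancel₀ (hα j) (add_right_cancel hii)
      exact this
    have hsub : (Finset.univ : Finset (Fin (s + 1 + a))).image (fun i => α j * h i + β j)
        ⊆ (poly z (Sum.inr j)).roots.toFinset := by
      intro w hw
      rw [Finset.mem_image] at hw
      obtain ⟨i, _, rfl⟩ := hw
      rw [Multiset.mem_toFinset, mem_roots hne0, IsRoot.def]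
      exact hroot i
    have hc := Finset.card_le_card hsub
    rw [Finset.card_image_of_injective _ hinj, Finset.card_univ, Fintype.card_fin] at hc
    have h1 := Multiset.toFinset_card_le (poly z (Sum.inr j)).roots
    have h2 := Polynomial.card_roots' (poly z (Sum.inr j))
    have h3 := poly_natDegree z (Sum.inr j : Fin (s + 1 + a) ⊕ Fin n)
    omega
  funext p
  obtain ⟨v, k⟩ := p
  rcases v with i | j
  · exact hred i k
  · exact poly_eq_zero z _ (hblue j) k

end Pool.Agent.Helper598.CofactorC
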