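import Mathlib
import Pool.Agent.Helper598.CofactorC

set_option autoImplicit false
set_option linter.unusedSectionVars false

namespace Pool.Agent.Helper598.CofactorD

open Polynomial Pool.Agent.Helper598.Cofactor Pool.Agent.Helper598.CofactorAB
  Pool.Agent.Helper598.CofactorC

/-- trivial bound: at most one row per edge counts -/
theorem bip_rank_le (s m n : ℕ) (x y : Fin m ⊕ Fin n → ℝ) :
    (cofM s (completeBipartiteGraph (Fin m) (Fin n)) x y).rank ≤ m * n := by
  classical
  rw [Matrix.rank_eq_finrank_span_row]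
  set A := cofM s (completeBipartiteGraph (Fin m) (Fin n)) x y with hA
  let f : Fin m × Fin n → ((Fin m ⊕ Fin n) × Fin (s + 1) → ℝ) :=
    fun p => A.row (Sum.inl p.1, Sum.inr p.2)
  have hsub : Submodule.span ℝ (Set.range A.row) ≤ Submodule.span ℝ (Set.range f) := by
    rw [Submodule.span_le]
    rintro _ ⟨⟨v, w⟩, rfl⟩
    rcases v with i | j
    · rcases w with i' | j'
      · have : A.row (Sum.inl i, Sum.inl i') = 0 := by
          funext c
          simp [hA, Matrix.row, cofM, completeBipartiteGraph]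
        rw [this]
        exact Submodule.zero_mem _
      · exact Submodule.subset_span ⟨(i, j'), rfl⟩
    · rcases w with i' | j'
      · have : A.row (Sum.inr j, Sum.inl i') = ((-1 : ℝ) ^ (s + 1)) • f (i', j) := by
          funext c
          obtain ⟨u, k⟩ := c
          have hk : (k : ℕ) ≤ s := Nat.lt_succ_iff.1 k.2
          have hpow : ∀ X Y : ℝ, (-X) ^ (s - (k : ℕ)) * (-Y) ^ (k : ℕ)
              = (-1) ^ s * (X ^ (s - (k : ℕ)) * Y ^ (k : ℕ)) := by
            intro X Y
            rw [neg_pow X, neg_pow Y]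
            have : ((-1 : ℝ)) ^ s = (-1) ^ (s - (k : ℕ)) * (-1) ^ (k : ℕ) := by
              rw [← pow_add]; congr 1; omega
            rw [this]; ring
          have h1 := hpow (x (Sum.inl i') - x (Sum.inr j)) (y (Sum.inl i') - y (Sum.inr j))
          rw [neg_sub, neg_sub] at h1
          simp only [f, hA, Matrix.row, cofM, Matrix.of_apply, completeBipartiteGraph,
            Pi.smul_apply, smul_eq_mul]
          by_cases hu : u = Sum.inl i'
          · subst hu
            simp [h1, pow_succ]
          · by_cases hu2 : u = Sum.inr j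
            · subst hu2
              simp [h1, pow_succ]
            · simp [hu, hu2]
        rw [this]
        exact Submodule.smul_mem _ _ (Submodule.subset_span ⟨(i', j), rfl⟩)
      · have : A.row (Sum.inr j, Sum.inr j') = 0 := by
          funext c
          simp [hA, Matrix.row, cofM, completeBipartiteGraph]
        rw [this]
        exact Submodule.zero_mem _
  refine le_trans (Submodule.finrank_mono hsub) ?_
  refine le_trans (finrank_range_le_card f) ?_
  simp

lemma two_off (a s : ℕ) : 2 * LocalCells.off a (s + 1) = 2 * a * (s + 1) + s * (s + 1) := by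
  induction s with
  | zero => simp [LocalCells.off]
  | succ s ih =>
    rw [LocalCells.off_succ]
    nlinarith

lemma two_choose (s : ℕ) : 2 * (s + 2).choose 2 = (s + 2) * (s + 1) := by
  have := Nat.choose_two_right (s + 2)
  have h2 : (s + 2) * (s + 2 - 1) = (s + 2) * (s + 1) := by simp
  rw [this, h2]
  have hev : Even ((s + 2) * (s + 1)) := by
    have := Nat.even_mul_succ_self (s + 1)
    rw [mul_comm]; exact this
  exact Nat.mul_div_cancel' hev.two_dvd

theorem main (s m n : ℕ) (hs : 1 ≤ s) (hm : 2 ≤ m) (hn : 2 ≤ n) (hmn : s + 2 ≤ m + n) :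
    ((∃ x y : (Fin m ⊕ Fin n) → ℝ, ∀ x' y' : (Fin m ⊕ Fin n) → ℝ,
        (cofM s (⊤ : SimpleGraph (Fin m ⊕ Fin n)) x' y').rank ≤
          (cofM s (completeBipartiteGraph (Fin m) (Fin n)) x y).rank) ↔
      (((s : ℤ) + 1) * ((m : ℤ) + (n : ℤ)) - (((s + 2).choose 2 : ℕ) : ℤ) ≤ (m : ℤ) * (n : ℤ))) := by
  have hc := two_choose s
  constructor
  · rintro ⟨x, y, h⟩
    obtain ⟨x', y', h'⟩ := rank_top_attained (V := Fin m ⊕ Fin n) s
    have h1 := h x' y'
    have h2 := bip_rank_le s m n x y
    have h3 : (s + 1) * (m + n) ≤ m * n + (s + 2).choose 2 := by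
      have : Fintype.card (Fin m ⊕ Fin n) = m + n := by simp
      rw [this] at h'
      omega
    have h4 : (((s + 1) * (m + n) : ℕ) : ℤ) ≤ ((m * n + (s + 2).choose 2 : ℕ) : ℤ) := by
      exact_mod_cast h3
    push_cast at h4
    linarith
  · intro h
    have h0 : (s + 1) * (m + n) ≤ m * n + (s + 2).choose 2 := by
      have : (((s + 1) * (m + n) : ℕ) : ℤ) ≤ ((m * n + (s + 2).choose 2 : ℕ) : ℤ) := by
        push_cast; linarith
      exact_mod_cast this
    -- both sides are large
    have hbig : s + 2 ≤ m ∧ s + 2 ≤ n := by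
      have hcz : (2 : ℤ) * ((s + 2).choose 2 : ℕ) = ((s : ℤ) + 2) * ((s : ℤ) + 1) := by
        exact_mod_cast hc
      -- 2 (m - s - 1)(n - s - 1) ≥ s (s + 1)
      have hkey : (s : ℤ) * ((s : ℤ) + 1) ≤ 2 * (((m : ℤ) - s - 1) * ((n : ℤ) - s - 1)) := by
        nlinarith
      have hs' : (1 : ℤ) ≤ s := by exact_mod_cast hs
      have hm' : (2 : ℤ) ≤ m := by exact_mod_cast hm
      have hn' : (2 : ℤ) ≤ n := by exact_mod_cast hn
      have hmn' : (s : ℤ) + 2 ≤ m + n := by exact_mod_cast hmn
      have hpos : 0 < ((m : ℤ) - s - 1) * ((n : ℤ) - s - 1) := by nlinarith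
      rcases mul_pos_iff.1 hpos with ⟨h1, h2⟩ | ⟨h1, h2⟩
      · constructor <;> omega
      · exfalso
        -- p = s+1-m > 0, q = s+1-n > 0, p + q ≤ s
        obtain ⟨p, hp⟩ : ∃ p : ℤ, p = (s : ℤ) + 1 - m := ⟨_, rfl⟩
        obtain ⟨q, hq⟩ : ∃ q : ℤ, q = (s : ℤ) + 1 - n := ⟨_, rfl⟩
        have hp0 : 0 < p := by omega
        have hq0 : 0 < q := by omega
        have hpq : p + q ≤ s := by omega
        have hprod : ((m : ℤ) - s - 1) * ((n : ℤ) - s - 1) = p * q := by
          rw [hp, hq]; ring
        rw [hprod] at hkey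
        nlinarith [sq_nonneg (p - q), mul_pos hp0 hq0]
    obtain ⟨a, rfl⟩ : ∃ a, m = s + 1 + a := ⟨m - (s + 1), by omega⟩
    have hoff : LocalCells.off a (s + 1) ≤ n * a := by
      have h2 := two_off a s
      nlinarith
    obtain ⟨x, y, hxy⟩ := bip_ker s a n hoff
    refine ⟨x, y, fun x' y' => ?_⟩
    have h1 := rank_top_le (V := Fin (s + 1 + a) ⊕ Fin n) s x' y' (by simp; omega)
    have h2 := rank_add_ker s (completeBipartiteGraph (Fin (s + 1 + a)) (Fin n)) x y
    omega

end Pool.Agent.Helper598.CofactorD
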