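import Pool.Agent.Helper598.LHStep

/-!
The family of sequences reached by the inductive steps.
-/

namespace Pool.Agent.Helper598.LHGood

open Finset

variable {n : ℕ}

/-- Appending a number that is `0` or `1` modulo the last entry. -/
lemma good_right {s : Fin (n + 1) → ℕ} (hs : ∀ i, 0 < s i) (hG : Good (AZ s)) :
    ∀ t : ℕ, 0 < t → t % s (Fin.last n) ≤ 1 → Good (AZ (Fin.snoc (α := fun _ => ℕ) s t)) := by
  intro t
  induction t using Nat.strong_induction_on with
  | _ t ih =>
    intro ht htm
    have hm := hs (Fin.last n)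
    rcases lt_trichotomy t (s (Fin.last n)) with h | h | h
    · rw [Nat.mod_eq_of_lt h] at htm
      have : t = 1 := by omega
      subst this
      exact good_snoc_one hG
    · rw [h]
      exact good_snoc_last hs hG
    · have h1 := ih (t - s (Fin.last n)) (by omega) (by omega) (by
        rwa [← Nat.mod_eq_sub_mod h.le])
      have h2 := good_snoc_add hs (by omega) h1
      rwa [Nat.sub_add_cancel h.le] at h2

lemma rev_snoc (s : Fin n → ℕ) (t : ℕ) :
    (Fin.snoc (α := fun _ => ℕ) (s ∘ Fin.rev) t) ∘ Fin.rev = Fin.cons (α := fun _ => ℕ) t s := by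
  funext i
  refine Fin.cases ?_ (fun i => ?_) i
  · simp
  · simp [Fin.rev_succ]

/-- Prepending a number that is `0` or `1` modulo the first entry. -/
lemma good_left {s : Fin (n + 1) → ℕ} (hs : ∀ i, 0 < s i) (hG : Good (AZ s)) (t : ℕ) (ht : 0 < t)
    (htm : t % s 0 ≤ 1) : Good (AZ (Fin.cons (α := fun _ => ℕ) t s)) := by
  have h1 := good_right (s := s ∘ Fin.rev) (fun i => hs _) (good_rev hG) t ht (by
    simpa using htm)
  have h2 := good_rev h1
  rwa [rev_snoc] at h2

/-- Prepending the first entry plus a prependable number. -/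
lemma good_cons_add {s : Fin (n + 1) → ℕ} (hs : ∀ i, 0 < s i) {r : ℕ} (hr : 0 < r)
    (hG : Good (AZ (Fin.cons (α := fun _ => ℕ) r s))) :
    Good (AZ (Fin.cons (α := fun _ => ℕ) (r + s 0) s)) := by
  have h0 := good_rev hG
  rw [← rev_snoc] at h0
  have e : ∀ f : Fin (n + 2) → ℕ, (f ∘ Fin.rev) ∘ Fin.rev = f := fun f => by
    funext i; simp
  rw [e] at h0
  have h1 := good_snoc_add (s := s ∘ Fin.rev) (fun i => hs _) hr h0
  have h2 := good_rev h1
  rw [rev_snoc] at h2
  simpa using h2

/-- Sequences of length two. -/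
lemma good_two : ∀ N : ℕ, ∀ s : Fin 2 → ℕ, (∀ i, 0 < s i) → s 0 + s 1 ≤ N → Good (AZ s) := by
  intro N
  induction N with
  | zero =>
    intro s hs h
    have := hs 0
    omega
  | succ N ih =>
    have key : ∀ s : Fin 2 → ℕ, (∀ i, 0 < s i) → s 0 + s 1 ≤ N + 1 → s 0 < s 1 → Good (AZ s) := by
      intro s hs h hlt
      have h0 : s = Fin.snoc (α := fun _ => ℕ) (Fin.init s) (s 1) := (Fin.snoc_init_self s).symm
      have hpos : ∀ i, 0 < (Fin.init s : Fin 1 → ℕ) i := fun i => hs _
      have hl : (Fin.init s : Fin 1 → ℕ) (Fin.last 0) = s 0 := rfl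
      have h1 : Good (AZ (Fin.snoc (α := fun _ => ℕ) (Fin.init s : Fin 1 → ℕ) (s 1 - s 0))) := by
        apply ih
        · intro i
          refine Fin.lastCases ?_ (fun i => ?_) i
          · simp only [Fin.snoc_last]; omega
          · simp only [Fin.snoc_castSucc]; exact hpos i
        · have e0 : (Fin.snoc (α := fun _ => ℕ) (Fin.init s : Fin 1 → ℕ) (s 1 - s 0) :
              Fin 2 → ℕ) 0 = s 0 :=
            Fin.snoc_castSucc (α := fun _ => ℕ) (n := 1) (s 1 - s 0) (Fin.init s) 0
          have e1 : (Fin.snoc (α := fun _ => ℕ) (Fin.init s : Fin 1 → ℕ) (s 1 - s 0) :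
              Fin 2 → ℕ) 1 = s 1 - s 0 :=
            Fin.snoc_last (α := fun _ => ℕ) (n := 1) (s 1 - s 0) (Fin.init s)
          rw [e0, e1]
          have := hs 0
          omega
      have h2 := good_snoc_add hpos (by omega) h1
      rw [hl, Nat.sub_add_cancel hlt.le, ← h0] at h2
      exact h2
    intro s hs h
    rcases lt_trichotomy (s 0) (s 1) with hlt | heq | hgt
    · exact key s hs h hlt
    · have h0 : s = Fin.snoc (α := fun _ => ℕ) (Fin.init s) (s 1) := (Fin.snoc_init_self s).symm
      have hpos : ∀ i, 0 < (Fin.init s : Fin 1 → ℕ) i := fun i => hs _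
      have hl : (Fin.init s : Fin 1 → ℕ) (Fin.last 0) = s 0 := rfl
      have h2 := good_snoc_last hpos (good_one _)
      rw [hl, heq, ← h0] at h2
      exact h2
    · have h1 := key (s ∘ Fin.rev) (fun i => hs _) (by
        show s (Fin.rev 0) + s (Fin.rev 1) ≤ N + 1
        have e0 : (Fin.rev 0 : Fin 2) = 1 := rfl
        have e1 : (Fin.rev 1 : Fin 2) = 0 := rfl
        rw [e0, e1]
        omega) hgt
      have h2 := good_rev h1
      have e : (s ∘ Fin.rev) ∘ Fin.rev = s := by funext i; simp
      rwa [e] at h2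

/-- The family: an arbitrary pair of neighbours, extended to the right and to the left by numbers
that are `0` or `1` modulo their inner neighbour. -/
theorem good_family : ∀ (n : ℕ) (s : Fin n → ℕ), (∀ i, 0 < s i) → ∀ j : ℕ,
    (∀ (i : ℕ) (h : i + 1 < n), j < i → s ⟨i + 1, h⟩ % s ⟨i, by omega⟩ ≤ 1) →
    (∀ (i : ℕ) (h : i + 1 < n), i < j → s ⟨i, by omega⟩ % s ⟨i + 1, h⟩ ≤ 1) →
    Good (AZ s) := by
  intro n
  induction n with
  | zero =>
    intro s _ _ _ _
    refine ⟨fun _ => 0, fun σ _ v hv => ⟨fun _ => 1, AffZ.const 1, rfl, fun w _ hwv => ?_⟩⟩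
    exact absurd (Subsingleton.elim w v) hwv
  | succ n ih =>
    intro s hs j hr hl
    rcases n with - | - | n
    · exact good_one s
    · exact good_two _ s hs le_rfl
    · -- length n + 3
      by_cases hj : j < n + 1
      · have h1 := ih (Fin.init s) (fun i => hs _) j (fun i h hi => by
          exact hr i (by omega) hi) (fun i h hi => by
          exact hl i (by omega) hi)
        have h2 : Good (AZ (Fin.snoc (α := fun _ => ℕ) (Fin.init s) (s (Fin.last (n + 2))))) :=
          good_right (s := Fin.init s) (fun i => hs _) h1 (s (Fin.last _)) (hs _) (by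
            exact hr (n + 1) (by omega) hj)
        rwa [Fin.snoc_init_self] at h2
      · have h1 := ih (Fin.tail s) (fun i => hs _) (j - 1) (fun i h hi => by
          exact hr (i + 1) (by omega) (by omega)) (fun i h hi => by
          exact hl (i + 1) (by omega) (by omega))
        have h2 : Good (AZ (Fin.cons (α := fun _ => ℕ) (s 0) (Fin.tail s))) :=
          good_left (s := Fin.tail s) (fun i => hs _) h1 (s 0) (hs _) (by
            exact hl 0 (by omega) (by omega))
        rwa [Fin.cons_self_tail] at h2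

end Pool.Agent.Helper598.LHGood
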