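import Mathlib

/-!
Height functions all of whose lower faces are unimodular: an abstract gluing lemma.
-/

namespace Pool.Agent.Helper598.LHGood

open Finset

set_option linter.unusedVariables false

section abstractPart

variable {L L' : Type*} [AddCommGroup L] [AddCommGroup L']

/-- Real affine functionals. -/
def AffR (f : L → ℝ) : Prop := ∃ (a : L →+ ℝ) (c : ℝ), ∀ x, f x = a x + c

/-- Integral affine functionals. -/
def AffZ (f : L → ℤ) : Prop := ∃ (a : L →+ ℤ) (c : ℤ), ∀ x, f x = a x + c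

/-- Lower faces of the configuration `A` lifted by `ω`. -/
def Low (A : Finset L) (ω : L → ℝ) (σ : Finset L) : Prop :=
  σ ⊆ A ∧ ∃ φ : L → ℝ, AffR φ ∧ (∀ v ∈ σ, φ v = ω v) ∧ ∀ w ∈ A, w ∉ σ → φ w < ω w

/-- Integral dual functionals. -/
def UniD (σ : Finset L) : Prop :=
  ∀ v ∈ σ, ∃ l : L → ℤ, AffZ l ∧ l v = 1 ∧ ∀ w ∈ σ, w ≠ v → l w = 0

/-- Some height function has only unimodular lower faces. -/
def Good (A : Finset L) : Prop := ∃ ω : L → ℝ, ∀ σ, Low A ω σ → UniD σ

lemma AffZ.add {f g : L → ℤ} (hf : AffZ f) (hg : AffZ g) : AffZ (fun x => f x + g x) := by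
  obtain ⟨a, c, h⟩ := hf
  obtain ⟨b, d, h'⟩ := hg
  exact ⟨a + b, c + d, fun x => by simp only [h, h', AddMonoidHom.add_apply]; ring⟩

lemma AffZ.sub {f g : L → ℤ} (hf : AffZ f) (hg : AffZ g) : AffZ (fun x => f x - g x) := by
  obtain ⟨a, c, h⟩ := hf
  obtain ⟨b, d, h'⟩ := hg
  exact ⟨a - b, c - d, fun x => by simp only [h, h', AddMonoidHom.sub_apply]; ring⟩

lemma AffZ.const (k : ℤ) : AffZ (fun _ : L => k) := ⟨0, k, fun x => by simp⟩

lemma AffZ.mul {f : L → ℤ} (hf : AffZ f) (k : ℤ) : AffZ (fun x => k * f x) := by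
  obtain ⟨a, c, h⟩ := hf
  refine ⟨k • a, k * c, fun x => ?_⟩
  simp only [h, AddMonoidHom.smul_apply, smul_eq_mul]
  ring

lemma AffZ.sum {ι : Type*} (s : Finset ι) (f : ι → L → ℤ) (h : ∀ i ∈ s, AffZ (f i)) :
    AffZ (fun x => ∑ i ∈ s, f i x) := by
  classical
  induction s using Finset.induction_on with
  | empty => simpa using AffZ.const 0
  | insert a s ha ih =>
    have h1 := h a (mem_insert_self a s)
    have h2 := ih (fun i hi => h i (mem_insert_of_mem hi))
    simpa only [sum_insert ha] using h1.add h2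

lemma AffZ.comp {f : L → ℤ} (hf : AffZ f) (g : L' →+ L) (v : L) :
    AffZ (fun x => f (g x + v)) := by
  obtain ⟨a, c, h⟩ := hf
  refine ⟨a.comp g, a v + c, fun x => ?_⟩
  simp only [h, map_add, AddMonoidHom.comp_apply]
  ring

lemma AffR.comp {f : L → ℝ} (hf : AffR f) (g : L' →+ L) (v : L) :
    AffR (fun x => f (g x + v)) := by
  obtain ⟨a, c, h⟩ := hf
  refine ⟨a.comp g, a v + c, fun x => ?_⟩
  simp only [h, map_add, AddMonoidHom.comp_apply]
  ring

lemma AffR.add {f g : L → ℝ} (hf : AffR f) (hg : AffR g) : AffR (fun x => f x + g x) := by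
  obtain ⟨a, c, h⟩ := hf
  obtain ⟨b, d, h'⟩ := hg
  exact ⟨a + b, c + d, fun x => by simp only [h, h', AddMonoidHom.add_apply]; ring⟩

lemma AffR.mul {f : L → ℝ} (hf : AffR f) (k : ℝ) : AffR (fun x => k * f x) := by
  obtain ⟨a, c, h⟩ := hf
  refine ⟨(AddMonoidHom.mulLeft k).comp a, k * c, fun x => ?_⟩
  simp only [h, AddMonoidHom.comp_apply, AddMonoidHom.coe_mulLeft]
  ring

lemma AffZ.cast {f : L → ℤ} (hf : AffZ f) : AffR (fun x => (f x : ℝ)) := by
  obtain ⟨a, c, h⟩ := hf
  refine ⟨(Int.castAddHom ℝ).comp a, (c : ℝ), fun x => ?_⟩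
  simp [h]

lemma affZ_snd (r : ℤ) : AffZ (fun p : L × ℤ => p.2 - r) :=
  ⟨AddMonoidHom.snd L ℤ, -r, fun x => by simp [sub_eq_add_neg]⟩

lemma AffZ.fst {f : L → ℤ} (hf : AffZ f) : AffZ (fun p : L × ℤ => f p.1) := by
  have := hf.comp (AddMonoidHom.fst L ℤ) 0
  simpa using this

lemma AffR.fst {f : L → ℝ} (hf : AffR f) : AffR (fun p : L × ℤ => f p.1) := by
  have := hf.comp (AddMonoidHom.fst L ℤ) 0
  simpa using this

lemma AffZ.slice {f : L × ℤ → ℤ} (hf : AffZ f) (r : ℤ) : AffZ (fun x : L => f (x, r)) := by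
  have := hf.comp (AddMonoidHom.inl L ℤ) ((0 : L), r)
  simpa using this

lemma AffR.slice {f : L × ℤ → ℝ} (hf : AffR f) (r : ℤ) : AffR (fun x : L => f (x, r)) := by
  have := hf.comp (AddMonoidHom.inl L ℤ) ((0 : L), r)
  simpa using this

lemma AffR.split {f : L × ℤ → ℝ} (hf : AffR f) (r : ℤ) :
    ∃ t : ℝ, ∀ p : L × ℤ, f p = f (p.1, r) + t * ((p.2 : ℝ) - r) := by
  obtain ⟨a, c, h⟩ := hf
  refine ⟨a (0, 1), fun p => ?_⟩
  rw [h, h]
  have e : p = (p.1, r) + (p.2 - r) • ((0 : L), (1 : ℤ)) := by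
    ext <;> simp
  have e2 : a p = a (p.1, r) + (p.2 - r) • a (0, 1) := by
    conv_lhs => rw [e]
    rw [map_add, map_zsmul]
  rw [e2]
  simp only [zsmul_eq_mul]
  push_cast
  ring

lemma UniD.mono {σ τ : Finset L} (h : UniD τ) (hs : σ ⊆ τ) : UniD σ := by
  intro v hv
  obtain ⟨l, h1, h2, h3⟩ := h v (hs hv)
  exact ⟨l, h1, h2, fun w hw hwv => h3 w (hs hw) hwv⟩

/-- Transport along affine isomorphisms. -/
lemma Good.transport {A : Finset L} {A' : Finset L'} (e : L ≃+ L') (v : L')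
    (hA : ∀ x, e x + v ∈ A' ↔ x ∈ A) (hG : Good A) : Good A' := by
  classical
  obtain ⟨ω, hω⟩ := hG
  have hinv : ∀ y : L', e (e.symm (y - v)) + v = y := fun y => by simp
  refine ⟨fun y => ω (e.symm (y - v)), ?_⟩
  rintro σ ⟨hσA, φ, hφ, h1, h2⟩
  have hU := hω (σ.image fun y => e.symm (y - v)) ⟨?_, fun x => φ (e x + v), ?_, ?_, ?_⟩
  · intro y hy
    obtain ⟨l, hl, hl1, hl2⟩ := hU (e.symm (y - v)) (mem_image_of_mem _ hy)
    refine ⟨fun z => l (e.symm (z - v)), ?_, hl1, ?_⟩
    · have := hl.comp e.symm.toAddMonoidHom (e.symm (-v))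
      refine (show (fun z => l (e.symm (z - v))) = _ from ?_) ▸ this
      funext z
      simp [sub_eq_add_neg]
    · intro w hw hwy
      apply hl2 _ (mem_image_of_mem _ hw)
      intro hcon
      apply hwy
      have := e.symm.injective hcon
      simpa using this
  · intro x hx
    obtain ⟨y, hy, rfl⟩ := mem_image.1 hx
    rw [← hA, hinv]
    exact hσA hy
  · exact hφ.comp e.toAddMonoidHom v
  · intro x hx
    obtain ⟨y, hy, rfl⟩ := mem_image.1 hx
    simp only
    rw [hinv]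
    exact h1 y hy
  · intro w hw hwσ
    have h3 : e w + v ∉ σ := by
      intro hcon
      apply hwσ
      rw [mem_image]
      exact ⟨_, hcon, by simp⟩
    have := h2 _ ((hA w).2 hw) h3
    simpa using this

/-- Pyramids of height one. -/
lemma Good.pyramid {A : Finset L} (hG : Good A) (q : L) {C : Finset (L × ℤ)}
    (hC : ∀ p, p ∈ C ↔ p = (q, 0) ∨ (p.1 ∈ A ∧ p.2 = 1)) : Good C := by
  classical
  obtain ⟨ω, hω⟩ := hG
  refine ⟨fun p => ω p.1, ?_⟩
  rintro σ ⟨hσC, φ, hφ, h1, h2⟩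
  have hU := hω (A.filter fun u => (u, (1 : ℤ)) ∈ σ) ⟨filter_subset _ _, fun x => φ (x, 1),
    hφ.slice 1, ?_, ?_⟩
  · intro v hv
    rcases (hC v).1 (hσC hv) with rfl | ⟨hvA, hv1⟩
    · refine ⟨fun p => 1 - (p.2 - 0), (AffZ.const 1).sub (affZ_snd 0), by simp, ?_⟩
      intro w hw hwv
      rcases (hC w).1 (hσC hw) with rfl | ⟨hwA, hw1⟩
      · exact absurd rfl hwv
      · simp [hw1]
    · have hvv : v = (v.1, 1) := Prod.ext rfl hv1
      obtain ⟨l, hl, hl1, hl2⟩ := hU v.1 (mem_filter.2 ⟨hvA, hvv ▸ hv⟩)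
      refine ⟨fun p => l p.1 + l q * (p.2 - 1), hl.fst.add ((affZ_snd 1).mul (l q)), ?_, ?_⟩
      · simp [hl1, hv1]
      · intro w hw hwv
        rcases (hC w).1 (hσC hw) with rfl | ⟨hwA, hw1⟩
        · simp
        · have hww : w = (w.1, 1) := Prod.ext rfl hw1
          have : w.1 ≠ v.1 := fun h => hwv (by rw [hww, h, ← hvv])
          simp [hw1, hl2 w.1 (mem_filter.2 ⟨hwA, hww ▸ hw⟩) this]
  · intro v hv
    exact h1 _ (mem_filter.1 hv).2
  · intro w hw hwσ
    exact h2 (w, 1) ((hC _).2 (Or.inr ⟨hw, rfl⟩)) (fun h => hwσ (mem_filter.2 ⟨hw, h⟩))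

omit [AddCommGroup L] in
lemma exists_lam (A : Finset L) : ∃ lam : L → ℝ, (∀ u, 0 ≤ lam u ∧ lam u < 1) ∧
    ∀ u ∈ A, ∀ v ∈ A, lam u = lam v → u = v := by
  classical
  let e := A.equivFin
  refine ⟨fun u => if h : u ∈ A then ((e ⟨u, h⟩ : ℕ) : ℝ) / (A.card + 1) else 0, ?_, ?_⟩
  · intro u
    by_cases h : u ∈ A
    · simp only [h, dif_pos]
      constructor
      · positivity
      · rw [div_lt_one (by positivity)]
        have := (e ⟨u, h⟩).2
        have h2 : ((e ⟨u, h⟩ : ℕ) : ℝ) < (A.card : ℝ) := by exact_mod_cast this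
        linarith
    · simp [h]
  · intro u hu v hv huv
    simp only [hu, hv, dif_pos] at huv
    have hpos : (0 : ℝ) < (A.card : ℝ) + 1 := by positivity
    rw [div_left_inj' hpos.ne'] at huv
    have h1 : (e ⟨u, hu⟩ : ℕ) = (e ⟨v, hv⟩ : ℕ) := by exact_mod_cast huv
    have h2 := e.injective (Fin.ext h1)
    simpa using h2

/-- Stability of the lower faces under small perturbations. -/
def Rob (A : Finset L) : Prop :=
  ∀ ω : L → ℝ, (∀ σ, Low A ω σ → UniD σ) →
    ∃ ε > (0 : ℝ), ∀ ω' : L → ℝ, (∀ a ∈ A, |ω' a - ω a| ≤ ε) → ∀ σ, Low A ω' σ → UniD σ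

/-- The gluing lemma: a configuration `B` below level `r` whose top level is a full copy of `A`,
and a chimney over `A` above level `r`. -/
lemma Good.glue {A : Finset L} {B : Finset (L × ℤ)} {r : ℤ} {c : L → ℤ} (hc : AffZ c)
    (hc0 : ∀ u ∈ A, 0 ≤ c u) (hBA : ∀ p ∈ B, p.1 ∈ A) (hBr : ∀ p ∈ B, p.2 ≤ r)
    (hAB : ∀ u ∈ A, (u, r) ∈ B) {C : Finset (L × ℤ)}
    (hC : ∀ p, p ∈ C ↔ p ∈ B ∨ (p.1 ∈ A ∧ r ≤ p.2 ∧ p.2 ≤ r + c p.1))
    (hrob : Rob A) (hG : Good B) : Good C := by
  classical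
  obtain ⟨h, hh⟩ := hG
  -- the top facet
  have hfac : ∀ σ, Low A (fun u => h (u, r)) σ → UniD σ := by
    rintro σ ⟨hσA, φ, hφ, h1, h2⟩
    set t : ℝ := 1 + ∑ p ∈ B, |φ p.1 - h p| with ht
    have htp : ∀ p ∈ B, φ p.1 - h p < t := by
      intro p hp
      have h3 := single_le_sum (f := fun p => |φ p.1 - h p|) (fun i _ => abs_nonneg _) hp
      have h4 := le_abs_self (φ p.1 - h p)
      linarith
    have ht1 : 1 ≤ t := by
      have : 0 ≤ ∑ p ∈ B, |φ p.1 - h p| := sum_nonneg (fun i _ => abs_nonneg _)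
      linarith
    have hU := hh (σ.image fun u => (u, r)) ⟨?_, fun p => φ p.1 + t * ((p.2 : ℝ) - r), ?_, ?_, ?_⟩
    · intro v hv
      obtain ⟨l, hl, hl1, hl2⟩ := hU (v, r) (mem_image_of_mem _ hv)
      refine ⟨fun u => l (u, r), hl.slice r, hl1, ?_⟩
      intro w hw hwv
      exact hl2 _ (mem_image_of_mem _ hw) (fun h => hwv (congrArg Prod.fst h))
    · intro p hp
      obtain ⟨u, hu, rfl⟩ := mem_image.1 hp
      exact hAB u (hσA hu)
    · apply hφ.fst.add
      have := ((affZ_snd (L := L) r).cast).mul t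
      simpa using this
    · intro p hp
      obtain ⟨u, hu, rfl⟩ := mem_image.1 hp
      simp [h1 u hu]
    · intro p hp hpσ
      rcases (hBr p hp).lt_or_eq with hlt | heq
      · have h5 : (p.2 : ℝ) - r ≤ -1 := by
          have : p.2 + 1 ≤ r := hlt
          have : (p.2 : ℝ) + 1 ≤ r := by exact_mod_cast this
          linarith
        have h6 := htp p hp
        nlinarith
      · have hpp : p = (p.1, r) := Prod.ext rfl heq
        have h7 : p.1 ∉ σ := fun h => hpσ (mem_image.2 ⟨p.1, h, hpp.symm⟩)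
        have h8 := h2 p.1 (hBA p hp) h7
        have h9 : φ p.1 < h p := by
          rw [hpp]
          exact h8
        simp only
        rw [heq, sub_self, mul_zero, add_zero]
        exact h9
  obtain ⟨ε, hε, hrob'⟩ := hrob _ hfac
  obtain ⟨lam, hlam, hlaminj⟩ := exists_lam A
  set S : ℝ := ∑ u ∈ A, ((c u : ℝ) + (c u : ℝ) ^ 2) with hS
  have hcR : ∀ u ∈ A, (0 : ℝ) ≤ (c u : ℝ) := fun u hu => by exact_mod_cast hc0 u hu
  have hS0 : 0 ≤ S := sum_nonneg (fun u hu => by
    have := hcR u hu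
    positivity)
  have hSu : ∀ u ∈ A, (c u : ℝ) + (c u : ℝ) ^ 2 ≤ S := fun u hu =>
    single_le_sum (f := fun u => (c u : ℝ) + (c u : ℝ) ^ 2) (fun i hi => by
      have := hcR i hi
      positivity) hu
  set δ : ℝ := ε / (1 + S) with hδ
  have hδ0 : 0 < δ := by positivity
  have hδS : ∀ u ∈ A, δ * ((c u : ℝ) + (c u : ℝ) ^ 2) ≤ ε := by
    intro u hu
    have h1 := hSu u hu
    have h2 : δ * (1 + S) = ε := by
      rw [hδ]
      field_simp
    have h3 : δ * ((c u : ℝ) + (c u : ℝ) ^ 2) ≤ δ * (1 + S) :=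
      mul_le_mul_of_nonneg_left (by linarith) hδ0.le
    linarith
  set Γ : ℝ := 1 + ∑ p ∈ B, |h (p.1, r) - h p| with hΓ
  have hΓp : ∀ p ∈ B, h (p.1, r) - h p < Γ := by
    intro p hp
    have h3 := single_le_sum (f := fun p : L × ℤ => |h (p.1, r) - h p|) (fun i _ => abs_nonneg _) hp
    have h4 := le_abs_self (h (p.1, r) - h p)
    linarith
  have hΓ1 : 1 ≤ Γ := by
    have : 0 ≤ ∑ p ∈ B, |h (p.1, r) - h p| := sum_nonneg (fun i _ => abs_nonneg _)
    linarith
  let Ω : L × ℤ → ℝ := fun p => if p.2 ≤ r then h p else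
    h (p.1, r) + δ * (((p.2 : ℝ) - r) * lam p.1 + ((p.2 : ℝ) - r) ^ 2) + Γ * ((p.2 : ℝ) - r)
  have hΩlow : ∀ p, p.2 ≤ r → Ω p = h p := fun p hp => by simp only [Ω, hp, if_true]
  have hΩup : ∀ p, r ≤ p.2 → Ω p =
      h (p.1, r) + δ * (((p.2 : ℝ) - r) * lam p.1 + ((p.2 : ℝ) - r) ^ 2) +
        Γ * ((p.2 : ℝ) - r) := by
    intro p hp
    by_cases h1 : p.2 ≤ r
    · have h2 : p.2 = r := le_antisymm h1 hp
      rw [hΩlow p h1, h2]
      have hpp : p = (p.1, r) := Prod.ext rfl h2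
      conv_lhs => rw [hpp]
      simp
    · simp only [Ω, h1, if_false]
  have hupC : ∀ u ∈ A, ∀ y : ℤ, 0 ≤ y → y ≤ c u → (u, r + y) ∈ C := fun u hu y h0 h1 =>
    (hC _).2 (Or.inr ⟨hu, by simp only; omega, by simp only; omega⟩)
  refine ⟨Ω, ?_⟩
  rintro Sg ⟨hSC, Φ, hΦ, hΦ1, hΦ2⟩
  have hle : ∀ p ∈ C, Φ p ≤ Ω p := by
    intro p hp
    by_cases hpS : p ∈ Sg
    · exact (hΦ1 p hpS).le
    · exact (hΦ2 p hp hpS).le
  obtain ⟨t, ht⟩ := hΦ.split r
  by_cases hcase : ∀ p ∈ Sg, p.2 ≤ r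
  · -- lower part
    apply hh Sg
    refine ⟨?_, Φ, hΦ, ?_, ?_⟩
    · intro p hp
      rcases (hC p).1 (hSC hp) with h1 | ⟨h1, h2, h3⟩
      · exact h1
      · have h4 : p.2 = r := le_antisymm (hcase p hp) h2
        have : p = (p.1, r) := Prod.ext rfl h4
        rw [this]
        exact hAB _ h1
    · intro v hv
      rw [hΦ1 v hv, hΩlow v (hcase v hv)]
    · intro w hw hwσ
      have := hΦ2 w ((hC w).2 (Or.inl hw)) hwσ
      rwa [hΩlow w (hBr w hw)] at this
  · -- upper part
    push Not at hcase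
    obtain ⟨p', hp', hp'r⟩ := hcase
    have hbase : ∀ u ∈ A, Φ (u, r) ≤ h (u, r) := by
      intro u hu
      have := hle (u, r) ((hC _).2 (Or.inl (hAB u hu)))
      rwa [hΩlow _ le_rfl] at this
    have hup : ∀ p ∈ Sg, r ≤ p.2 := by
      intro p hp
      by_contra hcon
      push Not at hcon
      have hpB : p ∈ B := by
        rcases (hC p).1 (hSC hp) with h1 | ⟨h1, h2, h3⟩
        · exact h1
        · omega
      have hp'A : p'.1 ∈ A ∧ p'.2 ≤ r + c p'.1 := by
        rcases (hC p').1 (hSC hp') with h1 | ⟨h1, h2, h3⟩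
        · exact absurd (hBr _ h1) (by omega)
        · exact ⟨h1, h3⟩
      have e1 := hΦ1 p hp
      have e2 := hΦ1 p' hp'
      rw [ht p, hΩlow p hcon.le] at e1
      rw [ht p', hΩup p' hp'r.le] at e2
      have b1 := hbase _ (hBA p hpB)
      have b2 := hbase _ hp'A.1
      have g1 := hΓp p hpB
      have a1 : (1 : ℝ) ≤ (r : ℝ) - p.2 := by
        have : p.2 + 1 ≤ r := hcon
        have : (p.2 : ℝ) + 1 ≤ r := by exact_mod_cast this
        linarith
      have a2 : (1 : ℝ) ≤ (p'.2 : ℝ) - r := by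
        have : r + 1 ≤ p'.2 := hp'r
        have : (r : ℝ) + 1 ≤ p'.2 := by exact_mod_cast this
        linarith
      set α : ℝ := (p'.2 : ℝ) - r
      set β : ℝ := (r : ℝ) - p.2
      have e1' : Φ (p.1, r) - t * β = h p := by rw [← e1]; ring
      have l0 := (hlam p'.1).1
      have q1 : 0 ≤ δ * (α * lam p'.1 + α ^ 2) := by positivity
      -- slope bounds
      have s1 : t * β < Γ := by linarith
      have s2 : Γ * α ≤ t * α := by linarith
      have s3 : Γ ≤ t := le_of_mul_le_mul_right s2 (by linarith)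
      nlinarith
    -- the projection to A
    have hmemA : ∀ p ∈ Sg, p.1 ∈ A ∧ p.2 ≤ r + c p.1 := by
      intro p hp
      rcases (hC p).1 (hSC hp) with h1 | ⟨h1, h2, h3⟩
      · have h2 := hBr p h1
        have h3 := hc0 _ (hBA p h1)
        exact ⟨hBA p h1, by omega⟩
      · exact ⟨h1, h3⟩
    let F : L → ℤ → ℝ := fun u y => δ * ((y : ℝ) * lam u + (y : ℝ) ^ 2) + (Γ - t) * y
    have hF1 : ∀ u ∈ A, ∀ y : ℤ, 0 ≤ y → y ≤ c u → Φ (u, r) ≤ h (u, r) + F u y := by
      intro u hu y h0 h1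
      have h2 := hle _ (hupC u hu y h0 h1)
      rw [ht, hΩup _ (by simp only; omega)] at h2
      simp only [F]
      push_cast at h2
      have e : (r : ℝ) + y - r = y := by ring
      rw [e] at h2
      linarith
    have hF2 : ∀ p ∈ Sg, Φ (p.1, r) = h (p.1, r) + F p.1 (p.2 - r) := by
      intro p hp
      have h2 := hΦ1 p hp
      rw [ht, hΩup _ (hup p hp)] at h2
      simp only [F]
      push_cast
      linarith
    have hF3 : ∀ u ∈ A, ∀ y : ℤ, 0 ≤ y → y ≤ c u → (u, r + y) ∉ Sg →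
        Φ (u, r) < h (u, r) + F u y := by
      intro u hu y h0 h1 hn
      have h2 := hΦ2 _ (hupC u hu y h0 h1) hn
      rw [ht, hΩup _ (by simp only; omega)] at h2
      simp only [F]
      push_cast at h2
      have e : (r : ℝ) + y - r = y := by ring
      rw [e] at h2
      linarith
    -- minimizers
    have hmin : ∀ u ∈ A, ∃ y ∈ Finset.Icc 0 (c u), ∀ y' ∈ Finset.Icc 0 (c u), F u y ≤ F u y' :=
      fun u hu => exists_min_image _ _ ⟨0, mem_Icc.2 ⟨le_rfl, hc0 u hu⟩⟩
    choose! ym hym1 hym2 using hmin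
    set κ : ℝ := max (t - Γ) 0 with hκ
    have hσU : UniD (Sg.image Prod.fst) := by
      apply hrob' (fun u => h (u, r) + F u (ym u) + κ * c u)
      · intro u hu
        have h0 := mem_Icc.1 (hym1 u hu)
        have y0 : (0 : ℝ) ≤ (ym u : ℝ) := by exact_mod_cast h0.1
        have y1 : (ym u : ℝ) ≤ (c u : ℝ) := by exact_mod_cast h0.2
        have l0 := (hlam u).1
        have l1 := (hlam u).2
        have c0 := hcR u hu
        have d1 := hδS u hu
        have e : h (u, r) + F u (ym u) + κ * c u - h (u, r) = F u (ym u) + κ * c u := by ring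
        simp only [e]
        rw [abs_le]
        rcases le_total (t - Γ) 0 with hs | hs
        · have hκ0 : κ = 0 := max_eq_right hs
          rw [hκ0]
          have h3 := hym2 u hu 0 (mem_Icc.2 ⟨le_rfl, hc0 u hu⟩)
          have h4 : F u 0 = 0 := by simp [F]
          have h5 : 0 ≤ F u (ym u) := by
            simp only [F]
            have : 0 ≤ (Γ - t) * (ym u : ℝ) := mul_nonneg (by linarith) y0
            positivity
          constructor <;> linarith
        · have hκ0 : κ = t - Γ := max_eq_left hs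
          rw [hκ0]
          have h3 := hym2 u hu (c u) (mem_Icc.2 ⟨hc0 u hu, le_rfl⟩)
          have h4 : F u (c u) + (t - Γ) * c u ≤ ε := by
            have : F u (c u) + (t - Γ) * c u = δ * ((c u : ℝ) * lam u + (c u : ℝ) ^ 2) := by
              simp only [F]; ring
            rw [this]
            refine le_trans (mul_le_mul_of_nonneg_left ?_ hδ0.le) d1
            nlinarith
          have h5 : 0 ≤ F u (ym u) + (t - Γ) * c u := by
            have : F u (ym u) + (t - Γ) * c u =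
                δ * ((ym u : ℝ) * lam u + (ym u : ℝ) ^ 2) + (t - Γ) * ((c u : ℝ) - ym u) := by
              simp only [F]; ring
            rw [this]
            have : 0 ≤ (t - Γ) * ((c u : ℝ) - ym u) := mul_nonneg hs (by linarith)
            positivity
          constructor <;> linarith
      · refine ⟨?_, fun u => Φ (u, r) + κ * c u, (hΦ.slice r).add (hc.cast.mul κ), ?_, ?_⟩
        · intro u hu
          obtain ⟨p, hp, rfl⟩ := mem_image.1 hu
          exact (hmemA p hp).1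
        · intro u hu
          obtain ⟨p, hp, rfl⟩ := mem_image.1 hu
          have h1 := hF2 p hp
          have hA1 := (hmemA p hp)
          have h0 := mem_Icc.1 (hym1 _ hA1.1)
          have h2 := hF1 _ hA1.1 (ym p.1) h0.1 h0.2
          have h3 := hym2 _ hA1.1 (p.2 - r) (mem_Icc.2 ⟨by have := hup p hp; omega, by omega⟩)
          simp only
          linarith
        · intro w hw hwσ
          have h0 := mem_Icc.1 (hym1 _ hw)
          have h2 := hF3 w hw (ym w) h0.1 h0.2 (fun hcon => hwσ (mem_image.2 ⟨_, hcon, rfl⟩))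
          simp only
          linarith
    -- double points
    have hdbl : ∀ p ∈ Sg, ∀ q ∈ Sg, p.1 = q.1 → p.2 < q.2 →
        q.2 = p.2 + 1 ∧ δ * (lam p.1 + 2 * ((p.2 : ℝ) - r) + 1) + (Γ - t) = 0 := by
      intro p hp q hq h12 hlt
      have hA1 := hmemA p hp
      have hA2 := hmemA q hq
      have hr1 := hup p hp
      have f1 := hF2 p hp
      have f2 := hF2 q hq
      have f3 := hF1 p.1 hA1.1 (p.2 - r + 1) (by omega) (by rw [h12]; omega)
      have f4 := hF1 q.1 hA2.1 (q.2 - r - 1) (by omega) (by omega)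
      rw [← h12] at f2 f4
      simp only [F] at f1 f2 f3 f4
      push_cast at f1 f2 f3 f4
      set a : ℝ := (p.2 : ℝ) - r
      set b : ℝ := (q.2 : ℝ) - r
      have g1 : 0 ≤ δ * (lam p.1 + 2 * a + 1) + (Γ - t) := by nlinarith
      have g2 : δ * (lam p.1 + 2 * b - 1) + (Γ - t) ≤ 0 := by nlinarith
      have g3 : δ * (b - a - 1) ≤ 0 := by nlinarith
      have g4 : b - a - 1 ≤ 0 := by
        by_contra hcon
        push Not at hcon
        have := mul_pos hδ0 hcon
        linarith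
      have g5 : (q.2 : ℝ) ≤ p.2 + 1 := by
        have : b - a = (q.2 : ℝ) - p.2 := by simp only [a, b]; ring
        linarith
      have g6 : q.2 ≤ p.2 + 1 := by exact_mod_cast g5
      have g7 : q.2 = p.2 + 1 := by omega
      refine ⟨g7, ?_⟩
      have g8 : b = a + 1 := by
        simp only [a, b, g7]
        push_cast
        ring
      rw [g8] at g2
      nlinarith
    have hone : ∀ p ∈ Sg, ∀ q ∈ Sg, ∀ p₁ ∈ Sg, ∀ q₁ ∈ Sg, p.1 = q.1 → p.2 < q.2 →
        p₁.1 = q₁.1 → p₁.2 < q₁.2 → p.1 = p₁.1 := by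
      intro p hp q hq p₁ hp₁ q₁ hq₁ h12 hlt h12' hlt'
      have e1 := (hdbl p hp q hq h12 hlt).2
      have e2 := (hdbl p₁ hp₁ q₁ hq₁ h12' hlt').2
      have e3 : δ * ((lam p.1 - lam p₁.1) - 2 * ((p₁.2 : ℝ) - p.2)) = 0 := by linarith
      have e4 : lam p.1 - lam p₁.1 = 2 * ((p₁.2 : ℝ) - p.2) := by
        rcases mul_eq_zero.1 e3 with h | h
        · exact absurd h hδ0.ne'
        · linarith
      have l1 := hlam p.1
      have l2 := hlam p₁.1
      have e5 : p₁.2 - p.2 = 0 := by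
        have k1 : ((p₁.2 - p.2 : ℤ) : ℝ) < 1 := by push_cast; linarith
        have k2 : (-1 : ℝ) < ((p₁.2 - p.2 : ℤ) : ℝ) := by push_cast; linarith
        have k3 : p₁.2 - p.2 < 1 := by exact_mod_cast k1
        have k4 : -1 < p₁.2 - p.2 := by exact_mod_cast k2
        omega
      have e6 : (p₁.2 : ℝ) - p.2 = 0 := by exact_mod_cast e5
      rw [e6] at e4
      exact hlaminj _ (hmemA p hp).1 _ (hmemA p₁ hp₁).1 (by linarith)
    -- choice of the lowest points of the fibres
    have hchoice : ∀ u ∈ Sg.image Prod.fst, ∃ p ∈ Sg, p.1 = u ∧ ∀ q ∈ Sg, q.1 = u → p.2 ≤ q.2 := by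
      intro u hu
      obtain ⟨p, hp, hpu⟩ := mem_image.1 hu
      obtain ⟨m, hm1, hm2⟩ := exists_min_image (Sg.filter fun q => q.1 = u) (fun q => q.2)
        ⟨p, mem_filter.2 ⟨hp, hpu⟩⟩
      exact ⟨m, (mem_filter.1 hm1).1, (mem_filter.1 hm1).2,
        fun q hq hqu => hm2 q (mem_filter.2 ⟨hq, hqu⟩)⟩
    choose! p0 hp01 hp02 hp03 using hchoice
    have hσU' : ∀ u ∈ Sg.image Prod.fst, ∃ l : L → ℤ, AffZ l ∧ l u = 1 ∧
        ∀ w ∈ Sg.image Prod.fst, w ≠ u → l w = 0 := hσU
    choose! l hl hl1 hl2 using hσU'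
    let τ : L × ℤ → ℤ := fun p => (p.2 - r) - ∑ u ∈ Sg.image Prod.fst, ((p0 u).2 - r) * l u p.1
    have hτA : AffZ τ := by
      apply (affZ_snd r).sub
      apply AffZ.sum
      intro u hu
      exact ((hl u hu).fst).mul _
    have hτ : ∀ q ∈ Sg, τ q = q.2 - (p0 q.1).2 := by
      intro q hq
      have hq1 : q.1 ∈ Sg.image Prod.fst := mem_image_of_mem _ hq
      have : ∑ u ∈ Sg.image Prod.fst, ((p0 u).2 - r) * l u q.1 = (p0 q.1).2 - r := by
        rw [sum_eq_single q.1]
        · rw [hl1 _ hq1, mul_one]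
        · intro u hu huq
          rw [hl2 u hu q.1 hq1 (Ne.symm huq), mul_zero]
        · intro h
          exact absurd hq1 h
      simp only [τ, this]
      ring
    intro v hv
    have hv1 : v.1 ∈ Sg.image Prod.fst := mem_image_of_mem _ hv
    have hv0 := hp01 _ hv1
    have hv02 := hp02 _ hv1
    have hv03 := hp03 _ hv1 v hv rfl
    rcases hv03.lt_or_eq with hlt | heq
    · -- the upper point of a double fibre
      refine ⟨τ, hτA, ?_, ?_⟩
      · rw [hτ v hv]
        have := (hdbl _ hv0 v hv hv02 hlt).1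
        omega
      · intro w hw hwv
        have hw1 : w.1 ∈ Sg.image Prod.fst := mem_image_of_mem _ hw
        have hw03 := hp03 _ hw1 w hw rfl
        rw [hτ w hw]
        rcases hw03.lt_or_eq with hlt' | heq'
        · exfalso
          apply hwv
          have e1 := hone _ hv0 v hv _ (hp01 _ hw1) w hw hv02 hlt (hp02 _ hw1) hlt'
          rw [hv02, hp02 _ hw1] at e1
          have e2 := (hdbl _ hv0 v hv hv02 hlt).1
          have e3 := (hdbl _ (hp01 _ hw1) w hw (hp02 _ hw1) hlt').1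
          rw [← e1] at e3
          exact Prod.ext e1.symm (by omega)
        · omega
    · -- the lowest point of a fibre
      by_cases hd : ∃ q ∈ Sg, q.1 = v.1 ∧ v.2 < q.2
      · obtain ⟨q, hq, hq1, hq2⟩ := hd
        refine ⟨fun p => l v.1 p.1 - τ p, (hl _ hv1).fst.sub hτA, ?_, ?_⟩
        · simp only
          rw [hτ v hv, hl1 _ hv1]
          omega
        · intro w hw hwv
          have hw1 : w.1 ∈ Sg.image Prod.fst := mem_image_of_mem _ hw
          have hw03 := hp03 _ hw1 w hw rfl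
          simp only
          rw [hτ w hw]
          by_cases hwv1 : w.1 = v.1
          · rw [hwv1, hl1 _ hv1]
            rw [hwv1] at hw03
            have hlt' : v.2 < w.2 := by
              rcases (heq ▸ hw03 : v.2 ≤ w.2).lt_or_eq with h | h
              · exact h
              · exact absurd (Prod.ext hwv1 h.symm) hwv
            have := (hdbl v hv w hw hwv1.symm hlt').1
            omega
          · rw [hl2 _ hv1 _ hw1 hwv1]
            rcases hw03.lt_or_eq with hlt' | heq'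
            · exfalso
              apply hwv1
              have e1 := hone v hv q hq _ (hp01 _ hw1) w hw hq1.symm hq2 (hp02 _ hw1) hlt'
              rw [hp02 _ hw1] at e1
              exact e1.symm
            · omega
      · push Not at hd
        refine ⟨fun p => l v.1 p.1, (hl _ hv1).fst, hl1 _ hv1, ?_⟩
        intro w hw hwv
        have hw1 : w.1 ∈ Sg.image Prod.fst := mem_image_of_mem _ hw
        apply hl2 _ hv1 _ hw1
        intro hwv1
        apply hwv
        have h1 := hd w hw hwv1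
        have h2 := hp03 _ hw1 w hw rfl
        rw [hwv1] at h2
        exact Prod.ext hwv1 (by omega)

end abstractPart

end Pool.Agent.Helper598.LHGood
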