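import Pool.Agent.Helper489.RUT
import Pool.Agent.Helper598.LHGood

/-!
Stability of triangulations under small perturbations of the heights.
-/

namespace Pool.Agent.Helper598.LHGood

open Finset
open Pool.Agent.Helper489

variable {n : ℕ}

/-- The inclusion of the lattice. -/
def toR (f : Fin n → ℤ) : Fin n → ℝ := fun i => (f i : ℝ)

lemma toR_injective : Function.Injective (toR (n := n)) := by
  intro f g h
  funext i
  have := congrFun h i
  simpa [toR] using this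

lemma hom_pi {M : Type*} [AddCommGroup M] (a : (Fin n → ℤ) →+ M) (x : Fin n → ℤ) :
    a x = ∑ i, x i • a (Pi.single i 1) := by
  classical
  conv_lhs => rw [← Finset.univ_sum_single x]
  rw [map_sum]
  refine Finset.sum_congr rfl (fun i _ => ?_)
  rw [← map_zsmul]
  congr 1
  ext j
  by_cases h : i = j
  · subst h; simp
  · simp [Pi.single_eq_of_ne (Ne.symm h)]

lemma AffR.ev {φ : (Fin n → ℤ) → ℝ} (h : AffR φ) :
    ∃ ψ : (Fin n → ℝ) × ℝ, ∀ x, φ x = RUT.ev ψ (toR x) := by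
  classical
  obtain ⟨a, c, h⟩ := h
  refine ⟨(fun i => a (Pi.single i 1), c), fun x => ?_⟩
  rw [h, hom_pi a x]
  simp only [RUT.ev, toR, zsmul_eq_mul]
  congr 1
  refine Finset.sum_congr rfl (fun i _ => mul_comm _ _)

lemma affR_ev (ψ : (Fin n → ℝ) × ℝ) : AffR (fun x => RUT.ev ψ (toR x)) := by
  refine ⟨⟨⟨fun x => ∑ i, ψ.1 i * (x i : ℝ), by simp⟩, fun x y => ?_⟩, ψ.2, fun x => rfl⟩
  simp only [Pi.add_apply, Int.cast_add, mul_add, Finset.sum_add_distrib]

lemma AffZ.coeff {l : (Fin n → ℤ) → ℤ} (h : AffZ l) :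
    ∃ (a : Fin n → ℤ) (c : ℤ), ∀ x, l x = ∑ i, a i * x i + c := by
  classical
  obtain ⟨a, c, h⟩ := h
  refine ⟨fun i => a (Pi.single i 1), c, fun x => ?_⟩
  rw [h, hom_pi a x]
  simp only [smul_eq_mul]
  congr 1
  refine Finset.sum_congr rfl (fun i _ => mul_comm _ _)

lemma affZ_coeff (a : Fin n → ℤ) (c : ℤ) : AffZ (fun x : Fin n → ℤ => ∑ i, a i * x i + c) := by
  refine ⟨⟨⟨fun x => ∑ i, a i * x i, by simp⟩, fun x y => ?_⟩, c, fun x => rfl⟩
  simp only [Pi.add_apply, mul_add, Finset.sum_add_distrib]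

/-- Lower faces over the reals give lower faces over the integers. -/
lemma low_of_low [DecidableEq (Fin n → ℝ)] {A : Finset (Fin n → ℤ)} {ω : (Fin n → ℤ) → ℝ}
    {ωR : (Fin n → ℝ) → ℝ} (hωR : ∀ f, ωR (toR f) = ω f) {τ : Finset (Fin n → ℝ)}
    (h : RUT.Low (A.image toR) ωR τ) : Low A ω (A.filter fun f => toR f ∈ τ) := by
  obtain ⟨h1, ψ, h2, h3⟩ := h
  refine ⟨filter_subset _ _, fun x => RUT.ev ψ (toR x), affR_ev ψ, ?_, ?_⟩
  · intro v hv
    simp only
    rw [h2 _ (mem_filter.1 hv).2, hωR]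
  · intro w hw hw2
    have := h3 (toR w) (mem_image_of_mem _ hw) (fun hc => hw2 (mem_filter.2 ⟨hw, hc⟩))
    rwa [hωR] at this

lemma rob {A : Finset (Fin n → ℤ)}
    (hsep : ∀ φ : (Fin n → ℝ) × ℝ, (∀ a ∈ A, RUT.ev φ (toR a) = 0) → φ = 0) : Rob A := by
  classical
  intro ω hω
  let R (η : (Fin n → ℤ) → ℝ) : (Fin n → ℝ) → ℝ := fun x => η (fun i => ⌊x i⌋)
  have hR : ∀ η f, R η (toR f) = η f := by
    intro η f
    simp [R, toR]
  have hsep' : ∀ φ : (Fin n → ℝ) × ℝ, (∀ a ∈ A.image toR, RUT.ev φ a = 0) → φ = 0 :=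
    fun φ h => hsep φ (fun a ha => h _ (mem_image_of_mem _ ha))
  have key : ∀ σ ∈ A.powerset, ∃ ε > (0 : ℝ), ∀ ω' : (Fin n → ℤ) → ℝ,
      (∀ a ∈ A, |ω' a - ω a| ≤ ε) → Low A ω' σ → UniD σ := by
    intro σ hσ
    rw [mem_powerset] at hσ
    by_cases hU : UniD σ
    · exact ⟨1, one_pos, fun _ _ _ => hU⟩
    have hne : σ.Nonempty := by
      rw [nonempty_iff_ne_empty]
      rintro rfl
      exact hU (fun v hv => absurd hv (notMem_empty v))
    have hcard : (0 : ℝ) < σ.card := by exact_mod_cast hne.card_pos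
    set k : ℝ := 1 / σ.card with hk
    have hk0 : 0 < k := by positivity
    have hk1 : ∑ v ∈ σ, k = 1 := by
      rw [sum_const, nsmul_eq_mul, hk]
      field_simp
    set p : Fin n → ℝ := ∑ v ∈ σ, k • toR v with hp
    have hpA : p ∈ convexHull ℝ ((A.image toR : Finset (Fin n → ℝ)) : Set (Fin n → ℝ)) := by
      apply (convex_convexHull ℝ _).sum_mem (fun _ _ => hk0.le) hk1
      intro v hv
      apply subset_convexHull
      exact mem_coe.2 (mem_image_of_mem _ (hσ hv))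
    obtain ⟨τ, hτ, hpτ⟩ := RUT.cover (ω := R ω) hsep' hpA
    have hlow := low_of_low (hR ω) hτ
    have hUτ := hω _ hlow
    have hnsub : ¬ σ ⊆ A.filter fun f => toR f ∈ τ := fun h => hU (hUτ.mono h)
    obtain ⟨v0, hv0, hv0τ⟩ := not_subset.1 hnsub
    obtain ⟨hτA, ψ, hψ1, hψ2⟩ := hτ
    obtain ⟨w, hw0, hw1, hwp⟩ := Finset.mem_convexHull.1 hpτ
    have hwp' : ∑ y ∈ τ, w y • y = p := by
      rw [← hwp, centerMass_eq_of_sum_1 _ _ hw1]
      rfl
    have hevp : ∀ φ : (Fin n → ℝ) × ℝ, ∑ v ∈ σ, k * RUT.ev φ (toR v) =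
        ∑ y ∈ τ, w y * RUT.ev φ y := by
      intro φ
      rw [← RUT.ev_comb_one σ (fun _ => k) (fun v => toR v) φ hk1,
        ← RUT.ev_comb_one τ w (fun y => y) φ hw1, hwp']
    have hψle : ∀ v ∈ A, RUT.ev ψ (toR v) ≤ ω v := by
      intro v hv
      by_cases h : toR v ∈ τ
      · rw [hψ1 _ h, hR]
      · have := hψ2 _ (mem_image_of_mem _ hv) h
        rw [hR] at this
        exact this.le
    have hv0A : v0 ∈ A := hσ hv0
    have hv0lt : RUT.ev ψ (toR v0) < ω v0 := by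
      have := hψ2 _ (mem_image_of_mem _ hv0A) (fun h => hv0τ (mem_filter.2 ⟨hv0A, h⟩))
      rwa [hR] at this
    have hgap : ∑ y ∈ τ, w y * R ω y < ∑ v ∈ σ, k * ω v := by
      have e1 : ∑ y ∈ τ, w y * R ω y = ∑ y ∈ τ, w y * RUT.ev ψ y :=
        sum_congr rfl (fun y hy => by rw [hψ1 y hy])
      rw [e1, ← hevp ψ]
      apply sum_lt_sum
      · intro v hv
        exact mul_le_mul_of_nonneg_left (hψle v (hσ hv)) hk0.le
      · exact ⟨v0, hv0, mul_lt_mul_of_pos_left hv0lt hk0⟩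
    refine ⟨(∑ v ∈ σ, k * ω v - ∑ y ∈ τ, w y * R ω y) / 4, by linarith, ?_⟩
    intro ω' hω' hlow'
    exfalso
    obtain ⟨-, φ', hφ', h1, h2⟩ := hlow'
    obtain ⟨χ, hχ⟩ := hφ'.ev
    set ε := (∑ v ∈ σ, k * ω v - ∑ y ∈ τ, w y * R ω y) / 4 with hε
    have g1 : ∑ v ∈ σ, k * ω v - ε ≤ ∑ v ∈ σ, k * RUT.ev χ (toR v) := by
      have : ∑ v ∈ σ, k * ω v - ε = ∑ v ∈ σ, k * (ω v - ε) := by
        simp only [mul_sub, sum_sub_distrib]
        rw [← sum_mul, hk1, one_mul]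
      rw [this]
      apply sum_le_sum
      intro v hv
      apply mul_le_mul_of_nonneg_left _ hk0.le
      rw [← hχ, h1 v hv]
      have := abs_le.1 (hω' v (hσ hv))
      linarith [this.1]
    have g2 : ∑ y ∈ τ, w y * RUT.ev χ y ≤ ∑ y ∈ τ, w y * R ω y + ε := by
      have : ∑ y ∈ τ, w y * R ω y + ε = ∑ y ∈ τ, w y * (R ω y + ε) := by
        simp only [mul_add, sum_add_distrib]
        rw [← sum_mul, hw1, one_mul]
      rw [this]
      apply sum_le_sum
      intro y hy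
      apply mul_le_mul_of_nonneg_left _ (hw0 y hy)
      obtain ⟨f, hf, rfl⟩ := mem_image.1 (hτA hy)
      rw [← hχ, hR]
      have h3 : φ' f ≤ ω' f := by
        by_cases h : f ∈ σ
        · exact (h1 f h).le
        · exact (h2 f hf h).le
      have := abs_le.1 (hω' f hf)
      linarith [this.2]
    rw [hevp χ] at g1
    have : (∑ v ∈ σ, k * ω v - ∑ y ∈ τ, w y * R ω y) ≤ 2 * ε := by linarith
    rw [hε] at this
    linarith
  choose! εf hεf1 hεf2 using key
  have hne : A.powerset.Nonempty := ⟨∅, by simp⟩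
  refine ⟨A.powerset.inf' hne εf, ?_, ?_⟩
  · rw [gt_iff_lt, lt_inf'_iff]
    exact hεf1
  · intro ω' hω' σ hσ
    have hσp : σ ∈ A.powerset := mem_powerset.2 hσ.1
    exact hεf2 σ hσp ω' (fun a ha => (hω' a ha).trans (inf'_le _ hσp)) hσ

end Pool.Agent.Helper598.LHGood
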