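import Pool.Agent.Helper598.LHRob

/-!
Lattice points of lecture hall simplices and the inductive steps.
-/

namespace Pool.Agent.Helper598.LHGood

open Finset
open Pool.Agent.Helper489

variable {n : ℕ}

/-- The lattice points of the lecture hall simplex of `s`. -/
def InP (s : Fin n → ℕ) (x : Fin n → ℤ) : Prop :=
  (∀ i, 0 ≤ x i ∧ x i ≤ s i) ∧ ∀ i j, i ≤ j → x i * s j ≤ x j * s i

open Classical in
/-- The finite set of lattice points of the lecture hall simplex of `s`. -/
noncomputable def AZ (s : Fin n → ℕ) : Finset (Fin n → ℤ) :=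
  (Fintype.piFinset fun i => Finset.Icc (0 : ℤ) (s i)).filter (InP s)

lemma mem_AZ {s : Fin n → ℕ} {x : Fin n → ℤ} : x ∈ AZ s ↔ InP s x := by
  classical
  simp only [AZ, mem_filter, Fintype.mem_piFinset, mem_Icc, and_iff_right_iff_imp]
  exact fun h => h.1

/-- The lattice points affinely span the space. -/
lemma sep_AZ {s : Fin n → ℕ} (hs : ∀ i, 0 < s i) (φ : (Fin n → ℝ) × ℝ)
    (hφ : ∀ a ∈ AZ s, RUT.ev φ (toR a) = 0) : φ = 0 := by
  classical
  have hφ2 : φ.2 = 0 := by
    have := hφ (fun _ => 0) (mem_AZ.2 ⟨fun i => ⟨le_rfl, by positivity⟩, fun i j _ => by simp⟩)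
    simpa [RUT.ev, toR] using this
  have hle : ∀ k : Fin n, RUT.ev φ (toR fun y => if k ≤ y then (s y : ℤ) else 0) = 0 := by
    intro k
    apply hφ
    rw [mem_AZ]
    refine ⟨fun i => ?_, fun i j hij => ?_⟩
    · beta_reduce
      split_ifs <;> constructor <;> simp
    · beta_reduce
      by_cases h1 : k ≤ i
      · rw [if_pos h1, if_pos (h1.trans hij), mul_comm]
      · rw [if_neg h1, zero_mul]
        split_ifs <;> positivity
  have hlt : ∀ k : Fin n, RUT.ev φ (toR fun y => if k < y then (s y : ℤ) else 0) = 0 := by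
    intro k
    apply hφ
    rw [mem_AZ]
    refine ⟨fun i => ?_, fun i j hij => ?_⟩
    · beta_reduce
      split_ifs <;> constructor <;> simp
    · beta_reduce
      by_cases h1 : k < i
      · rw [if_pos h1, if_pos (h1.trans_le hij), mul_comm]
      · rw [if_neg h1, zero_mul]
        split_ifs <;> positivity
  have hφ1 : ∀ k, φ.1 k = 0 := by
    intro k
    have a3 : RUT.ev φ (toR fun y => if k ≤ y then (s y : ℤ) else 0) -
        RUT.ev φ (toR fun y => if k < y then (s y : ℤ) else 0) = φ.1 k * s k := by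
      simp only [RUT.ev, toR]
      rw [add_sub_add_right_eq_sub, ← Finset.sum_sub_distrib, Finset.sum_eq_single k]
      · simp
      · intro y _ hyk
        by_cases h : k ≤ y
        · have : k < y := lt_of_le_of_ne h (Ne.symm hyk)
          rw [if_pos h, if_pos this, sub_self]
        · have : ¬ k < y := fun h' => h h'.le
          rw [if_neg h, if_neg this, sub_self]
      · intro h; exact absurd (mem_univ k) h
    rw [hle, hlt, sub_zero] at a3
    have b3 : (0 : ℝ) < (s k : ℝ) := by exact_mod_cast hs k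
    rcases mul_eq_zero.1 a3.symm with h | h
    · exact h
    · exact absurd h b3.ne'
  exact Prod.ext (funext hφ1) hφ2

lemma rob_AZ {s : Fin n → ℕ} (hs : ∀ i, 0 < s i) : Rob (AZ s) :=
  rob (fun φ h => sep_AZ hs φ h)

/-- Splitting off the last coordinate. -/
def snocE (n : ℕ) : (Fin n → ℤ) × ℤ ≃+ (Fin (n + 1) → ℤ) where
  toFun p := Fin.snoc (α := fun _ => ℤ) p.1 p.2
  invFun x := (Fin.init x, x (Fin.last n))
  left_inv := by intro p; simp
  right_inv := by intro x; simp
  map_add' p q := by
    funext i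
    refine Fin.lastCases ?_ (fun i => ?_) i <;> simp

/-- Splitting off the last coordinate, after a shear. -/
def shearE (n : ℕ) : (Fin (n + 1) → ℤ) × ℤ ≃+ (Fin (n + 2) → ℤ) where
  toFun p := Fin.snoc (α := fun _ => ℤ) p.1 (p.2 + p.1 (Fin.last n))
  invFun x := (Fin.init x, x (Fin.last (n + 1)) - x (Fin.castSucc (Fin.last n)))
  left_inv := by
    intro p
    ext <;> simp
  right_inv := by
    intro x
    funext i
    refine Fin.lastCases ?_ (fun i => ?_) i <;> simp [Fin.init]
  map_add' p q := by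
    funext i
    refine Fin.lastCases ?_ (fun i => ?_) i
    · simp
      ring
    · simp

lemma inP_snoc {s : Fin n → ℕ} {r : ℕ} {u : Fin n → ℤ} {y : ℤ} :
    InP (Fin.snoc (α := fun _ => ℕ) s r) (Fin.snoc (α := fun _ => ℤ) u y) ↔
      InP s u ∧ (0 ≤ y ∧ y ≤ r) ∧ ∀ i, u i * r ≤ y * s i := by
  constructor
  · rintro ⟨h1, h2⟩
    refine ⟨⟨fun i => ?_, fun i j hij => ?_⟩, ?_, fun i => ?_⟩
    · simpa using h1 i.castSucc
    · simpa using h2 i.castSucc j.castSucc (by simpa using hij)
    · simpa using h1 (Fin.last n)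
    · simpa using h2 i.castSucc (Fin.last n) (Fin.le_last _)
  · rintro ⟨⟨h1, h2⟩, h3, h4⟩
    refine ⟨fun i => ?_, fun i j hij => ?_⟩
    · refine Fin.lastCases ?_ (fun i => ?_) i
      · simpa using h3
      · simpa using h1 i
    · revert hij
      refine Fin.lastCases ?_ (fun j => ?_) j
      · refine Fin.lastCases ?_ (fun i => ?_) i
        · intro _; exact le_rfl
        · intro _; simpa using h4 i
      · refine Fin.lastCases ?_ (fun i => ?_) i
        · intro hij
          exfalso
          have := (Fin.castSucc_lt_last j)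
          exact absurd (hij.trans_lt this) (lt_irrefl _)
        · intro hij
          simpa using h2 i j (by simpa using hij)

/-- For nonempty sequences only the last constraint matters. -/
lemma inP_snoc' {s : Fin (n + 1) → ℕ} (hs : ∀ i, 0 < s i) {r : ℕ} {u : Fin (n + 1) → ℤ} {y : ℤ} :
    InP (Fin.snoc (α := fun _ => ℕ) s r) (Fin.snoc (α := fun _ => ℤ) u y) ↔
      InP s u ∧ y ≤ r ∧ u (Fin.last n) * r ≤ y * s (Fin.last n) := by
  rw [inP_snoc]
  constructor
  · rintro ⟨h1, h2, h3⟩
    exact ⟨h1, h2.2, h3 _⟩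
  · rintro ⟨h1, h2, h3⟩
    have hm : (0 : ℤ) < s (Fin.last n) := by exact_mod_cast hs (Fin.last n)
    have hu0 := (h1.1 (Fin.last n)).1
    have hr : (0 : ℤ) ≤ r := by positivity
    have hy0 : 0 ≤ y := by
      by_contra hcon
      push Not at hcon
      have : y * s (Fin.last n) < 0 := mul_neg_of_neg_of_pos hcon hm
      have : 0 ≤ u (Fin.last n) * r := mul_nonneg hu0 hr
      omega
    refine ⟨h1, ⟨hy0, h2⟩, fun i => ?_⟩
    have h4 := h1.2 i (Fin.last n) (Fin.le_last _)
    have hsi : (0 : ℤ) < s i := by exact_mod_cast hs i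
    have e1 : u i * s (Fin.last n) * r ≤ u (Fin.last n) * s i * r :=
      mul_le_mul_of_nonneg_right h4 hr
    have e2 : u (Fin.last n) * r * s i ≤ y * s (Fin.last n) * s i :=
      mul_le_mul_of_nonneg_right h3 hsi.le
    have e3 : (u i * r) * s (Fin.last n) ≤ (y * s i) * s (Fin.last n) := by nlinarith
    exact le_of_mul_le_mul_right e3 hm

lemma Good.level {L : Type*} [AddCommGroup L] {A : Finset L} (hG : Good A) {C : Finset (L × ℤ)}
    (hC : ∀ p, p ∈ C ↔ p.1 ∈ A ∧ p.2 = 0) : Good C := by
  classical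
  obtain ⟨ω, hω⟩ := hG
  refine ⟨fun p => ω p.1, ?_⟩
  rintro σ ⟨hσC, φ, hφ, h1, h2⟩
  have hU := hω (A.filter fun u => (u, (0 : ℤ)) ∈ σ) ⟨filter_subset _ _, fun x => φ (x, 0),
    hφ.slice 0, ?_, ?_⟩
  · intro v hv
    obtain ⟨hvA, hv0⟩ := (hC v).1 (hσC hv)
    have hvv : v = (v.1, 0) := Prod.ext rfl hv0
    obtain ⟨l, hl, hl1, hl2⟩ := hU v.1 (mem_filter.2 ⟨hvA, hvv ▸ hv⟩)
    refine ⟨fun p => l p.1, hl.fst, hl1, ?_⟩
    intro w hw hwv
    obtain ⟨hwA, hw0⟩ := (hC w).1 (hσC hw)
    have hww : w = (w.1, 0) := Prod.ext rfl hw0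
    have : w.1 ≠ v.1 := fun h => hwv (by rw [hww, h, ← hvv])
    exact hl2 w.1 (mem_filter.2 ⟨hwA, hww ▸ hw⟩) this
  · intro v hv
    exact h1 _ (mem_filter.1 hv).2
  · intro w hw hwσ
    exact h2 (w, 0) ((hC _).2 ⟨hw, rfl⟩) (fun h => hwσ (mem_filter.2 ⟨hw, h⟩))

/-- Chimneys. -/
lemma Good.chimney {L : Type*} [AddCommGroup L] {A : Finset L} (hG : Good A) (hrob : Rob A)
    {c : L → ℤ} (hc : AffZ c) (hc0 : ∀ u ∈ A, 0 ≤ c u) {C : Finset (L × ℤ)}
    (hC : ∀ p, p ∈ C ↔ p.1 ∈ A ∧ 0 ≤ p.2 ∧ p.2 ≤ c p.1) : Good C := by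
  classical
  have hB : ∀ p : L × ℤ, p ∈ A.image (fun u => (u, (0 : ℤ))) ↔ p.1 ∈ A ∧ p.2 = 0 := by
    intro p
    rw [mem_image]
    constructor
    · rintro ⟨u, hu, rfl⟩
      exact ⟨hu, rfl⟩
    · rintro ⟨h1, h2⟩
      exact ⟨p.1, h1, Prod.ext rfl h2.symm⟩
  refine Good.glue (A := A) (B := A.image fun u => (u, (0 : ℤ))) (r := 0) hc hc0 ?_ ?_ ?_ ?_ hrob
    (hG.level hB)
  · intro p hp; exact ((hB p).1 hp).1
  · intro p hp; exact ((hB p).1 hp).2.le
  · intro u hu; exact (hB _).2 ⟨hu, rfl⟩
  · intro p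
    rw [hC, hB]
    constructor
    · rintro ⟨h1, h2, h3⟩
      right
      exact ⟨h1, h2, by omega⟩
    · rintro (⟨h1, h2⟩ | ⟨h1, h2, h3⟩)
      · exact ⟨h1, h2.ge, by rw [h2]; exact hc0 _ h1⟩
      · exact ⟨h1, h2, by omega⟩

/-- Appending `1`. -/
lemma good_snoc_one {s : Fin n → ℕ} (hG : Good (AZ s)) :
    Good (AZ (Fin.snoc (α := fun _ => ℕ) s 1)) := by
  classical
  refine Good.transport (snocE n) 0 (A := (AZ (Fin.snoc (α := fun _ => ℕ) s 1)).image
    (snocE n).symm) (fun x => ?_) ?_
  · rw [add_zero, mem_image]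
    constructor
    · intro h
      exact ⟨_, h, by simp⟩
    · rintro ⟨y, hy, rfl⟩
      simpa using hy
  · apply hG.pyramid (fun _ => 0)
    rintro ⟨u, y⟩
    have h0 : ((u, y) ∈ (AZ (Fin.snoc (α := fun _ => ℕ) s 1)).image (snocE n).symm) ↔
        InP (Fin.snoc (α := fun _ => ℕ) s 1) (Fin.snoc (α := fun _ => ℤ) u y) := by
      rw [← mem_AZ, mem_image]
      constructor
      · rintro ⟨x, hx, hxe⟩
        have : x = snocE n (u, y) := by rw [← hxe]; simp
        rw [this] at hx
        exact hx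
      · intro h
        exact ⟨snocE n (u, y), h, by simp⟩
    rw [h0, inP_snoc, mem_AZ]
    constructor
    · rintro ⟨h1, ⟨h2, h3⟩, h4⟩
      rcases h2.lt_or_eq with h | h
      · right
        refine ⟨h1, ?_⟩
        simp only [Nat.cast_one] at h3
        simp only
        omega
      · left
        rw [← h]
        refine Prod.ext (funext fun i => ?_) rfl
        have h5 := h4 i
        have h6 := (h1.1 i).1
        rw [← h] at h5
        simp only [Nat.cast_one, mul_one, zero_mul] at h5
        exact le_antisymm h5 h6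
    · rintro (h | ⟨h1, h2⟩)
      · rw [Prod.mk.injEq] at h
        obtain ⟨rfl, rfl⟩ := h
        refine ⟨⟨fun i => ⟨le_rfl, by positivity⟩, fun i j _ => by simp⟩, ⟨le_rfl, by simp⟩,
          fun i => by simp⟩
      · simp only at h1 h2
        subst h2
        refine ⟨h1, ⟨by norm_num, by simp⟩, fun i => ?_⟩
        have := (h1.1 i).2
        simp only [Nat.cast_one, mul_one, one_mul]
        exact this

/-- Appending the last entry plus a given appendable number. -/
lemma good_snoc_add {s : Fin (n + 1) → ℕ} (hs : ∀ i, 0 < s i) {r : ℕ} (hr : 0 < r)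
    (hG : Good (AZ (Fin.snoc (α := fun _ => ℕ) s r))) :
    Good (AZ (Fin.snoc (α := fun _ => ℕ) s (r + s (Fin.last n)))) := by
  classical
  have hm : (0 : ℤ) < s (Fin.last n) := by exact_mod_cast hs (Fin.last n)
  have hr' : (0 : ℤ) < r := by exact_mod_cast hr
  -- the lower part
  have hBiff : ∀ u y, ((u, y) ∈ (AZ (Fin.snoc (α := fun _ => ℕ) s r)).image (snocE (n + 1)).symm) ↔
        InP (Fin.snoc (α := fun _ => ℕ) s r) (Fin.snoc (α := fun _ => ℤ) u y) := by
    intro u y
    rw [← mem_AZ, mem_image]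
    constructor
    · rintro ⟨x, hx, hxe⟩
      have : x = snocE (n + 1) (u, y) := by rw [← hxe]; simp
      rw [this] at hx
      exact hx
    · intro h
      exact ⟨snocE (n + 1) (u, y), h, by simp⟩
  have hB : Good ((AZ (Fin.snoc (α := fun _ => ℕ) s r)).image (snocE (n + 1)).symm) := by
    refine Good.transport (snocE (n + 1)).symm 0 (A := AZ (Fin.snoc (α := fun _ => ℕ) s r))
      (fun x => ?_) hG
    rw [add_zero, mem_image]
    constructor
    · rintro ⟨y, hy, hyx⟩
      rwa [(snocE (n + 1)).symm.injective hyx] at hy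
    · intro h
      exact ⟨x, h, rfl⟩
  set T := AZ (Fin.snoc (α := fun _ => ℕ) s (r + s (Fin.last n))) with hT
  refine Good.transport (shearE n) 0 (A := T.image (shearE n).symm) (fun x => ?_) ?_
  · rw [add_zero, mem_image]
    constructor
    · intro h
      exact ⟨_, h, by simp⟩
    · rintro ⟨y, hy, rfl⟩
      simpa using hy
  · refine Good.glue (A := AZ s) (r := (r : ℤ)) (c := fun u => s (Fin.last n) - u (Fin.last n))
      ?_ ?_ ?_ ?_ ?_ ?_ (rob_AZ hs) hB
    · apply (AffZ.const _).sub
      exact ⟨Pi.evalAddMonoidHom _ (Fin.last n), 0, fun x => by simp⟩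
    · intro u hu
      have := ((mem_AZ.1 hu).1 (Fin.last n)).2
      omega
    · rintro ⟨u, y⟩ hp
      rw [hBiff, inP_snoc' hs] at hp
      exact mem_AZ.2 hp.1
    · rintro ⟨u, y⟩ hp
      rw [hBiff, inP_snoc' hs] at hp
      exact hp.2.1
    · intro u hu
      rw [mem_AZ] at hu
      rw [hBiff, inP_snoc' hs]
      refine ⟨hu, le_rfl, ?_⟩
      rw [mul_comm]
      exact mul_le_mul_of_nonneg_left (hu.1 _).2 hr'.le
    · rintro ⟨u, z⟩
      rw [hBiff, inP_snoc' hs]
      have h0 : ((u, z) ∈ T.image (shearE n).symm) ↔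
          InP (Fin.snoc (α := fun _ => ℕ) s (r + s (Fin.last n)))
            (Fin.snoc (α := fun _ => ℤ) u (z + u (Fin.last n))) := by
        rw [← mem_AZ, mem_image]
        constructor
        · rintro ⟨x, hx, hxe⟩
          have : x = shearE n (u, z) := by rw [← hxe]; simp
          rw [this] at hx
          exact hx
        · intro h
          exact ⟨shearE n (u, z), h, by simp⟩
      rw [h0, inP_snoc' hs, mem_AZ]
      push_cast
      constructor
      · rintro ⟨h1, h2, h3⟩
        rcases le_total z r with hz | hz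
        · left
          exact ⟨h1, hz, by nlinarith⟩
        · right
          exact ⟨h1, hz, by omega⟩
      · rintro (⟨h1, h2, h3⟩ | ⟨h1, h2, h3⟩)
        · have := (h1.1 (Fin.last n)).2
          exact ⟨h1, by omega, by nlinarith⟩
        · have h4 := (h1.1 (Fin.last n)).2
          have h5 := (h1.1 (Fin.last n)).1
          refine ⟨h1, by omega, ?_⟩
          have h6 : u (Fin.last n) * r ≤ s (Fin.last n) * z := by
            calc u (Fin.last n) * r ≤ s (Fin.last n) * r :=
                  mul_le_mul_of_nonneg_right h4 hr'.le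
              _ ≤ s (Fin.last n) * z := mul_le_mul_of_nonneg_left h2 hm.le
          nlinarith

/-- Appending the last entry again. -/
lemma good_snoc_last {s : Fin (n + 1) → ℕ} (hs : ∀ i, 0 < s i) (hG : Good (AZ s)) :
    Good (AZ (Fin.snoc (α := fun _ => ℕ) s (s (Fin.last n)))) := by
  classical
  have hm : (0 : ℤ) < s (Fin.last n) := by exact_mod_cast hs (Fin.last n)
  set T := AZ (Fin.snoc (α := fun _ => ℕ) s (s (Fin.last n))) with hT
  refine Good.transport (shearE n) 0 (A := T.image (shearE n).symm) (fun x => ?_) ?_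
  · rw [add_zero, mem_image]
    constructor
    · intro h
      exact ⟨_, h, by simp⟩
    · rintro ⟨y, hy, rfl⟩
      simpa using hy
  · refine Good.chimney hG (rob_AZ hs) (c := fun u => s (Fin.last n) - u (Fin.last n)) ?_ ?_ ?_
    · apply (AffZ.const _).sub
      exact ⟨Pi.evalAddMonoidHom _ (Fin.last n), 0, fun x => by simp⟩
    · intro u hu
      have := ((mem_AZ.1 hu).1 (Fin.last n)).2
      omega
    · rintro ⟨u, z⟩
      have h0 : ((u, z) ∈ T.image (shearE n).symm) ↔
          InP (Fin.snoc (α := fun _ => ℕ) s (s (Fin.last n)))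
            (Fin.snoc (α := fun _ => ℤ) u (z + u (Fin.last n))) := by
        rw [← mem_AZ, mem_image]
        constructor
        · rintro ⟨x, hx, hxe⟩
          have : x = shearE n (u, z) := by rw [← hxe]; simp
          rw [this] at hx
          exact hx
        · intro h
          exact ⟨shearE n (u, z), h, by simp⟩
      rw [h0, inP_snoc' hs, mem_AZ]
      constructor
      · rintro ⟨h1, h2, h3⟩
        refine ⟨h1, ?_, by simp only; omega⟩
        have h4 : 0 * (s (Fin.last n) : ℤ) ≤ z * s (Fin.last n) := by nlinarith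
        exact le_of_mul_le_mul_right h4 hm
      · rintro ⟨h1, h2, h3⟩
        simp only at h1 h2 h3
        refine ⟨h1, by omega, ?_⟩
        have := mul_nonneg h2 hm.le
        nlinarith

/-- Sequences of length one. -/
lemma good_one (s : Fin 1 → ℕ) : Good (AZ s) := by
  classical
  have hpt : Good (AZ (Fin.elim0 : Fin 0 → ℕ)) := by
    refine ⟨fun _ => 0, fun σ _ v hv => ⟨fun _ => 1, AffZ.const 1, rfl, fun w _ hwv => ?_⟩⟩
    exact absurd (Subsingleton.elim w v) hwv
  refine Good.transport (snocE 0) 0 (A := (AZ s).image (snocE 0).symm) (fun x => ?_) ?_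
  · rw [add_zero, mem_image]
    constructor
    · intro h
      exact ⟨_, h, by simp⟩
    · rintro ⟨y, hy, rfl⟩
      simpa using hy
  · refine Good.chimney hpt (rob_AZ (fun i => i.elim0)) (c := fun _ => (s 0 : ℤ))
      (AffZ.const _) (fun u _ => by positivity) ?_
    rintro ⟨u, y⟩
    rw [mem_image, mem_AZ]
    constructor
    · rintro ⟨x, hx, hxe⟩
      have : x = snocE 0 (u, y) := by rw [← hxe]; simp
      rw [this, mem_AZ] at hx
      have h1 := hx.1 0
      have h2 : (snocE 0 (u, y)) 0 = y :=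
        Fin.snoc_last (α := fun _ => ℤ) (n := 0) y u
      rw [h2] at h1
      exact ⟨⟨fun i => i.elim0, fun i => i.elim0⟩, h1.1, h1.2⟩
    · rintro ⟨-, h1, h2⟩
      refine ⟨snocE 0 (u, y), ?_, by simp⟩
      rw [mem_AZ]
      have h3 : ∀ i : Fin 1, (snocE 0 (u, y)) i = y := by
        intro i
        have : i = Fin.last 0 := Subsingleton.elim _ _
        rw [this]
        exact Fin.snoc_last (α := fun _ => ℤ) (n := 0) y u
      refine ⟨fun i => ?_, fun i j _ => ?_⟩
      · rw [h3, Subsingleton.elim i 0]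
        exact ⟨h1, h2⟩
      · rw [h3, h3, Subsingleton.elim i j]

/-- Reversal. -/
lemma good_rev {s : Fin n → ℕ} (hG : Good (AZ s)) : Good (AZ (s ∘ Fin.rev)) := by
  classical
  let e : (Fin n → ℤ) ≃+ (Fin n → ℤ) :=
    { toFun := fun x => fun i => - x (Fin.rev i)
      invFun := fun x => fun i => - x (Fin.rev i)
      left_inv := fun x => by funext i; simp
      right_inv := fun x => by funext i; simp
      map_add' := fun x y => by funext i; simp; ring }
  refine Good.transport e (fun i => (s (Fin.rev i) : ℤ)) (fun x => ?_) hG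
  rw [mem_AZ, mem_AZ]
  have he : ∀ i, (e x + fun i => (s (Fin.rev i) : ℤ)) i = s (Fin.rev i) - x (Fin.rev i) := by
    intro i
    simp only [e, Pi.add_apply, AddEquiv.coe_mk, Equiv.coe_fn_mk]
    ring
  constructor
  · rintro ⟨h1, h2⟩
    refine ⟨fun i => ?_, fun i j hij => ?_⟩
    · have := h1 (Fin.rev i)
      rw [he, Fin.rev_rev] at this
      simp only [Function.comp_apply, Fin.rev_rev] at this
      constructor <;> omega
    · have := h2 (Fin.rev j) (Fin.rev i) (Fin.rev_le_rev.2 hij)
      rw [he, he, Fin.rev_rev, Fin.rev_rev] at this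
      simp only [Function.comp_apply, Fin.rev_rev] at this
      nlinarith
  · rintro ⟨h1, h2⟩
    refine ⟨fun i => ?_, fun i j hij => ?_⟩
    · have := h1 (Fin.rev i)
      rw [he]
      simp only [Function.comp_apply]
      constructor <;> omega
    · have := h2 (Fin.rev j) (Fin.rev i) (Fin.rev_le_rev.2 hij)
      rw [he, he]
      simp only [Function.comp_apply]
      nlinarith

end Pool.Agent.Helper598.LHGood
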