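import Mathlib

set_option autoImplicit false
set_option linter.unusedSectionVars false
set_option linter.unusedSimpArgs false

namespace Pool.Agent.Helper598.Parallel

open Finset MvPolynomial

section General

variable {V F κ : Type} [DecidableEq V] [DecidableEq F] [DecidableEq κ]

/-- row of the incidence `e` with non-constant normal coordinates `n`. -/
def row {A : Type} [CommRing A] (n : F → κ → A) (e : V × F) : F ⊕ (V × Option κ) → A :=
  Sum.elim (fun j => if j = e.2 then 1 else 0)
    (fun q => if q.1 = e.1 then (q.2.elim 1 (n e.2)) else 0)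

@[simp] lemma row_inl {A : Type} [CommRing A] (n : F → κ → A) (e : V × F) (j : F) :
    row n e (Sum.inl j) = if j = e.2 then 1 else 0 := rfl

@[simp] lemma row_inr {A : Type} [CommRing A] (n : F → κ → A) (e : V × F) (i : V) (c : Option κ) :
    row n e (Sum.inr (i, c)) = if i = e.1 then (c.elim 1 (n e.2)) else 0 := rfl

/-- ring homs act on rows -/
lemma map_row {A B : Type} [CommRing A] [CommRing B] (f : A →+* B) (n : F → κ → A) (e : V × F)
    (c : F ⊕ (V × Option κ)) :
    f (row n e c) = row (fun j k => f (n j k)) e c := by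
  rcases c with j | ⟨i, c⟩
  · simp only [row_inl]; split_ifs <;> simp
  · simp only [row_inr]
    split_ifs
    · cases c <;> simp
    · simp

end General

section Generic

variable {V F κ : Type} [DecidableEq V] [DecidableEq F] [DecidableEq κ]
variable (k : Type) [Field k]

/-- The polynomial ring in the normal coordinates. -/
abbrev PR (F κ : Type) (k : Type) [Field k] := MvPolynomial (F × κ) k

/-- its fraction field -/
abbrev QR (F κ : Type) (k : Type) [Field k] := FractionRing (MvPolynomial (F × κ) k)

/-- generic normals in the polynomial ring -/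
noncomputable def gp (F κ : Type) (k : Type) [Field k] : F → κ → PR F κ k :=
  fun j c => MvPolynomial.X (j, c)

/-- generic normals in the fraction field -/
noncomputable def gq (F κ : Type) (k : Type) [Field k] : F → κ → QR F κ k :=
  fun j c => algebraMap (PR F κ k) (QR F κ k) (MvPolynomial.X (j, c))

lemma pderiv_row (j0 : F) (k0 : κ) (e : V × F) (c : F ⊕ (V × Option κ)) :
    pderiv (j0, k0) (row (gp F κ k) e c) =
      if e.2 = j0 then (Pi.single (Sum.inr (e.1, some k0)) (1 : PR F κ k) :
        F ⊕ (V × Option κ) → PR F κ k) c else 0 := by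
  rcases c with j | ⟨i, c⟩
  · simp only [row_inl]
    split_ifs <;> simp
  · simp only [row_inr]
    cases c with
    | none =>
      split_ifs <;> simp
    | some c =>
      by_cases h1 : i = e.1
      · by_cases h2 : e.2 = j0
        · by_cases h3 : c = k0
          · subst h3; subst h2; simp [h1, gp]
          · simp [h1, gp, h2, pderiv_X, h3]
        · simp [h1, gp, h2, pderiv_X]
      · simp [h1]

lemma deriv_dep (s : Finset (V × F)) (μ : V × F → PR F κ k)
    (h : ∑ e ∈ s, μ e • row (gp F κ k) e = 0) (j0 : F) (k0 : κ) :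
    ∑ e ∈ s, (pderiv (j0, k0) (μ e)) • row (gp F κ k) e
      + ∑ e ∈ s, (if e.2 = j0 then μ e else 0) •
          (Pi.single (Sum.inr (e.1, some k0)) (1 : PR F κ k) : F ⊕ (V × Option κ) → PR F κ k) = 0 := by
  funext c
  have hc := congrFun h c
  have hd := congrArg (pderiv (j0, k0)) hc
  simp only [Finset.sum_apply, Pi.smul_apply, smul_eq_mul, Pi.zero_apply, map_sum,
    Derivation.leibniz, map_zero] at hd
  simp only [Pi.add_apply, Finset.sum_apply, Pi.smul_apply, smul_eq_mul, Pi.zero_apply]
  refine Eq.trans ?_ hd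
  rw [← Finset.sum_add_distrib]
  refine Finset.sum_congr rfl fun e _ => ?_
  rw [pderiv_row]
  split_ifs
  · ring
  · ring

/-- If `lam` is a dependency of the generic rows (over the fraction field) then the derived vector
lies in the row space. -/
lemma deriv_mem (s : Finset (V × F)) (lam : V × F → QR F κ k)
    (h : ∑ e ∈ s, lam e • row (gq F κ k) e = 0) (j0 : F) (k0 : κ) :
    ∑ e ∈ s, (if e.2 = j0 then lam e else 0) •
          (Pi.single (Sum.inr (e.1, some k0)) (1 : QR F κ k) : F ⊕ (V × Option κ) → QR F κ k)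
      ∈ Submodule.span (QR F κ k) ((fun e => row (gq F κ k) e) '' (s : Set (V × F))) := by
  classical
  obtain ⟨b, hb⟩ := IsLocalization.exist_integer_multiples (nonZeroDivisors (PR F κ k)) s lam
  have hb0 : algebraMap (PR F κ k) (QR F κ k) (b : PR F κ k) ≠ 0 := by
    intro h0
    have : (b : PR F κ k) = 0 := by
      apply IsFractionRing.injective (PR F κ k) (QR F κ k)
      rw [h0, map_zero]
    exact nonZeroDivisors.coe_ne_zero b this
  -- choose polynomial multiples
  have hb' : ∀ e : V × F, ∃ p : PR F κ k, e ∈ s →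
      algebraMap (PR F κ k) (QR F κ k) p = algebraMap (PR F κ k) (QR F κ k) (b : PR F κ k) * lam e := by
    intro e
    by_cases he : e ∈ s
    · obtain ⟨p, hp⟩ := hb e he
      refine ⟨p, fun _ => ?_⟩
      rw [hp, Algebra.smul_def]
    · exact ⟨0, fun h => absurd h he⟩
  choose μ hμ using hb'
  have hrow : ∀ (e : V × F) (c : F ⊕ (V × Option κ)),
      algebraMap (PR F κ k) (QR F κ k) (row (gp F κ k) e c) = row (gq F κ k) e c := by
    intro e c
    rw [map_row]
    rfl
  have hdep : ∑ e ∈ s, μ e • row (gp F κ k) e = 0 := by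
    funext c
    apply IsFractionRing.injective (PR F κ k) (QR F κ k)
    have hc := congrFun h c
    simp only [Finset.sum_apply, Pi.smul_apply, smul_eq_mul, Pi.zero_apply, map_sum, map_mul,
      map_zero] at hc ⊢
    calc ∑ e ∈ s, algebraMap (PR F κ k) (QR F κ k) (μ e) *
          algebraMap (PR F κ k) (QR F κ k) (row (gp F κ k) e c)
        = ∑ e ∈ s, algebraMap (PR F κ k) (QR F κ k) (b : PR F κ k) *
            (lam e * row (gq F κ k) e c) := by
          refine Finset.sum_congr rfl fun e he => ?_
          rw [hμ e he, hrow]; ring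
      _ = 0 := by rw [← Finset.mul_sum, hc, mul_zero]
  have hder := deriv_dep k s μ hdep j0 k0
  have key : algebraMap (PR F κ k) (QR F κ k) (b : PR F κ k) •
      (∑ e ∈ s, (if e.2 = j0 then lam e else 0) •
          (Pi.single (Sum.inr (e.1, some k0)) (1 : QR F κ k) : F ⊕ (V × Option κ) → QR F κ k))
      = - ∑ e ∈ s, algebraMap (PR F κ k) (QR F κ k) (pderiv (j0, k0) (μ e)) • row (gq F κ k) e := by
    rw [eq_neg_iff_add_eq_zero, add_comm]
    funext c
    have hc := congrArg (algebraMap (PR F κ k) (QR F κ k)) (congrFun hder c)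
    simp only [Pi.add_apply, Finset.sum_apply, Pi.smul_apply, smul_eq_mul, Pi.zero_apply, map_sum,
      map_mul, map_zero, map_add] at hc ⊢
    refine Eq.trans ?_ hc
    congr 1
    · refine Finset.sum_congr rfl fun e he => ?_
      rw [hrow]
    · rw [Finset.mul_sum]
      refine Finset.sum_congr rfl fun e he => ?_
      split_ifs with h2
      · rw [hμ e he]
        by_cases h3 : c = Sum.inr (e.1, some k0)
        · subst h3; simp
        · simp [Pi.single_apply, h3]
      · simp
  have hmem : algebraMap (PR F κ k) (QR F κ k) (b : PR F κ k) •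
      (∑ e ∈ s, (if e.2 = j0 then lam e else 0) •
          (Pi.single (Sum.inr (e.1, some k0)) (1 : QR F κ k) : F ⊕ (V × Option κ) → QR F κ k))
      ∈ Submodule.span (QR F κ k) ((fun e => row (gq F κ k) e) '' (s : Set (V × F))) := by
    rw [key]
    refine Submodule.neg_mem _ (Submodule.sum_mem _ fun e he => Submodule.smul_mem _ _ ?_)
    exact Submodule.subset_span ⟨e, he, rfl⟩
  exact (Submodule.smul_mem_iff _ hb0).1 hmem

end Generic

section Linear

variable {V F κ : Type} [DecidableEq V] [DecidableEq F] [DecidableEq κ] [Fintype κ]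
variable {K : Type} [Field K]

/-- unit vector of a column -/
abbrev us (K : Type) [Field K] (c : F ⊕ (V × Option κ)) : F ⊕ (V × Option κ) → K :=
  Pi.single c (1 : K)

lemma row_expand (n : F → κ → K) (e : V × F) :
    row n e = us K (Sum.inl e.2) + us K (Sum.inr (e.1, none))
      + ∑ c : κ, n e.2 c • us K (Sum.inr (e.1, some c)) := by
  funext x
  rcases x with j | ⟨i, c⟩
  · simp [Pi.single_apply, Finset.sum_apply]
  · cases c with
    | none =>
      by_cases h : i = e.1
      · simp [Pi.single_apply, Finset.sum_apply, h]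
      · simp [Pi.single_apply, Finset.sum_apply, h]
    | some c =>
      by_cases h : i = e.1
      · simp [Pi.single_apply, Finset.sum_apply, h]
      · simp [Pi.single_apply, Finset.sum_apply, h]

/-- the genericity property used in the argument -/
def GenProp (V : Type) [DecidableEq V] (n : F → κ → K) : Prop :=
  ∀ (s : Finset (V × F)) (lam : V × F → K), ∑ e ∈ s, lam e • row n e = 0 →
    ∀ (j0 : F) (k0 : κ),
      ∑ e ∈ s, (if e.2 = j0 then lam e else 0) • us K (Sum.inr (e.1, some k0))
        ∈ Submodule.span K ((fun e => row n e) '' (s : Set (V × F)))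

lemma mult_dep (n : F → κ → K) (hG : GenProp V n) (s : Finset (V × F))
    (φ : (F ⊕ (V × Option κ) → K) →ₗ[K] K) (hφ : ∀ e ∈ s, φ (row n e) = 0)
    (lam : V × F → K) (h : ∑ e ∈ s, lam e • row n e = 0) (c : Option κ) :
    ∑ e ∈ s, (φ (us K (Sum.inr (e.1, c))) * lam e) • row n e = 0 := by
  have hspan : ∀ w ∈ Submodule.span K ((fun e => row n e) '' (s : Set (V × F))), φ w = 0 := by
    intro w hw
    have : Submodule.span K ((fun e => row n e) '' (s : Set (V × F))) ≤ LinearMap.ker φ := by
      rw [Submodule.span_le]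
      rintro _ ⟨e, he, rfl⟩
      exact hφ e he
    exact this hw
  have hsome : ∀ (j : F) (k0 : κ),
      ∑ e ∈ s, (if e.2 = j then lam e else 0) * φ (us K (Sum.inr (e.1, some k0))) = 0 := by
    intro j k0
    have := hspan _ (hG s lam h j k0)
    simpa only [map_sum, map_smul, smul_eq_mul] using this
  have hD : ∀ j : F, ∑ e ∈ s, (if e.2 = j then lam e else 0) = 0 := by
    intro j
    have hc := congrFun h (Sum.inl j)
    simp only [Finset.sum_apply, Pi.smul_apply, smul_eq_mul, Pi.zero_apply, row_inl] at hc
    refine Eq.trans ?_ hc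
    refine Finset.sum_congr rfl fun e _ => ?_
    by_cases h1 : e.2 = j
    · simp [h1]
    · simp [h1, Ne.symm h1]
  have hall : ∀ j : F, ∑ e ∈ s, (if e.2 = j then lam e else 0) * φ (us K (Sum.inr (e.1, c))) = 0 := by
    intro j
    cases c with
    | some k0 => exact hsome j k0
    | none =>
      have hterm : ∀ e ∈ s, (if e.2 = j then lam e else 0) * φ (us K (Sum.inr (e.1, none)))
          = -((if e.2 = j then lam e else 0) * φ (us K (Sum.inl j)))
            - ∑ k0 : κ, n j k0 * ((if e.2 = j then lam e else 0) *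
                φ (us K (Sum.inr (e.1, some k0)))) := by
        intro e he
        by_cases h1 : e.2 = j
        · have h2 := hφ e he
          rw [row_expand, map_add, map_add, map_sum] at h2
          simp only [map_smul, smul_eq_mul, h1] at h2
          simp only [h1, if_true]
          have h3 : φ (us K (Sum.inr (e.1, none))) = - φ (us K (Sum.inl j))
              - ∑ x, n j x * φ (us K (Sum.inr (e.1, some x))) := by
            linear_combination h2
          rw [h3, mul_sub, Finset.mul_sum]
          congr 1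
          · ring
          · refine Finset.sum_congr rfl fun x _ => by ring
        · simp [h1]
      rw [Finset.sum_congr rfl hterm, Finset.sum_sub_distrib, Finset.sum_neg_distrib,
        ← Finset.sum_mul, hD j, Finset.sum_comm]
      simp only [← Finset.mul_sum, hsome j]
      simp
  funext x
  rcases x with j | ⟨i, c'⟩
  · simp only [Finset.sum_apply, Pi.smul_apply, smul_eq_mul, Pi.zero_apply, row_inl]
    refine Eq.trans ?_ (hall j)
    refine Finset.sum_congr rfl fun e _ => ?_
    by_cases h1 : e.2 = j
    · simp [h1, mul_comm]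
    · simp [h1, Ne.symm h1]
  · have hc := congrFun h (Sum.inr (i, c'))
    simp only [Finset.sum_apply, Pi.smul_apply, smul_eq_mul, Pi.zero_apply, row_inr] at hc ⊢
    calc ∑ e ∈ s, φ (us K (Sum.inr (e.1, c))) * lam e * (if i = e.1 then (c'.elim 1 (n e.2)) else 0)
        = ∑ e ∈ s, φ (us K (Sum.inr (i, c))) *
            (lam e * (if i = e.1 then (c'.elim 1 (n e.2)) else 0)) := by
          refine Finset.sum_congr rfl fun e _ => ?_
          by_cases h1 : i = e.1
          · subst h1; simp [mul_assoc]
          · simp [h1]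
      _ = 0 := by rw [← Finset.mul_sum, hc, mul_zero]

/-- dependencies are closed under multiplication by products of translates of `a`. -/
lemma mult_prod (n : F → κ → K) (s : Finset (V × F)) (a : V → K)
    (hmul : ∀ lam : V × F → K, ∑ e ∈ s, lam e • row n e = 0 →
      ∑ e ∈ s, (a e.1 * lam e) • row n e = 0)
    (lam : V × F → K) (h : ∑ e ∈ s, lam e • row n e = 0) (S : Finset K) :
    ∑ e ∈ s, ((∏ β ∈ S, (a e.1 - β)) * lam e) • row n e = 0 := by
  classical
  induction S using Finset.induction_on with
  | empty => simpa using h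
  | insert β S hβ ih =>
    have h1 := hmul _ ih
    have : ∑ e ∈ s, ((∏ b ∈ insert β S, (a e.1 - b)) * lam e) • row n e
        = ∑ e ∈ s, (a e.1 * ((∏ b ∈ S, (a e.1 - b)) * lam e)) • row n e
          - β • ∑ e ∈ s, ((∏ b ∈ S, (a e.1 - b)) * lam e) • row n e := by
      rw [Finset.smul_sum, ← Finset.sum_sub_distrib]
      refine Finset.sum_congr rfl fun e _ => ?_
      rw [Finset.prod_insert hβ, smul_smul, ← sub_smul]
      congr 1
      ring
    rw [this, h1, ih]
    simp

/-- incidences whose vertex is in `X` -/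
def IX (I : Finset (V × F)) (X : Finset V) : Finset (V × F) := I.filter (fun e => e.1 ∈ X)

/-- row space of the incidences at `X` -/
def W (n : F → κ → K) (I : Finset (V × F)) (X : Finset V) :
    Submodule K (F ⊕ (V × Option κ) → K) :=
  Submodule.span K ((fun e => row n e) '' (IX I X : Set (V × F)))

lemma W_union (n : F → κ → K) (I : Finset (V × F)) (X Y : Finset V) :
    W n I (X ∪ Y) = W n I X ⊔ W n I Y := by
  unfold W
  rw [← Submodule.span_union, ← Set.image_union]
  congr 2
  ext e
  simp [IX, and_or_left]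

lemma W_disjoint (n : F → κ → K) (hG : GenProp V n) (I : Finset (V × F)) (X Y : Finset V)
    (φ : (F ⊕ (V × Option κ) → K) →ₗ[K] K) (hφ : ∀ e ∈ IX I (X ∪ Y), φ (row n e) = 0)
    (c : Option κ) (α : K) (hX : ∀ x ∈ X, φ (us K (Sum.inr (x, c))) = α)
    (hY : ∀ y ∈ Y, φ (us K (Sum.inr (y, c))) ≠ α) :
    Disjoint (W n I X) (W n I Y) := by
  classical
  rw [Submodule.disjoint_def]
  intro w hw1 hw2
  have hXY : Disjoint X Y := by
    rw [Finset.disjoint_left]
    intro x hx hy
    exact hY x hy (hX x hx)
  unfold W at hw1 hw2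
  rw [Submodule.mem_span_image_finset_iff_exists_fun'] at hw1 hw2
  obtain ⟨μ, hμ⟩ := hw1
  obtain ⟨ν, hν⟩ := hw2
  set s := IX I (X ∪ Y) with hs
  set lam : V × F → K := fun e => if e.1 ∈ X then μ e else - ν e with hlam
  have hsplit : ∀ f : V × F → (F ⊕ (V × Option κ) → K), ∑ e ∈ s, f e
      = ∑ e ∈ IX I X, f e + ∑ e ∈ IX I Y, f e := by
    intro f
    rw [← Finset.sum_union]
    · congr 1
      ext e
      simp [hs, IX, and_or_left]
    · rw [Finset.disjoint_left]
      intro e he1 he2
      simp only [IX, Finset.mem_filter] at he1 he2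
      exact Finset.disjoint_left.1 hXY he1.2 he2.2
  have hdep : ∑ e ∈ s, lam e • row n e = 0 := by
    rw [hsplit]
    have h1 : ∑ e ∈ IX I X, lam e • row n e = w := by
      rw [← hμ]
      refine Finset.sum_congr rfl fun e he => ?_
      simp only [IX, Finset.mem_filter] at he
      simp [hlam, he.2]
    have h2 : ∑ e ∈ IX I Y, lam e • row n e = - w := by
      rw [← hν, ← Finset.sum_neg_distrib]
      refine Finset.sum_congr rfl fun e he => ?_
      simp only [IX, Finset.mem_filter] at he
      have : e.1 ∉ X := fun hx => Finset.disjoint_left.1 hXY hx he.2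
      simp [hlam, this]
    rw [h1, h2]; simp
  set a : V → K := fun v => φ (us K (Sum.inr (v, c))) with ha
  have hprod := mult_prod n s a (fun l hl => mult_dep n hG s φ hφ l hl c) lam hdep
    (Y.image a)
  rw [hsplit] at hprod
  have hzero : ∑ e ∈ IX I Y, ((∏ β ∈ Y.image a, (a e.1 - β)) * lam e) • row n e = 0 := by
    refine Finset.sum_eq_zero fun e he => ?_
    simp only [IX, Finset.mem_filter] at he
    have : (∏ β ∈ Y.image a, (a e.1 - β)) = 0 :=
      Finset.prod_eq_zero (Finset.mem_image_of_mem a he.2) (sub_self _)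
    rw [this]; simp
  have hg : ∑ e ∈ IX I X, ((∏ β ∈ Y.image a, (a e.1 - β)) * lam e) • row n e
      = (∏ β ∈ Y.image a, (α - β)) • w := by
    rw [← hμ, Finset.smul_sum]
    refine Finset.sum_congr rfl fun e he => ?_
    simp only [IX, Finset.mem_filter] at he
    rw [smul_smul]
    have : a e.1 = α := hX _ he.2
    rw [this]
    simp [hlam, he.2]
  rw [hzero, hg, add_zero] at hprod
  rcases smul_eq_zero.1 hprod with h0 | h0
  · exfalso
    rw [Finset.prod_eq_zero_iff] at h0
    obtain ⟨β, hβ, hβ0⟩ := h0
    obtain ⟨y, hy, rfl⟩ := Finset.mem_image.1 hβ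
    exact hY y hy (sub_eq_zero.1 hβ0).symm
  · exact h0

end Linear

section Rank

variable {V F κ : Type} [DecidableEq V] [DecidableEq F] [DecidableEq κ]
variable [Fintype V] [Fintype F] [Fintype κ]
variable {K : Type} [Field K]

/-- faces met by the vertices in `X` -/
def NX (I : Finset (V × F)) (X : Finset V) : Finset F := (IX I X).image Prod.snd

lemma NX_union (I : Finset (V × F)) (X Y : Finset V) : NX I (X ∪ Y) = NX I X ∪ NX I Y := by
  ext j
  simp only [NX, IX, Finset.mem_image, Finset.mem_filter, Finset.mem_union]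
  constructor
  · rintro ⟨e, ⟨he, h | h⟩, rfl⟩
    · exact Or.inl ⟨e, ⟨he, h⟩, rfl⟩
    · exact Or.inr ⟨e, ⟨he, h⟩, rfl⟩
  · rintro (⟨e, ⟨he, h⟩, rfl⟩ | ⟨e, ⟨he, h⟩, rfl⟩)
    · exact ⟨e, ⟨he, Or.inl h⟩, rfl⟩
    · exact ⟨e, ⟨he, Or.inr h⟩, rfl⟩

/-- all solutions are trivial on `X` -/
def Tight (n : F → κ → K) (I : Finset (V × F)) (X : Finset V) : Prop :=
  ∀ φ : (F ⊕ (V × Option κ) → K) →ₗ[K] K, (∀ e ∈ IX I X, φ (row n e) = 0) →
    ∀ c : Option κ, ∀ x ∈ X, ∀ y ∈ X, φ (us K (Sum.inr (x, c))) = φ (us K (Sum.inr (y, c)))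

lemma finrank_span_us (S : Finset (F ⊕ (V × Option κ))) :
    Module.finrank K (Submodule.span K (Set.range (fun c : S => us K (c : F ⊕ (V × Option κ)))))
      = S.card := by
  have hli : LinearIndependent K (fun c : S => us K (c : F ⊕ (V × Option κ))) := by
    have h := (Pi.basisFun K (F ⊕ (V × Option κ))).linearIndependent
    have h2 := h.comp (fun c : S => (c : F ⊕ (V × Option κ))) Subtype.val_injective
    convert h2 using 1
    funext c
    simp [us]
  rw [finrank_span_eq_card hli]
  simp

lemma tight_bound (n : F → κ → K) (I : Finset (V × F)) (X : Finset V) (hX : X.Nonempty)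
    (ht : Tight n I X) :
    (Fintype.card κ + 1) * X.card + (NX I X).card
      ≤ Module.finrank K (W n I X) + (Fintype.card κ + 1) := by
  classical
  obtain ⟨x0, hx0⟩ := hX
  set S : Finset (F ⊕ (V × Option κ)) :=
    (NX I X).map ⟨Sum.inl, Sum.inl_injective⟩ ∪
      (X ×ˢ (Finset.univ : Finset (Option κ))).map ⟨Sum.inr, Sum.inr_injective⟩ with hS
  have hScard : S.card = (NX I X).card + X.card * (Fintype.card κ + 1) := by
    rw [hS, Finset.card_union_of_disjoint]
    · simp [Finset.card_product, Fintype.card_option]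
    · rw [Finset.disjoint_left]
      intro c hc1 hc2
      simp only [Finset.mem_map, Function.Embedding.coeFn_mk] at hc1 hc2
      obtain ⟨j, _, rfl⟩ := hc1
      obtain ⟨q, _, hq⟩ := hc2
      cases hq
  set S0 : Finset (F ⊕ (V × Option κ)) :=
    (({x0} : Finset V) ×ˢ (Finset.univ : Finset (Option κ))).map
      ⟨Sum.inr, Sum.inr_injective⟩ with hS0
  have hS0card : S0.card = Fintype.card κ + 1 := by
    rw [hS0]; simp [Finset.card_product, Fintype.card_option]
  set U := Submodule.span K (Set.range (fun c : S0 => us K (c : F ⊕ (V × Option κ)))) with hU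
  set T := Submodule.span K (Set.range (fun c : S => us K (c : F ⊕ (V × Option κ)))) with hT
  have hTle : T ≤ W n I X ⊔ U := by
    rw [hT, Submodule.span_le]
    rintro _ ⟨⟨c, hc⟩, rfl⟩
    by_contra hnot
    obtain ⟨φ, hφ1, hφ2⟩ := Submodule.exists_le_ker_of_notMem hnot
    apply hφ1
    have hW : ∀ e ∈ IX I X, φ (row n e) = 0 := by
      intro e he
      have : row n e ∈ W n I X ⊔ U :=
        Submodule.mem_sup_left (Submodule.subset_span ⟨e, he, rfl⟩)
      exact hφ2 this
    have h0 : ∀ c : Option κ, φ (us K (Sum.inr (x0, c))) = 0 := by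
      intro c
      have : us K (Sum.inr (x0, c)) ∈ W n I X ⊔ U := by
        apply Submodule.mem_sup_right
        apply Submodule.subset_span
        exact ⟨⟨Sum.inr (x0, c), by simp [hS0]⟩, rfl⟩
      exact hφ2 this
    have hx : ∀ c : Option κ, ∀ x ∈ X, φ (us K (Sum.inr (x, c))) = 0 := by
      intro c x hx
      rw [ht φ hW c x hx x0 hx0, h0]
    simp only [hS, Finset.mem_union, Finset.mem_map, Function.Embedding.coeFn_mk] at hc
    rcases hc with ⟨j, hj, rfl⟩ | ⟨⟨x, c'⟩, hq, rfl⟩
    · simp only [NX, Finset.mem_image] at hj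
      obtain ⟨e, he, rfl⟩ := hj
      have h1 := hW e he
      have hex : e.1 ∈ X := by
        simp only [IX, Finset.mem_filter] at he
        exact he.2
      rw [row_expand, map_add, map_add, map_sum] at h1
      simp only [map_smul, hx _ _ hex] at h1
      simpa using h1
    · simp only [Finset.mem_product] at hq
      exact hx c' x hq.1
  have h1 : Module.finrank K T ≤ Module.finrank K (W n I X ⊔ U : Submodule K _) :=
    Submodule.finrank_mono hTle
  have h2 : Module.finrank K (W n I X ⊔ U : Submodule K _) ≤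
      Module.finrank K (W n I X) + Module.finrank K U := Submodule.finrank_add_le_finrank_add_finrank _ _
  have hTc : Module.finrank K T = (NX I X).card + X.card * (Fintype.card κ + 1) := by
    rw [hT, finrank_span_us, hScard]
  have hUc : Module.finrank K U = Fintype.card κ + 1 := by
    rw [hU, finrank_span_us, hS0card]
  have h3 : X.card * (Fintype.card κ + 1) = (Fintype.card κ + 1) * X.card := mul_comm _ _
  rw [hTc] at h1
  rw [hUc] at h2
  omega

lemma split_exists (n : F → κ → K) (hG : GenProp V n) (I : Finset (V × F)) (X : Finset V)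
    (ht : ¬ Tight n I X) :
    ∃ X1 X2 : Finset V, X1.Nonempty ∧ X2.Nonempty ∧ Disjoint X1 X2 ∧ X1 ∪ X2 = X ∧
      Module.finrank K (W n I X) = Module.finrank K (W n I X1) + Module.finrank K (W n I X2) := by
  classical
  unfold Tight at ht
  push Not at ht
  obtain ⟨φ, hφ, c, x, hx, y, hy, hxy⟩ := ht
  set α := φ (us K (Sum.inr (x, c))) with hα
  refine ⟨X.filter (fun v => φ (us K (Sum.inr (v, c))) = α),
    X.filter (fun v => ¬ φ (us K (Sum.inr (v, c))) = α), ⟨x, ?_⟩, ⟨y, ?_⟩, ?_, ?_, ?_⟩
  · simp [hx, hα]
  · simp only [Finset.mem_filter]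
    exact ⟨hy, fun h => hxy h.symm⟩
  · exact Finset.disjoint_filter_filter_not _ _ _
  · exact Finset.filter_union_filter_not_eq _ _
  · set X1 := X.filter (fun v => φ (us K (Sum.inr (v, c))) = α) with hX1
    set X2 := X.filter (fun v => ¬ φ (us K (Sum.inr (v, c))) = α) with hX2
    have hunion : X1 ∪ X2 = X := Finset.filter_union_filter_not_eq _ _
    have hdis : Disjoint (W n I X1) (W n I X2) := by
      apply W_disjoint n hG I X1 X2 φ (by rw [hunion]; exact hφ) c α
      · intro v hv
        simp only [hX1, Finset.mem_filter] at hv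
        exact hv.2
      · intro v hv
        simp only [hX2, Finset.mem_filter] at hv
        exact hv.2
    have h1 := Submodule.finrank_sup_add_finrank_inf_eq (W n I X1) (W n I X2)
    rw [← W_union, hunion, hdis.eq_bot] at h1
    simpa using h1

lemma card_ineq {α : Type} [DecidableEq α] (A B C : Finset α) :
    2 * (A ∪ B).card + (A ∩ (B ∪ C)).card + (B ∩ (A ∪ C)).card
      ≤ 2 * A.card + 2 * B.card + ((A ∪ B) ∩ C).card := by
  have h1 := Finset.card_union_add_card_inter A B
  have h2 : (A ∩ (B ∪ C)).card ≤ (A ∩ B).card + ((A ∩ C) \ B).card := by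
    refine le_trans (Finset.card_le_card ?_) (Finset.card_union_le _ _)
    intro x; simp only [Finset.mem_inter, Finset.mem_union, Finset.mem_sdiff]; tauto
  have h3 : (B ∩ (A ∪ C)).card ≤ (A ∩ B).card + ((B ∩ C) \ A).card := by
    refine le_trans (Finset.card_le_card ?_) (Finset.card_union_le _ _)
    intro x; simp only [Finset.mem_inter, Finset.mem_union, Finset.mem_sdiff]; tauto
  have h4 : ((A ∩ C) \ B).card + ((B ∩ C) \ A).card ≤ ((A ∪ B) ∩ C).card := by
    rw [← Finset.card_union_of_disjoint]
    · apply Finset.card_le_card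
      intro x; simp only [Finset.mem_inter, Finset.mem_union, Finset.mem_sdiff]; tauto
    · rw [Finset.disjoint_left]
      intro x; simp only [Finset.mem_inter, Finset.mem_sdiff]; tauto
  omega

/-- the key lower bound on the ranks of proper pieces. -/
theorem piece_bound (n : F → κ → K) (hG : GenProp V n) (I : Finset (V × F))
    (H : ∀ X : Finset V, X.Nonempty → X ≠ Finset.univ →
      2 * (Fintype.card κ + 1) ≤ (NX I X ∩ NX I Xᶜ).card) :
    ∀ (X : Finset V), X.Nonempty → X ≠ Finset.univ →
      2 * ((Fintype.card κ + 1) * X.card) + 2 * (NX I X).card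
        ≤ 2 * Module.finrank K (W n I X) + (NX I X ∩ NX I Xᶜ).card := by
  intro X
  induction X using Finset.strongInduction with
  | H X ih =>
    intro hne huniv
    by_cases ht : Tight n I X
    · have h1 := tight_bound n I X hne ht
      have h2 := H X hne huniv
      omega
    · obtain ⟨X1, X2, h1, h2, hd, hu, hr⟩ := split_exists n hG I X ht
      have hss1 : X1 ⊂ X := by
        rw [← hu]
        refine Finset.ssubset_iff_subset_ne.2 ⟨Finset.subset_union_left, fun h => ?_⟩
        obtain ⟨y, hy⟩ := h2
        have : y ∈ X1 := by rw [h]; exact Finset.mem_union_right _ hy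
        exact Finset.disjoint_left.1 hd this hy
      have hss2 : X2 ⊂ X := by
        rw [← hu]
        refine Finset.ssubset_iff_subset_ne.2 ⟨Finset.subset_union_right, fun h => ?_⟩
        obtain ⟨y, hy⟩ := h1
        have : y ∈ X2 := by rw [h]; exact Finset.mem_union_left _ hy
        exact Finset.disjoint_left.1 hd hy this
      have hu1 : X1 ≠ Finset.univ := by
        intro h
        rw [h] at hss1
        exact hss1.2 (Finset.subset_univ _)
      have hu2 : X2 ≠ Finset.univ := by
        intro h
        rw [h] at hss2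
        exact hss2.2 (Finset.subset_univ _)
      have i1 := ih X1 hss1 h1 hu1
      have i2 := ih X2 hss2 h2 hu2
      have hc1 : X1ᶜ = X2 ∪ Xᶜ := by
        ext v
        have : v ∈ X1 → v ∉ X2 := fun h => Finset.disjoint_left.1 hd h
        have hm : v ∈ X ↔ v ∈ X1 ∨ v ∈ X2 := by rw [← hu, Finset.mem_union]
        simp only [Finset.mem_compl, Finset.mem_union, hm]
        tauto
      have hc2 : X2ᶜ = X1 ∪ Xᶜ := by
        ext v
        have : v ∈ X1 → v ∉ X2 := fun h => Finset.disjoint_left.1 hd h
        have hm : v ∈ X ↔ v ∈ X1 ∨ v ∈ X2 := by rw [← hu, Finset.mem_union]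
        simp only [Finset.mem_compl, Finset.mem_union, hm]
        tauto
      rw [hc1, NX_union] at i1
      rw [hc2, NX_union] at i2
      have hcard : X.card = X1.card + X2.card := by
        rw [← hu, Finset.card_union_of_disjoint hd]
      have hN : NX I X = NX I X1 ∪ NX I X2 := by rw [← hu, NX_union]
      have hci := card_ineq (NX I X1) (NX I X2) (NX I Xᶜ)
      rw [hN, hr, hcard, mul_add (Fintype.card κ + 1)]
      omega

theorem full_bound (n : F → κ → K) (hG : GenProp V n) (I : Finset (V × F)) [Nonempty V]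
    (H : ∀ X : Finset V, X.Nonempty → X ≠ Finset.univ →
      2 * (Fintype.card κ + 1) ≤ (NX I X ∩ NX I Xᶜ).card) :
    (Fintype.card κ + 1) * Fintype.card V + (NX I Finset.univ).card
      ≤ Module.finrank K (W n I Finset.univ) + (Fintype.card κ + 1) := by
  by_cases ht : Tight n I Finset.univ
  · have h1 := tight_bound n I Finset.univ Finset.univ_nonempty ht
    rw [Finset.card_univ] at h1
    exact h1
  · obtain ⟨X1, X2, h1, h2, hd, hu, hr⟩ := split_exists n hG I Finset.univ ht
    have hc1 : X1ᶜ = X2 := by
      ext v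
      have : v ∈ X1 → v ∉ X2 := fun h => Finset.disjoint_left.1 hd h
      have hm : v ∈ X1 ∨ v ∈ X2 := by rw [← Finset.mem_union, hu]; exact Finset.mem_univ v
      simp only [Finset.mem_compl]
      tauto
    have hc2 : X2ᶜ = X1 := by rw [← hc1, compl_compl]
    have hu1 : X1 ≠ Finset.univ := by
      rintro rfl
      obtain ⟨y, hy⟩ := h2
      exact Finset.disjoint_left.1 hd (Finset.mem_univ y) hy
    have hu2 : X2 ≠ Finset.univ := by
      rintro rfl
      obtain ⟨y, hy⟩ := h1
      exact Finset.disjoint_left.1 hd hy (Finset.mem_univ y)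
    have i1 := piece_bound n hG I H X1 h1 hu1
    have i2 := piece_bound n hG I H X2 h2 hu2
    rw [hc1] at i1
    rw [hc2, Finset.inter_comm] at i2
    have hcard : Fintype.card V = X1.card + X2.card := by
      rw [← Finset.card_univ, ← hu, Finset.card_union_of_disjoint hd]
    have hN : NX I Finset.univ = NX I X1 ∪ NX I X2 := by rw [← hu, NX_union]
    have hci := Finset.card_union_add_card_inter (NX I X1) (NX I X2)
    rw [hN, hr, hcard, mul_add]
    omega

end Rank

section Transfer

variable {V F κ : Type} [DecidableEq V] [DecidableEq F] [DecidableEq κ]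
variable [Fintype V] [Fintype F] [Fintype κ]
variable (k : Type) [Field k]

lemma genProp_gq : GenProp V (gq F κ k) := fun s lam h j0 k0 => deriv_mem k s lam h j0 k0

/-- linear independence over the fraction field specialises away from a nonzero polynomial. -/
lemma transfer {ι : Type} [Fintype ι] (g : ι → V × F)
    (h : LinearIndependent (QR F κ k) (fun i => row (gq F κ k) (g i))) :
    ∃ b : PR F κ k, b ≠ 0 ∧ ∀ (L : Type) [Field L] (f : PR F κ k →+* L), f b ≠ 0 →
      LinearIndependent L (fun i => row (fun j c => f (MvPolynomial.X (j, c))) (g i)) := by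
  classical
  set T : (ι → QR F κ k) →ₗ[QR F κ k] (F ⊕ (V × Option κ) → QR F κ k) :=
    Fintype.linearCombination (QR F κ k) (fun i => row (gq F κ k) (g i)) with hT
  have hinj : LinearMap.ker T = ⊥ := by
    rw [LinearMap.ker_eq_bot]
    exact linearIndependent_iff_injective_fintypeLinearCombination.1 h
  obtain ⟨G, hG⟩ := T.exists_leftInverse_of_injective hinj
  have hGrow : ∀ i i' : ι, G (row (gq F κ k) (g i)) i' = if i = i' then 1 else 0 := by
    intro i i'
    have h1 : T (Pi.single i 1) = row (gq F κ k) (g i) := by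
      simp [hT, Fintype.linearCombination_apply_single]
    have h2 : G (T (Pi.single i 1)) = Pi.single i 1 := by
      rw [← LinearMap.comp_apply, hG, LinearMap.id_apply]
    rw [← h1, h2, Pi.single_apply]
    by_cases h3 : i = i'
    · simp [h3]
    · simp [h3, Ne.symm h3]
  -- matrix entries
  have hexp : ∀ i i' : ι, ∑ c, row (gq F κ k) (g i) c * G (us _ c) i' = if i = i' then 1 else 0 := by
    intro i i'
    rw [← hGrow i i']
    conv_rhs => rw [pi_eq_sum_univ' (row (gq F κ k) (g i))]
    rw [map_sum, Finset.sum_apply]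
    refine Finset.sum_congr rfl fun c _ => ?_
    rw [map_smul, Pi.smul_apply, smul_eq_mul]
  obtain ⟨b, hb⟩ := IsLocalization.exist_integer_multiples (nonZeroDivisors (PR F κ k))
    (Finset.univ : Finset ((F ⊕ (V × Option κ)) × ι)) (fun q => G (us _ q.1) q.2)
  have hb' : ∀ q : (F ⊕ (V × Option κ)) × ι, ∃ p : PR F κ k,
      algebraMap (PR F κ k) (QR F κ k) p
        = algebraMap (PR F κ k) (QR F κ k) (b : PR F κ k) * G (us _ q.1) q.2 := by
    intro q
    obtain ⟨p, hp⟩ := hb q (Finset.mem_univ _)
    refine ⟨p, ?_⟩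
    rw [hp, Algebra.smul_def]
  choose N hN using hb'
  have hpoly : ∀ i i' : ι, ∑ c, row (gp F κ k) (g i) c * N (c, i')
      = if i = i' then (b : PR F κ k) else 0 := by
    intro i i'
    apply IsFractionRing.injective (PR F κ k) (QR F κ k)
    rw [map_sum]
    have : ∀ c, algebraMap (PR F κ k) (QR F κ k) (row (gp F κ k) (g i) c * N (c, i'))
        = algebraMap (PR F κ k) (QR F κ k) (b : PR F κ k) *
          (row (gq F κ k) (g i) c * G (us _ c) i') := by
      intro c
      rw [map_mul, hN, map_row]
      change row (gq F κ k) (g i) c * _ = _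
      ring
    rw [Finset.sum_congr rfl fun c _ => this c, ← Finset.mul_sum, hexp]
    split_ifs <;> simp
  refine ⟨b, nonZeroDivisors.coe_ne_zero b, fun L _ f hf => ?_⟩
  rw [Fintype.linearIndependent_iff]
  intro μ hμ i'
  have h1 : ∑ c, (∑ i, μ i * row (fun j c => f (MvPolynomial.X (j, c))) (g i) c) * f (N (c, i'))
      = μ i' * f b := by
    calc ∑ c, (∑ i, μ i * row (fun j c => f (MvPolynomial.X (j, c))) (g i) c) * f (N (c, i'))
        = ∑ c, ∑ i, μ i * f (row (gp F κ k) (g i) c * N (c, i')) := by
          refine Finset.sum_congr rfl fun c _ => ?_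
          rw [Finset.sum_mul]
          refine Finset.sum_congr rfl fun i _ => ?_
          rw [map_mul, map_row]
          change _ = μ i * (row (fun j c => f (MvPolynomial.X (j, c))) (g i) c * _)
          ring
      _ = ∑ i, μ i * f (∑ c, row (gp F κ k) (g i) c * N (c, i')) := by
          rw [Finset.sum_comm]
          refine Finset.sum_congr rfl fun i _ => ?_
          rw [map_sum, Finset.mul_sum]
      _ = μ i' * f b := by
          simp only [hpoly]
          rw [Finset.sum_eq_single i']
          · simp
          · intro i _ hi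
            simp [hi]
          · intro h; exact absurd (Finset.mem_univ _) h
  have h2 : ∀ c, ∑ i, μ i * row (fun j c => f (MvPolynomial.X (j, c))) (g i) c = 0 := by
    intro c
    have := congrFun hμ c
    simpa [Finset.sum_apply] using this
  simp only [h2, zero_mul, Finset.sum_const_zero] at h1
  rcases mul_eq_zero.1 h1.symm with h3 | h3
  · exact h3
  · exact absurd h3 hf

/-- Rank lower bound, away from a nonzero polynomial. -/
theorem spec_bound (I : Finset (V × F)) [Nonempty V]
    (H : ∀ X : Finset V, X.Nonempty → X ≠ Finset.univ →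
      2 * (Fintype.card κ + 1) ≤ (NX I X ∩ NX I Xᶜ).card) :
    ∃ b : PR F κ k, b ≠ 0 ∧ ∀ (L : Type) [Field L] (f : PR F κ k →+* L), f b ≠ 0 →
      (Fintype.card κ + 1) * Fintype.card V + (NX I Finset.univ).card
      ≤ Module.finrank L (Submodule.span L
          ((fun e => row (fun j c => f (MvPolynomial.X (j, c))) e) '' (I : Set (V × F))))
        + (Fintype.card κ + 1) := by
  classical
  have hfull := full_bound (gq F κ k) (genProp_gq k) I H
  obtain ⟨ι, a, ha, hspan, hli⟩ := exists_linearIndependent' (QR F κ k)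
    (fun i : I => row (gq F κ k) (i : V × F))
  have : Finite ι := Finite.of_injective a ha
  have : Fintype ι := Fintype.ofFinite ι
  obtain ⟨b, hb, hbf⟩ := transfer k (fun i : ι => ((a i : I) : V × F)) hli
  refine ⟨b, hb, fun L _ f hf => ?_⟩
  have hliL := hbf L f hf
  have hW : W (gq F κ k) I Finset.univ
      = Submodule.span (QR F κ k) (Set.range ((fun i : I => row (gq F κ k) (i : V × F)) ∘ a)) := by
    rw [hspan]
    unfold W
    congr 1
    ext w
    simp [IX]
  have h1 : Module.finrank (QR F κ k) (W (gq F κ k) I Finset.univ) = Fintype.card ι := by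
    rw [hW]
    exact finrank_span_eq_card hli
  have h2 : Fintype.card ι ≤ Module.finrank L (Submodule.span L
          ((fun e => row (fun j c => f (MvPolynomial.X (j, c))) e) '' (I : Set (V × F)))) := by
    rw [← finrank_span_eq_card hliL]
    apply Submodule.finrank_mono
    apply Submodule.span_mono
    rintro _ ⟨i, rfl⟩
    exact ⟨_, (a i).2, rfl⟩
  omega

/-- Upper bound on ranks. -/
theorem upper_bound {L : Type} [Field L] (n : F → κ → L) (S : Set (V × F)) [Nonempty V] :
    Module.finrank L (Submodule.span L ((fun e => row n e) '' S)) + (Fintype.card κ + 1)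
      ≤ (Fintype.card κ + 1) * Fintype.card V + Fintype.card F := by
  classical
  -- the map giving the values of the trivial solutions
  let Φ : (F ⊕ (V × Option κ) → L) →ₗ[L] (Option κ → L) :=
    { toFun := fun v c => ∑ i : V, v (Sum.inr (i, c)) - ∑ j : F, (c.elim 1 (n j)) * v (Sum.inl j)
      map_add' := by
        intro v w
        funext c
        simp only [Pi.add_apply, mul_add, Finset.sum_add_distrib]
        ring
      map_smul' := by
        intro r v
        funext c
        simp only [Pi.smul_apply, smul_eq_mul, RingHom.id_apply, mul_sub, Finset.mul_sum]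
        congr 1
        refine Finset.sum_congr rfl fun j _ => by ring }
  have hker : Submodule.span L ((fun e => row n e) '' S) ≤ LinearMap.ker Φ := by
    rw [Submodule.span_le]
    rintro _ ⟨e, _, rfl⟩
    rw [SetLike.mem_coe, LinearMap.mem_ker]
    funext c
    simp [Φ]
  have hsurj : LinearMap.range Φ = ⊤ := by
    rw [LinearMap.range_eq_top]
    intro w
    obtain ⟨i0⟩ := ‹Nonempty V›
    refine ⟨Sum.elim 0 (fun q => if q.1 = i0 then w q.2 else 0), ?_⟩
    funext c
    simp [Φ]
  have h1 := LinearMap.finrank_range_add_finrank_ker Φ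
  rw [hsurj, finrank_top] at h1
  have h2 := Submodule.finrank_mono hker
  simp only [Module.finrank_fintype_fun_eq_card, Fintype.card_option, Fintype.card_sum,
    Fintype.card_prod] at h1
  have h3 : Fintype.card V * (Fintype.card κ + 1) = (Fintype.card κ + 1) * Fintype.card V :=
    mul_comm _ _
  omega

end Transfer

section Graph

variable {V F : Type} [DecidableEq V] [DecidableEq F] [Fintype V] [Fintype F]

/-- incidence graph -/
def IG (I : Finset (V × F)) : SimpleGraph (V ⊕ F) :=
  SimpleGraph.fromRel (fun a b : V ⊕ F => ∃ p ∈ I, a = Sum.inl p.1 ∧ b = Sum.inr p.2)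

lemma conn_cut (G : SimpleGraph (V ⊕ F)) (S : Finset (V ⊕ F))
    (hconn : (G.induce ((↑S : Set (V ⊕ F))ᶜ)).Connected) (P : V ⊕ F → Prop)
    (hP : ∀ a b, a ∉ S → b ∉ S → G.Adj a b → P a → P b) (a b : V ⊕ F) (ha : a ∉ S) (hb : b ∉ S)
    (hPa : P a) : P b := by
  have key : ∀ (u v : ((↑S : Set (V ⊕ F))ᶜ : Set (V ⊕ F))),
      (G.induce ((↑S : Set (V ⊕ F))ᶜ)).Walk u v → P u.1 → P v.1 := by
    intro u v w
    induction w with
    | nil => exact id
    | cons hadj _ ih =>
      intro hu
      apply ih
      rename_i u' v' _ _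
      refine hP u'.1 v'.1 ?_ ?_ hadj hu
      · exact fun h => u'.2 h
      · exact fun h => v'.2 h
  obtain ⟨w⟩ := hconn.preconnected ⟨a, fun h => ha h⟩ ⟨b, fun h => hb h⟩
  exact key _ _ w hPa

lemma conn_H (I : Finset (V × F)) (D : ℕ)
    (h : ∀ X : Finset (V ⊕ F), X.card < D → ((IG I).induce ((↑X : Set (V ⊕ F))ᶜ)).Connected)
    (X : Finset V) (hne : X.Nonempty) (huniv : X ≠ Finset.univ) :
    D ≤ (NX I X ∩ NX I Xᶜ).card := by
  classical
  by_contra hlt
  push Not at hlt
  obtain ⟨x, hx⟩ := hne
  obtain ⟨y, hy⟩ : ∃ y, y ∉ X := by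
    by_contra hall
    push Not at hall
    exact huniv (Finset.eq_univ_iff_forall.2 hall)
  set S : Finset (V ⊕ F) := (NX I X ∩ NX I Xᶜ).map ⟨Sum.inr, Sum.inr_injective⟩ with hS
  have hScard : S.card < D := by rw [hS, Finset.card_map]; exact hlt
  have hmemS : ∀ j : F, Sum.inr j ∈ S ↔ j ∈ NX I X ∧ j ∈ NX I Xᶜ := by
    intro j; simp [hS]
  have hinl : ∀ v : V, Sum.inl v ∉ S := by
    intro v; simp [hS]
  have hmemN : ∀ (Y : Finset V) (e : V × F), e ∈ I → e.1 ∈ Y → e.2 ∈ NX I Y := by
    intro Y e he hY
    simp only [NX, IX, Finset.mem_image, Finset.mem_filter]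
    exact ⟨e, ⟨he, hY⟩, rfl⟩
  have hfinal := conn_cut (IG I) S (h S hScard)
    (fun a => Sum.elim (fun v => v ∈ X) (fun j => j ∈ NX I X) a) (by
      intro a b ha hb hadj hPa
      simp only [IG, SimpleGraph.fromRel_adj] at hadj
      obtain ⟨_, ⟨e, he, rfl, rfl⟩ | ⟨e, he, rfl, rfl⟩⟩ := hadj
      · simp only [Sum.elim_inl, Sum.elim_inr] at hPa ⊢
        exact hmemN X e he hPa
      · simp only [Sum.elim_inl, Sum.elim_inr] at hPa ⊢
        by_contra hnot
        exact ha ((hmemS _).2 ⟨hPa, hmemN _ e he (Finset.mem_compl.2 hnot)⟩))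
    (Sum.inl x) (Sum.inl y) (hinl x) (hinl y) (by simpa using hx)
  simp only [Sum.elim_inl] at hfinal
  exact hy hfinal

lemma conn_NX_univ (I : Finset (V × F)) (hcard : 1 < Fintype.card V + Fintype.card F)
    (h : (((IG I).induce ((↑(∅ : Finset (V ⊕ F)) : Set (V ⊕ F))ᶜ)).Connected)) :
    NX I Finset.univ = Finset.univ := by
  classical
  rw [Finset.eq_univ_iff_forall]
  intro j
  by_contra hj
  have hno : ∀ e ∈ I, e.2 ≠ j := by
    rintro e he rfl
    apply hj
    simp only [NX, IX, Finset.mem_image, Finset.mem_filter]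
    exact ⟨e, ⟨he, Finset.mem_univ _⟩, rfl⟩
  have hnt : Nontrivial (V ⊕ F) := by
    rw [← Fintype.one_lt_card_iff_nontrivial, Fintype.card_sum]
    exact hcard
  obtain ⟨b, hb⟩ := exists_ne (Sum.inr j : V ⊕ F)
  have := conn_cut (IG I) ∅ h (fun a => a = Sum.inr j) (by
    rintro a b _ _ hadj rfl
    simp only [IG, SimpleGraph.fromRel_adj] at hadj
    obtain ⟨_, ⟨e, he, h1, h2⟩ | ⟨e, he, h1, h2⟩⟩ := hadj
    · cases h1
    · exact absurd (Sum.inr_injective h2).symm (hno e he)) (Sum.inr j) b (by simp) (by simp) rfl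
  exact hb this

lemma conn_nonempty_V (I : Finset (V × F)) (hcard : 1 < Fintype.card V + Fintype.card F)
    (h : (((IG I).induce ((↑(∅ : Finset (V ⊕ F)) : Set (V ⊕ F))ᶜ)).Connected)) :
    Nonempty V := by
  classical
  by_contra hV
  rw [not_nonempty_iff] at hV
  have hF : 0 < Fintype.card F := by
    rw [Fintype.card_eq_zero (α := V)] at hcard
    omega
  obtain ⟨j⟩ := Fintype.card_pos_iff.1 hF
  have := conn_NX_univ I hcard h
  have hj : j ∈ NX I Finset.univ := by rw [this]; exact Finset.mem_univ _
  simp only [NX, IX, Finset.mem_image, Finset.mem_filter] at hj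
  obtain ⟨e, _, _⟩ := hj
  exact hV.elim e.1

end Graph

section Final

lemma finrank_reindex {C C' E L : Type} [Field L] (σ : C ≃ C') (f : E → C → L) (g : E → C' → L)
    (h : ∀ e c, g e (σ c) = f e c) (S : Set E) :
    Module.finrank L (Submodule.span L (f '' S)) = Module.finrank L (Submodule.span L (g '' S)) := by
  have hmap : Submodule.map (LinearEquiv.funCongrLeft L L σ : (C' → L) →ₗ[L] (C → L))
      (Submodule.span L (g '' S)) = Submodule.span L (f '' S) := by
    rw [Submodule.map_span, ← Set.image_comp]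
    congr 1
    apply Set.image_congr
    intro e _
    funext c
    simp [LinearEquiv.funCongrLeft, LinearMap.funLeft, h]
  rw [← hmap]
  exact LinearEquiv.finrank_map_eq (LinearEquiv.funCongrLeft L L σ) _

variable {V F κ : Type} [DecidableEq V] [DecidableEq F] [DecidableEq κ]
variable [Fintype V] [Fintype F] [Fintype κ]

/-- Polynomial version of the theorem: away from a nonzero polynomial, the rank is full. -/
theorem conn_spec (k : Type) [Field k] (I : Finset (V × F))
    (hcard : 1 < Fintype.card V + Fintype.card F)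
    (h : ∀ X : Finset (V ⊕ F), X.card < 2 * (Fintype.card κ + 1) →
      ((IG I).induce ((↑X : Set (V ⊕ F))ᶜ)).Connected) :
    ∃ b : PR F κ k, b ≠ 0 ∧ ∀ (L : Type) [Field L] (f : PR F κ k →+* L), f b ≠ 0 →
      (Fintype.card κ + 1) * Fintype.card V + Fintype.card F
      ≤ Module.finrank L (Submodule.span L
          ((fun e => row (fun j c => f (MvPolynomial.X (j, c))) e) '' (I : Set (V × F))))
        + (Fintype.card κ + 1) := by
  have h0 := h ∅ (by simp)
  have hV : Nonempty V := conn_nonempty_V I hcard h0
  have hN := conn_NX_univ I hcard h0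
  obtain ⟨b, hb, hbf⟩ := spec_bound (κ := κ) k I
    (fun X hX hX' => conn_H I (2 * (Fintype.card κ + 1)) h X hX hX')
  refine ⟨b, hb, fun L _ f hf => ?_⟩
  have := hbf L f hf
  rw [hN, Finset.card_univ] at this
  exact this

/-- There are real normals for which the rank is full. -/
theorem conn_real (I : Finset (V × F))
    (hcard : 1 < Fintype.card V + Fintype.card F)
    (h : ∀ X : Finset (V ⊕ F), X.card < 2 * (Fintype.card κ + 1) →
      ((IG I).induce ((↑X : Set (V ⊕ F))ᶜ)).Connected) :
    ∃ B : F → κ → ℝ, (Fintype.card κ + 1) * Fintype.card V + Fintype.card F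
      ≤ Module.finrank ℝ (Submodule.span ℝ ((fun e => row B e) '' (I : Set (V × F))))
        + (Fintype.card κ + 1) := by
  obtain ⟨b, hb, hbf⟩ := conn_spec (κ := κ) ℝ I hcard h
  have hex : ∃ x : F × κ → ℝ, MvPolynomial.eval x b ≠ 0 := by
    by_contra hall
    push Not at hall
    apply hb
    apply MvPolynomial.funext
    intro x
    rw [hall x, map_zero]
  obtain ⟨x, hx⟩ := hex
  refine ⟨fun j c => x (j, c), ?_⟩
  have hthis := hbf ℝ (MvPolynomial.eval x) hx
  have hx2 : (fun (j : F) (c : κ) => MvPolynomial.eval x (MvPolynomial.X (j, c)))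
      = fun j c => x (j, c) := by
    funext j c; simp
  rw [hx2] at hthis
  exact hthis

/-- At algebraically independent normals the rank is full. -/
theorem conn_algInd (I : Finset (V × F))
    (hcard : 1 < Fintype.card V + Fintype.card F)
    (h : ∀ X : Finset (V ⊕ F), X.card < 2 * (Fintype.card κ + 1) →
      ((IG I).induce ((↑X : Set (V ⊕ F))ᶜ)).Connected)
    (a : F → κ → ℝ) (ha : AlgebraicIndependent ℚ (fun q : F × κ => a q.1 q.2)) :
    (Fintype.card κ + 1) * Fintype.card V + Fintype.card F
      ≤ Module.finrank ℝ (Submodule.span ℝ ((fun e => row a e) '' (I : Set (V × F))))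
        + (Fintype.card κ + 1) := by
  obtain ⟨b, hb, hbf⟩ := conn_spec (κ := κ) ℚ I hcard h
  have hb' : (MvPolynomial.aeval (fun q : F × κ => a q.1 q.2) : MvPolynomial (F × κ) ℚ →ₐ[ℚ] ℝ) b ≠ 0 := by
    intro h0
    apply hb
    have hinj : Function.Injective (MvPolynomial.aeval (fun q : F × κ => a q.1 q.2) :
      MvPolynomial (F × κ) ℚ →ₐ[ℚ] ℝ) := ha
    apply hinj
    rw [h0, map_zero]
  have hthis := hbf ℝ (MvPolynomial.aeval (fun q : F × κ => a q.1 q.2) :
    MvPolynomial (F × κ) ℚ →ₐ[ℚ] ℝ).toRingHom hb'
  have hx2 : (fun (j : F) (c : κ) => (MvPolynomial.aeval (fun q : F × κ => a q.1 q.2) :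
      MvPolynomial (F × κ) ℚ →ₐ[ℚ] ℝ).toRingHom (MvPolynomial.X (j, c))) = a := by
    funext j c
    change (MvPolynomial.aeval (fun q : F × κ => a q.1 q.2) :
      MvPolynomial (F × κ) ℚ →ₐ[ℚ] ℝ) (MvPolynomial.X (j, c)) = a j c
    rw [MvPolynomial.aeval_X]
  rw [hx2] at hthis
  exact hthis

end Final

end Pool.Agent.Helper598.Parallel
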